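import Pool.Agent.K4H28.PF.Par
import Pool.Agent.K4H28.FV.Geo3
import Pool.Agent.W552.TautFr

/-!
# The rational classes of given parity on a variety with a Fujiki relation
-/

set_option autoImplicit false
set_option linter.unusedSectionVars false

open CategoryTheory AlgebraicGeometry

universe u v

namespace Pool.Agent.K4H28.PF

open Pool.Agent.H914 VarClass Obj WeilCohomology MvPolynomial ComplexConjugate
  Pool.Agent.K4H28.FV

section Odd

variable {σ : Type} [Fintype σ] [DecidableEq σ] {L : Type*} [Field L] [CharZero L] {n : ℕ}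
  {c : ℚ} {q : σ → ℚ}

theorem wL_fl {s : σ → ℤ} (hs : ∀ i, s i = 1 ∨ s i = -1) (F : MvPolynomial σ L) :
    wL n c q L (fl s F) = wL n c q L F := by
  conv_lhs => rw [F.as_sum]
  conv_rhs => rw [F.as_sum]
  rw [map_sum, map_sum, map_sum]
  refine Finset.sum_congr rfl fun γ _ => ?_
  rw [fl_mono, map_smul, wL_mono, smul_eq_mul]
  by_cases h : ∃ i, Odd (γ i)
  · obtain ⟨i, hi⟩ := h
    rw [wick_odd hi, Rat.cast_zero, mul_zero, mul_zero]
  · push Not at h
    have h1 : sgn s γ = 1 := by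
      rw [sgn]
      apply Finset.prod_eq_one
      intro i _
      have h2 := h i
      rcases hs i with h3 | h3
      · rw [h3, one_pow]
      · rw [h3, Even.neg_one_pow (Nat.not_odd_iff_even.1 h2)]
    rw [h1, Int.cast_one, one_mul]

end Odd

variable {N m : ℕ} {n : ℕ} {c : ℚ} {w : Fin N → ℚ} {ρ : ℚ}

theorem PP.mul {ε ε' : ℤ} {l l' : ℕ} {F G : MvPolynomial (Ix N m) ℚ} (h : PP ε l F)
    (h' : PP ε' l' G) : PP (ε * ε') (l + l') (F * G) := by
  refine ⟨h.1.mul h'.1, ?_⟩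
  rw [map_mul, h.2, h'.2, smul_mul_smul_comm]
  push_cast
  rfl

theorem PP.wL_zero {l : ℕ} {F : MvPolynomial (Ix N m) ℚ} (h : PP (-1) l F) :
    wL n c (qr w ρ) ℚ F = 0 := by
  have h1 := wL_fl (n := n) (c := c) (q := qr w ρ) s0_sq F
  rw [h.2, map_smul, smul_eq_mul] at h1
  push_cast at h1
  linarith

theorem PP.zero {ε : ℤ} {l : ℕ} : PP ε l (0 : MvPolynomial (Ix N m) ℚ) :=
  ⟨isHomogeneous_zero _ _ _, by rw [map_zero, smul_zero]⟩

theorem PP.add {ε : ℤ} {l : ℕ} {F G : MvPolynomial (Ix N m) ℚ} (h : PP ε l F)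
    (h' : PP ε l G) : PP ε l (F + G) :=
  ⟨h.1.add h'.1, by rw [map_add, h.2, h'.2, smul_add]⟩

theorem PP.smul {ε : ℤ} {l : ℕ} {F : MvPolynomial (Ix N m) ℚ} (h : PP ε l F) (r : ℚ) :
    PP ε l (r • F) := by
  constructor
  · rw [smul_eq_C_mul]
    have := (isHomogeneous_C (Ix N m) r).mul h.1
    rwa [zero_add] at this
  · rw [map_smul, h.2, smul_comm]

theorem PP.X_pow {ε : ℤ} {l : ℕ} {F : MvPolynomial (Ix N m) ℚ} (h : PP ε l F) (i : ℕ) :
    PP ε (l + i) (X none ^ i * F) := by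
  induction i with
  | zero => rw [pow_zero, one_mul]; exact h
  | succ i ih =>
    rw [pow_succ', mul_assoc, ← add_assoc]
    exact ih.X_mul

theorem PP.mono (γ : Ix N m →₀ ℕ) : PP (sgn s0 γ) (∑ i, γ i) (monomial γ (1 : ℚ)) := by
  constructor
  · apply isHomogeneous_monomial
    rw [Finsupp.degree_eq_sum]
  · rw [fl_mono]

/-- The functional of a polynomial is represented. -/
theorem exists_rep (hc : 0 < c) (hw : ∀ j, 0 < w j) (hρ : 0 < ρ) {ε : ℤ} (hε : ε = 1 ∨ ε = -1) {l m' : ℕ}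
    (hlm : l + m' = n) (G : MvPolynomial (Ix N m) ℚ) :
    ∃ F, PP ε l F ∧ ∀ F', PP ε l F' →
      wL n c (qr w ρ) ℚ (F * X none ^ (2 * m') * F') = wL n c (qr w ρ) ℚ (G * F') := by
  let V : Submodule ℚ (MvPolynomial (Ix N m) ℚ) :=
    { carrier := {F | PP ε l F}
      zero_mem' := PP.zero
      add_mem' := fun h h' => h.add h'
      smul_mem' := fun r _ h => h.smul r }
  have hV : V ≤ homogeneousSubmodule (Ix N m) ℚ l := fun F hF => hF.1
  have h1 : Module.Finite ℚ (homogeneousSubmodule (Ix N m) ℚ l) :=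
    Module.Finite.iff_fg.2 (homogeneousSubmodule_fg _ _ l)
  have h2 : Module.Finite ℚ V := Submodule.finiteDimensional_of_le hV
  let B' : MvPolynomial (Ix N m) ℚ →ₗ[ℚ] MvPolynomial (Ix N m) ℚ →ₗ[ℚ] ℚ :=
    ((LinearMap.mul ℚ (MvPolynomial (Ix N m) ℚ)).compr₂ (wL n c (qr w ρ) ℚ)).compl₂
      (LinearMap.mulLeft ℚ (X none ^ (2 * m')))
  let B : V →ₗ[ℚ] Module.Dual ℚ V := B'.domRestrict₁₂ V V
  have hB : ∀ F G : V, B F G = wL n c (qr w ρ) ℚ (F.1 * (X none ^ (2 * m') * G.1)) :=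
    fun _ _ => rfl
  have hinj : Function.Injective B := by
    rw [← LinearMap.ker_eq_bot, LinearMap.ker_eq_bot']
    rintro ⟨F, hF⟩ h0
    have h3 : F = 0 := by
      refine PP.nd hc hw hρ hε hlm hF fun G hG => ?_
      have := LinearMap.congr_fun h0 ⟨G, hG⟩
      rw [hB, ← mul_assoc] at this
      exact this
    exact Subtype.ext h3
  have hsurj : Function.Surjective B :=
    (LinearMap.injective_iff_surjective_of_finrank_eq_finrank
      (Subspace.dual_finrank_eq (K := ℚ) (V := V)).symm).1 hinj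
  obtain ⟨⟨F, hF⟩, h3⟩ := hsurj ((wL n c (qr w ρ) ℚ ∘ₗ LinearMap.mulLeft ℚ G).domRestrict V)
  refine ⟨F, hF, fun F' hF' => ?_⟩
  have := LinearMap.congr_fun h3 ⟨F', hF'⟩
  rw [hB, ← mul_assoc] at this
  exact this

variable {k : Type u} [Field k] {𝒱 : VarClass k} {ops : CycleOps 𝒱}
  {W : WeilCohomology.{u, v} ops} {X : 𝒱.Obj} {D : X.Cycles} {δ : ℚ}
  {Φ : MvPolynomial (Ix N m) W.K →ₐ[W.K] W.H X}

/-- The data of the variety in terms of polynomials. -/
structure Gen (W : WeilCohomology.{u, v} ops) (X : 𝒱.Obj) (D : X.Cycles) (n : ℕ) (δ : ℚ)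
    (w : Fin N → ℚ) (ρ : ℚ) (Φ : MvPolynomial (Ix N m) W.K →ₐ[W.K] W.H X) : Prop where
  fuj : FujT n δ (qr w ρ) (W.tr X) Φ
  δ_pos : 0 < δ
  w_pos : ∀ j, 0 < w j
  ρ_pos : 0 < ρ
  dim : X.dim = 2 * n
  mem : ∀ a, Φ (MvPolynomial.X a) ∈ W.gr X 2
  nn : Φ (MvPolynomial.X none) = W.cl X D
  div : X.IsCyc 1 D
  pd : ∀ x ∈ Φ.range, (∀ y ∈ Φ.range, W.tr X (x * y) = 0) → x = 0

/-- The classes of the rational polynomials of given parity. -/
def CP (Φ : MvPolynomial (Ix N m) W.K →ₐ[W.K] W.H X) (ε : ℤ) (l : ℕ) : Set (W.H X) :=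
  {x | ∃ F : MvPolynomial (Ix N m) ℚ, PP ε l F ∧ psi Φ F = x}

theorem psi_hom {σ : Type} [Fintype σ] {L : Type*} [Field L] [Algebra L W.K]
    {Φ : MvPolynomial σ W.K →ₐ[W.K] W.H X} (hE : ∀ a, Φ (MvPolynomial.X a) ∈ W.gr X 2) {i : ℕ}
    {F : MvPolynomial σ L} (hF : F.IsHomogeneous i) : Φ (map (algebraMap L W.K) F) ∈
      W.gr X (2 * i) :=
  hom_gr hE (hF.map _)

/-- A class of even degree is a homogeneous polynomial. -/
theorem exists_homP {σ : Type} [Fintype σ] {Φ : MvPolynomial σ W.K →ₐ[W.K] W.H X}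
    (hE : ∀ a, Φ (MvPolynomial.X a) ∈ W.gr X 2) {i : ℕ}
    {x : W.H X} (hs : x ∈ Φ.range) (hxi : x ∈ W.gr X (2 * i)) :
    ∃ P : MvPolynomial σ W.K, P.IsHomogeneous i ∧ Φ P = x := by
  obtain ⟨P, rfl⟩ := hs
  refine ⟨homogeneousComponent i P, homogeneousComponent_isHomogeneous i P, ?_⟩
  have h3 : Φ P ∈ W.gr X (2 * i) := hxi
  have h4 : proj (W.isInternal X) (2 * i) (Φ P) = Φ P := proj_same _ h3
  have h5 : ∀ j, proj (W.isInternal X) (2 * i) (Φ (homogeneousComponent j P)) =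
      if j = i then Φ (homogeneousComponent j P) else 0 := by
    intro j
    have h6 := hom_gr hE (homogeneousComponent_isHomogeneous j P)
    split_ifs with hij
    · subst hij
      exact proj_same _ h6
    · exact proj_ne _ h6 (by omega)
  change Φ (homogeneousComponent i P) = Φ P
  rw [← h4]
  conv_rhs => rw [← sum_homogeneousComponent P]
  rw [map_sum, map_sum]
  simp only [h5]
  rw [Finset.sum_ite_eq']
  split_ifs with h7
  · rfl
  · rw [Finset.mem_range, not_lt] at h7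
    rw [homogeneousComponent_eq_zero _ _ (by omega), map_zero]

theorem mono_smul {σ : Type} [Fintype σ] {K : Type*} [Field K] (P : MvPolynomial σ K) :
    P = ∑ γ ∈ P.support, coeff γ P • monomial γ (1 : K) := by
  conv_lhs => rw [P.as_sum]
  refine Finset.sum_congr rfl fun γ _ => ?_
  rw [smul_monomial, smul_eq_mul, mul_one]

theorem hom_sum {σ : Type} [Fintype σ] {K : Type*} [Field K] {P : MvPolynomial σ K} {i : ℕ}
    (hP : P.IsHomogeneous i) {γ : σ →₀ ℕ} (hγ : γ ∈ P.support) : ∑ a, γ a = i := by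
  have := hP (mem_support_iff.1 hγ)
  rw [Finsupp.weight_apply, Finsupp.sum_fintype _ _ (fun i => by simp)] at this
  simpa using this

theorem psi_mono {σ : Type} [Fintype σ] {Φ : MvPolynomial σ W.K →ₐ[W.K] W.H X} (γ : σ →₀ ℕ) :
    Φ (map (algebraMap ℚ W.K) (monomial γ (1 : ℚ))) = Φ (monomial γ 1) := by
  rw [map_monomial, map_one]

namespace Gen

variable (h : Gen W X D n δ w ρ Φ)

include h

theorem tr_psi {F : MvPolynomial (Ix N m) ℚ} (hF : F.IsHomogeneous (2 * n)) :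
    W.tr X (psi Φ F) = ((wL n δ (qr w ρ) ℚ F : ℚ) : W.K) := FV.tr_psi h.fuj hF

/-- A class with vanishing products with the rational classes vanishes. -/
theorem eq_zero {l l' : ℕ} (hll : l + l' = 2 * n) {x : W.H X} (hx : x ∈ W.gr X (2 * l))
    (hxr : x ∈ Φ.range)
    (h0 : ∀ ε : ℤ, ε = 1 ∨ ε = -1 → ∀ G, PP ε l' G → W.tr X (x * psi Φ G) = 0) : x = 0 := by
  apply h.pd x hxr
  rintro _ ⟨P, rfl⟩
  change W.tr X (x * Φ P) = 0
  rw [mono_smul P, map_sum, Finset.mul_sum, map_sum]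
  refine Finset.sum_eq_zero fun γ hγ => ?_
  rw [map_smul, mul_smul_comm, map_smul]
  by_cases hj : ∑ a, γ a = l'
  · have h1 := h0 (sgn s0 γ) (sgn_sq s0_sq γ) (monomial γ 1) (by
      have := PP.mono (N := N) (m := m) γ
      rwa [hj] at this)
    rw [psi, psi_mono] at h1
    rw [h1, smul_zero]
  · have h1 : Φ (monomial γ 1) ∈ W.gr X (2 * ∑ a, γ a) := by
      have h2 := psi_hom (L := ℚ) h.mem (PP.mono (N := N) (m := m) γ).1
      rwa [psi_mono] at h2
    rw [W.tr_eq_zero (W.mul_mem hx h1) (by rw [h.dim]; omega), smul_zero]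

theorem psi_gr {l : ℕ} {F : MvPolynomial (Ix N m) ℚ} (hF : F.IsHomogeneous l) :
    psi Φ F ∈ W.gr X (2 * l) := psi_hom h.mem hF

theorem psi_L (i : ℕ) (F : MvPolynomial (Ix N m) ℚ) :
    (LinearMap.mulLeft W.K (W.cl X D) ^ i) (psi Φ F) = psi Φ (MvPolynomial.X none ^ i * F) := by
  rw [LinearMap.pow_mulLeft, LinearMap.mulLeft_apply, psi_mul, psi_pow, psi_X, h.nn]

theorem hl {ε : ℤ} (hε : ε = 1 ∨ ε = -1) {l m' : ℕ} (hm' : l + m' = n)
    {G : MvPolynomial (Ix N m) ℚ} (hG : PP ε (l + 2 * m') G) :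
    ∃ F, PP ε l F ∧ (LinearMap.mulLeft W.K (W.cl X D) ^ (2 * m')) (psi Φ F) = psi Φ G := by
  obtain ⟨F, hF, hF'⟩ := exists_rep h.δ_pos h.w_pos h.ρ_pos hε hm' G
  refine ⟨F, hF, ?_⟩
  rw [h.psi_L, ← sub_eq_zero]
  have h1 : (MvPolynomial.X none ^ (2 * m') * F).IsHomogeneous (l + 2 * m') :=
    (hF.X_pow (2 * m')).1
  refine h.eq_zero (l := l + 2 * m') (l' := l) (by omega)
    (Submodule.sub_mem _ (h.psi_gr h1) (h.psi_gr hG.1))
    (Subalgebra.sub_mem _ ⟨_, rfl⟩ ⟨_, rfl⟩) fun ε' hε' F' hF'' => ?_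
  have h2 : (MvPolynomial.X none ^ (2 * m') * F * F').IsHomogeneous (2 * n) := by
    have := h1.mul hF''.1
    rwa [show l + 2 * m' + l = 2 * n by omega] at this
  have h3 : (G * F').IsHomogeneous (2 * n) := by
    have := hG.1.mul hF''.1
    rwa [show l + 2 * m' + l = 2 * n by omega] at this
  rw [sub_mul, map_sub, ← psi_mul, ← psi_mul, h.tr_psi h2, h.tr_psi h3, ← Rat.cast_sub]
  have h4 : wL n δ (qr w ρ) ℚ (MvPolynomial.X none ^ (2 * m') * F * F') =
      wL n δ (qr w ρ) ℚ (G * F') := by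
    by_cases hee : ε' = ε
    · rw [hee] at hF''
      have h5 := hF' F' hF''
      rw [← h5, mul_comm F]
    · have hm1 : ε * ε' = -1 := by
        rcases hε with e1 | e1
        · rcases hε' with e2 | e2
          · exact absurd (e2.trans e1.symm) hee
          · rw [e1, e2]; norm_num
        · rcases hε' with e2 | e2
          · rw [e1, e2]; norm_num
          · exact absurd (e2.trans e1.symm) hee
      have h5 := (hF.X_pow (2 * m')).mul hF''
      have h6 := hG.mul hF''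
      rw [hm1] at h5 h6
      rw [h5.wL_zero, h6.wL_zero]
  rw [h4, sub_self, Rat.cast_zero]

theorem pos {ε : ℤ} (hε : ε = 1 ∨ ε = -1) {l m' : ℕ} (hm' : l + m' = n)
    {F : MvPolynomial (Ix N m) ℚ} (hF : PP ε l F)
    (h0 : (LinearMap.mulLeft W.K (W.cl X D) ^ (2 * m' + 1)) (psi Φ F) = 0)
    (hne : psi Φ F ≠ 0) :
    ∃ s : ℚ, W.tr X (psi Φ F * (LinearMap.mulLeft W.K (W.cl X D) ^ (2 * m')) (psi Φ F)) = s ∧
      0 < (-1) ^ l * (ε * s) := by
  have hF0 : F ≠ 0 := by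
    rintro rfl
    apply hne
    rw [psi, map_zero, map_zero]
  have h2 : (F * (MvPolynomial.X none ^ (2 * m') * F)).IsHomogeneous (2 * n) := by
    have := hF.1.mul (hF.X_pow (2 * m')).1
    rwa [show l + (l + 2 * m') = 2 * n by omega] at this
  refine ⟨wL n δ (qr w ρ) ℚ (F ^ 2 * MvPolynomial.X none ^ (2 * m')), ?_, ?_⟩
  · rw [h.psi_L, ← psi_mul, h.tr_psi h2, show F * (MvPolynomial.X none ^ (2 * m') * F) =
        F ^ 2 * MvPolynomial.X none ^ (2 * m') by ring]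
  · have h3 := PP.hr h.δ_pos h.w_pos h.ρ_pos hε hm' hF hF0 (by
      intro k' G hk hG
      rw [h.psi_L] at h0
      have h4 : W.tr X (psi Φ (MvPolynomial.X none ^ (2 * m' + 1) * F * G)) = 0 := by
        rw [psi_mul, h0, zero_mul, map_zero]
      rw [h.tr_psi] at h4
      · have h5 : F * MvPolynomial.X none ^ (2 * m' + 1) * G =
            MvPolynomial.X none ^ (2 * m' + 1) * F * G := by ring
        rw [h5]
        exact_mod_cast h4
      · have := (hF.X_pow (2 * m' + 1)).1.mul hG.1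
        rwa [show l + (2 * m' + 1) + k' = 2 * n by omega] at this)
    have h6 : (-1 : ℚ) ^ l * (ε * wL n δ (qr w ρ) ℚ (F ^ 2 * MvPolynomial.X none ^ (2 * m'))) =
        ε * (-1) ^ l * wL n δ (qr w ρ) ℚ (F ^ 2 * MvPolynomial.X none ^ (2 * m')) := by ring
    rw [h6]
    exact h3

theorem rat {l l' : ℕ} {F G : MvPolynomial (Ix N m) ℚ} (hF : F.IsHomogeneous l)
    (hG : G.IsHomogeneous l') : ∃ s : ℚ, W.tr X (psi Φ F * psi Φ G) = s := by
  rw [← psi_mul]
  by_cases hll : l + l' = 2 * n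
  · rw [h.tr_psi (hll ▸ hF.mul hG)]
    exact ⟨_, rfl⟩
  · refine ⟨0, ?_⟩
    rw [W.tr_eq_zero (h.psi_gr (hF.mul hG)) (by rw [h.dim]; omega), Rat.cast_zero]

/-- The rational classes of given parity form a Lefschetz structure. -/
theorem apart {ε : ℤ} (hε : ε = 1 ∨ ε = -1) :
    AlgPart (W.gr X) X.dim (LinearMap.mulLeft W.K (W.cl X D)) ((ε : W.K) • bil W X)
      (CP Φ ε) where
  sub := by
    rintro l _ ⟨F, hF, rfl⟩
    exact h.psi_gr hF.1
  zero l := ⟨0, PP.zero, by rw [psi, map_zero, map_zero]⟩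
  add := by
    rintro l _ ⟨F, hF, rfl⟩ _ ⟨G, hG, rfl⟩
    exact ⟨F + G, hF.add hG, by rw [psi, psi, psi, map_add, map_add]⟩
  smul := by
    rintro l r _ ⟨F, hF, rfl⟩
    refine ⟨r • F, hF.smul r, ?_⟩
    rw [psi, psi, smul_eq_C_mul, map_mul, map_C, ← smul_eq_C_mul, map_smul]
    rfl
  map_L := by
    rintro l _ ⟨F, hF, rfl⟩
    refine ⟨_, hF.X_mul, ?_⟩
    rw [psi_mul, psi_X, h.nn]
    rfl
  rat := by
    rintro l l' _ ⟨F, hF, rfl⟩ _ ⟨G, hG, rfl⟩
    obtain ⟨s, hs⟩ := h.rat hF.1 hG.1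
    refine ⟨ε * s, ?_⟩
    rw [LinearMap.smul_apply, LinearMap.smul_apply, bil_apply, hs]
    push_cast
    rfl
  hl := by
    rintro l hl _ ⟨G, hG, rfl⟩
    rw [h.dim] at hl hG ⊢
    obtain ⟨m', hm'⟩ : ∃ m', l + m' = n := ⟨n - l, by omega⟩
    rw [show 2 * n - l = l + 2 * m' by omega] at hG
    rw [show 2 * n - 2 * l = 2 * m' by omega]
    obtain ⟨F, hF, hF'⟩ := h.hl hε hm' hG
    exact ⟨psi Φ F, ⟨F, hF, rfl⟩, hF'⟩
  pos := by
    rintro l hl _ ⟨F, hF, rfl⟩ h0 hne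
    rw [h.dim] at hl h0 ⊢
    obtain ⟨m', hm'⟩ : ∃ m', l + m' = n := ⟨n - l, by omega⟩
    rw [show 2 * n - 2 * l = 2 * m' by omega] at h0 ⊢
    obtain ⟨s, hs, hs'⟩ := h.pos hε hm' hF h0 hne
    refine ⟨ε * s, ?_, hs'⟩
    rw [LinearMap.smul_apply, LinearMap.smul_apply, bil_apply, hs]
    push_cast
    rfl
  self a b := by
    rw [LinearMap.smul_apply, LinearMap.smul_apply, LinearMap.smul_apply, LinearMap.smul_apply,
      bil_apply, bil_apply, LinearMap.mulLeft_apply, LinearMap.mulLeft_apply,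
      W.even_comm (p := 1) (W.cl_mem h.div) a, mul_assoc]
  deg i j a ha b hb hij := by
    rw [LinearMap.smul_apply, LinearMap.smul_apply, bil_apply,
      W.tr_eq_zero (W.mul_mem ha hb) hij, smul_zero]
  symm l a ha b := by
    rw [LinearMap.smul_apply, LinearMap.smul_apply, LinearMap.smul_apply, LinearMap.smul_apply,
      bil_apply, bil_apply, W.even_comm ha]

end Gen

end Pool.Agent.K4H28.PF
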