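import Pool.Agent.K4H28.PF.Bas1

/-!
# The orthogonal basis
-/

set_option autoImplicit false
set_option linter.unusedSectionVars false

open CategoryTheory AlgebraicGeometry

universe u v

namespace Pool.Agent.K4H28.PF

open Pool.Agent.H914 VarClass Obj WeilCohomology MvPolynomial ComplexConjugate
  Pool.Agent.K4H28.FV Pool.Agent.W552 Pool.Agent.H281R3.HT Pool.Agent.H447

variable {N m : ℕ} {n : ℕ} {w : Fin N → ℚ} {k : Type u} [Field k] {𝒱 : VarClass k}
  {ops : CycleOps 𝒱} {W : WeilCohomology.{u, v} ops} {X : 𝒱.Obj} {D : X.Cycles} {δ ρ : ℚ}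
  {Φ : MvPolynomial (Ix N m) W.K →ₐ[W.K] W.H X} {f : Module.End W.K (W.H X)}

/-- Positivity and stability for a Lefschetz structure. -/
theorem weyl_cp (F : Fr W X D f) {ε : ℤ} {C : ℕ → Set (W.H X)}
    (hC : AlgPart (W.gr X) X.dim (LinearMap.mulLeft W.K (W.cl X D)) ((ε : W.K) • bil W X) C) :
    (∀ l, ∀ c ∈ C l, c ≠ 0 → ∃ s : ℚ, 0 < s ∧ (ε : W.K) * bf W X D f c c = s) ∧
      ∀ l ≤ X.dim, ∀ c ∈ C l, ∃ c' ∈ C (X.dim - l), st W X D f c = (sg (2 * l) : W.K) • c' := by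
  have t := F.sl2
  set L : Module.End W.K (W.H X) := LinearMap.mulLeft W.K (W.cl X D) with hL
  have hw1 : wey L f * L = -(f * wey L f) := wey_e t
  have hw3 : ∀ (m : ℕ) (v : W.H X), f v = 0 → wt (W.isInternal X) X.dim v = -(m : W.K) • v →
      wey L f v = ((m.factorial : W.K)⁻¹) • (L ^ m) v := fun m v hv hm => wey_lowest t hv hm
  have hHw : ∀ i, ∀ a ∈ W.gr X i, wt (W.isInternal X) X.dim a = ((i : W.K) - X.dim) • a :=
    fun i a ha => Fr.wt_gr ha
  have hlow : ∀ i ≤ X.dim, ∀ a ∈ W.gr X i, (L ^ (X.dim - i + 1)) a = 0 → f a = 0 := by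
    intro i hi a ha h0
    refine t.f_eq_zero (M := X.dim - i) ?_ h0
    rw [hHw i a ha, Nat.cast_sub hi]
    congr 1
    ring
  constructor
  · intro l c hc hc0
    obtain ⟨s, hs, hs'⟩ := hC.weyl_pos t hw1 hw3 hlow hHw (mulLeft_isHom F.hD) W_hbd hc hc0
    refine ⟨(-1) ^ l * s, hs', ?_⟩
    have h1 := hC.sub l c hc
    rw [LinearMap.smul_apply, LinearMap.smul_apply, bil_apply, smul_eq_mul] at hs
    rw [bf_apply, st_apply h1, mul_smul_comm, map_smul, sg_two_mul, smul_eq_mul]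
    have h2 : W.tr X (c * wop W X D f c) = W.tr X (c * wey L f c) := rfl
    rw [h2]
    push_cast
    linear_combination (-1 : W.K) ^ l * hs
  · intro l hl c hc
    exact ⟨_, hC.weyl_mem t hw1 hw3 hlow hHw (mulLeft_isHom F.hD) W_hbd hl hc,
      st_apply (hC.sub l c hc)⟩

/-- The signs. -/
def sg' (x : Bool × Fin (2 * n + 1)) : ℤ := if x.1 then 1 else -1

theorem sg'_sq (x : Bool × Fin (2 * n + 1)) : sg' x = 1 ∨ sg' x = -1 := by
  rw [sg']
  split_ifs
  · exact Or.inl rfl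
  · exact Or.inr rfl

theorem Gen.cross (h : Gen W X D n δ w ρ Φ) (F : Fr W X D f) {ε ε' : ℤ} (hε : ε = 1 ∨ ε = -1)
    (hε' : ε' = 1 ∨ ε' = -1) (hne : ε ≠ ε') {l : ℕ} {x y : W.H X} (hx : x ∈ CP Φ ε l)
    (hy : y ∈ CP Φ ε' l) : bf W X D f x y = 0 := by
  by_cases hl : l ≤ X.dim
  · obtain ⟨y', ⟨G, hG, rfl⟩, hy'⟩ := (weyl_cp F (h.apart hε')).2 l hl y hy
    obtain ⟨P, hP, rfl⟩ := hx
    rw [h.dim] at hG hl
    have h1 := hP.mul hG
    have h2 : ε * ε' = -1 := by
      rcases hε with e1 | e1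
      · rcases hε' with e2 | e2
        · exact absurd (e1.trans e2.symm) hne
        · rw [e1, e2]; norm_num
      · rcases hε' with e2 | e2
        · rw [e1, e2]; norm_num
        · exact absurd (e1.trans e2.symm) hne
    rw [h2, show l + (2 * n - l) = 2 * n by omega] at h1
    rw [bf_apply, hy', mul_smul_comm, map_smul, ← psi_mul, h.tr_psi h1.1, h1.wL_zero,
      Rat.cast_zero, smul_zero]
  · obtain ⟨P, hP, rfl⟩ := hx
    have h1 := h.psi_gr hP.1
    rw [W.gr_eq_bot X _ (by omega)] at h1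
    rw [(Submodule.mem_bot _).1 h1, map_zero, LinearMap.zero_apply]

/-- **The orthogonal family.** -/
theorem Gen.exists_bas (h : Gen W X D n δ w ρ Φ) (F : Fr W X D f)
    (t : LefStr (W.isInternal X) X.dim (LinearMap.mulLeft W.K (W.cl X D)) f) :
    ∃ (K : ℕ) (E : Fin K → W.H X) (ε : Fin K → ℤ) (v : Fin K → ℚ),
      (∀ p, 0 < v p) ∧
      (∀ p q, bf W X D f (E p) (E q) = if p = q then ((ε p * v p : ℚ) : W.K) else 0) ∧
      ∀ γ : Ix N m →₀ ℕ, ∃ r : Fin K → ℚ,
        Φ (monomial γ 1) = ∑ p, (r p : W.K) • E p ∧ ∀ p, r p ≠ 0 → ε p = sgn s0 γ := by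
  classical
  have hpos : ∀ (ε : ℤ), ε = 1 ∨ ε = -1 → ∀ l, ∀ x ∈ CP Φ ε l, ∃ s : ℚ,
      0 ≤ s ∧ (x ≠ 0 → 0 < s) ∧ (ε : W.K) * bf W X D f x x = s := by
    intro ε hε l x hx
    by_cases hx0 : x = 0
    · exact ⟨0, le_rfl, fun h0 => absurd hx0 h0, by rw [hx0]; simp⟩
    · obtain ⟨s, hs, hs'⟩ := (weyl_cp F (h.apart hε)).1 l x hx hx0
      exact ⟨s, hs.le, fun _ => hs, hs'⟩
  have hsymm : ∀ (ε : ℤ), ε = 1 ∨ ε = -1 → ∀ l, ∀ x ∈ CP Φ ε l, ∀ y ∈ CP Φ ε l,
      bf W X D f x y = bf W X D f y x := by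
    intro ε hε l x hx y hy
    have h1 := bf_symm' F t ((h.apart hε).sub l y hy) ((h.apart hε).sub l x hx)
    rw [h1, pow_mul, neg_one_sq, one_pow, one_mul]
  have hrat : ∀ (ε : ℤ), ε = 1 ∨ ε = -1 → ∀ l, ∀ x ∈ CP Φ ε l, ∀ y ∈ CP Φ ε l,
      ∃ s : ℚ, (ε : W.K) * bf W X D f x y = s := by
    intro ε hε l x hx y hy
    obtain ⟨a, -, -, ha⟩ := hpos ε hε l x hx
    obtain ⟨b, -, -, hb⟩ := hpos ε hε l y hy
    obtain ⟨c, -, -, hc⟩ := hpos ε hε l _ ((h.apart hε).add l x hx y hy)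
    refine ⟨(c - a - b) / 2, ?_⟩
    simp only [map_add, LinearMap.add_apply] at hc
    rw [hsymm ε hε l y hy x hx] at hc
    push_cast
    rw [← ha, ← hb, ← hc]
    ring
  have hsub : ∀ (ε : ℤ), ε = 1 ∨ ε = -1 → ∀ l, RatSub W.K (fun x => x ∈ CP Φ ε l) :=
    fun ε hε l => ⟨(h.apart hε).zero l, fun hx hy => (h.apart hε).add l _ hx _ hy,
      fun r _ hx => (h.apart hε).smul l r _ hx⟩
  have key : ∀ x : Bool × Fin (2 * n + 1), ∃ (M : ℕ) (e : Fin M → W.H X) (v : Fin M → ℚ),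
      (∀ i, e i ∈ CP Φ (sg' x) x.2) ∧ (∀ i, 0 < v i) ∧
      (∀ i j, bf W X D f (e i) (e j) = if i = j then ((sg' x * v i : ℚ) : W.K) else 0) ∧
      ∀ y ∈ CP Φ (sg' x) x.2, ∃ r : Fin M → ℚ, y = ∑ i, (r i : W.K) • e i := by
    intro x
    have hx := sg'_sq x
    have hx2 : ((sg' x : ℤ) : W.K) * ((sg' x : ℤ) : W.K) = 1 := by
      rcases hx with hx | hx <;> rw [hx] <;> norm_num
    obtain ⟨M, e, v, h1, h2, h3, h4⟩ := exists_ratBasis (hsub (sg' x) hx x.2)
      (((sg' x : ℤ) : W.K) • bf W X D f)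
      (fun a b ha hb => by
        rw [LinearMap.smul_apply, LinearMap.smul_apply, smul_eq_mul]
        exact hrat _ hx _ a ha b hb)
      (fun a b ha hb => by
        rw [LinearMap.smul_apply, LinearMap.smul_apply, LinearMap.smul_apply,
          LinearMap.smul_apply, hsymm _ hx _ a ha b hb])
      (fun a ha ha0 => by
        obtain ⟨s, -, hs, hs'⟩ := hpos _ hx _ a ha
        exact ⟨s, hs ha0, by rw [LinearMap.smul_apply, LinearMap.smul_apply, smul_eq_mul, hs']⟩)
    refine ⟨M, e, v, h1, h2, fun i j => ?_, fun y hy => ?_⟩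
    · have h5 := h3 i j
      rw [LinearMap.smul_apply, LinearMap.smul_apply, smul_eq_mul] at h5
      have h6 : bf W X D f (e i) (e j) =
          ((sg' x : ℤ) : W.K) * (if i = j then (v i : W.K) else 0) := by
        rw [← h5, ← mul_assoc, hx2, one_mul]
      rw [h6]
      split_ifs
      · push_cast; rfl
      · rw [mul_zero]
    · refine h4 y (Submodule.subset_span hy) fun i => ?_
      rw [LinearMap.smul_apply, LinearMap.smul_apply, smul_eq_mul]
      exact hrat _ hx _ y hy _ (h1 i)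
  choose M e v h1 h2 h3 h4 using key
  set E : (Σ x : Bool × Fin (2 * n + 1), Fin (M x)) → W.H X := fun i => e i.1 i.2 with hE
  have hgram : ∀ i j, bf W X D f (E i) (E j) =
      if i = j then ((sg' i.1 * v i.1 i.2 : ℚ) : W.K) else 0 := by
    rintro ⟨x, i⟩ ⟨y, j⟩
    by_cases hxy : x = y
    · subst hxy
      change bf W X D f (e x i) (e x j) = _
      rw [h3]
      by_cases hij : i = j
      · rw [if_pos hij, if_pos (by rw [hij])]
      · rw [if_neg hij, if_neg]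
        intro h0
        exact hij (by simpa using h0)
    · rw [if_neg (fun h0 => hxy (congrArg Sigma.fst h0))]
      change bf W X D f (e x i) (e y j) = 0
      by_cases hl : (x.2 : ℕ) = y.2
      · have h5 : sg' x ≠ sg' y := by
          intro h0
          apply hxy
          obtain ⟨a, l⟩ := x
          obtain ⟨b, l'⟩ := y
          have e1 : l = l' := Fin.ext hl
          subst e1
          rw [sg', sg'] at h0
          cases a <;> cases b <;> first | rfl | (simp at h0)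
        have h6 := h1 y j
        rw [← hl] at h6
        exact h.cross F (sg'_sq x) (sg'_sq y) h5 (h1 x i) h6
      · exact F.bf_deg ((h.apart (sg'_sq x)).sub _ _ (h1 x i))
          ((h.apart (sg'_sq y)).sub _ _ (h1 y j)) (by omega)
  have hmon : ∀ γ : Ix N m →₀ ℕ, ∃ r : (Σ x : Bool × Fin (2 * n + 1), Fin (M x)) → ℚ,
      Φ (monomial γ 1) = ∑ i, (r i : W.K) • E i ∧ ∀ i, r i ≠ 0 → sg' i.1 = sgn s0 γ := by
    intro γ
    by_cases hγ : ∑ a, γ a ≤ 2 * n
    · have hs := sgn_sq (s := s0) s0_sq γ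
      obtain ⟨x, hx1, hx2⟩ : ∃ x : Bool × Fin (2 * n + 1), sg' x = sgn s0 γ ∧
          (x.2 : ℕ) = ∑ a, γ a := by
        refine ⟨(decide (sgn s0 γ = 1), ⟨∑ a, γ a, by omega⟩), ?_, rfl⟩
        rw [sg']
        rcases hs with hs | hs <;> rw [hs] <;> simp
      obtain ⟨r, hr⟩ := h4 x (Φ (monomial γ 1)) ⟨monomial γ 1, by
        rw [hx1, hx2]; exact PP.mono γ, psi_mono γ⟩
      refine ⟨fun i => if h0 : i.1 = x then r (h0 ▸ i.2) else 0, ?_, ?_⟩
      · rw [hr, Fintype.sum_sigma, Finset.sum_eq_single x]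
        · refine Finset.sum_congr rfl fun i _ => ?_
          beta_reduce
          rw [dif_pos rfl]
        · intro y _ hy
          refine Finset.sum_eq_zero fun i _ => ?_
          beta_reduce
          rw [dif_neg hy, Rat.cast_zero, zero_smul]
        · intro h0
          exact absurd (Finset.mem_univ _) h0
      · intro i hi
        by_cases h0 : i.1 = x
        · rw [h0, hx1]
        · beta_reduce at hi
          rw [dif_neg h0] at hi
          exact absurd rfl hi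
    · refine ⟨0, ?_, fun i hi => absurd rfl hi⟩
      have h5 := h.psi_gr (Φ := Φ) (PP.mono (N := N) (m := m) γ).1
      rw [W.gr_eq_bot X _ (by rw [h.dim]; omega), psi, psi_mono] at h5
      rw [(Submodule.mem_bot _).1 h5]
      simp
  let φ := Fintype.equivFin (Σ x : Bool × Fin (2 * n + 1), Fin (M x))
  refine ⟨Fintype.card (Σ x : Bool × Fin (2 * n + 1), Fin (M x)), fun p => E (φ.symm p),
    fun p => sg' (φ.symm p).1, fun p => v (φ.symm p).1 (φ.symm p).2,
    fun p => h2 _ _, fun p q => ?_, fun γ => ?_⟩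
  · rw [hgram]
    simp only [EmbeddingLike.apply_eq_iff_eq]
  · obtain ⟨r, hr, hr'⟩ := hmon γ
    refine ⟨fun p => r (φ.symm p), ?_, fun p hp => hr' _ hp⟩
    rw [hr, φ.symm.sum_comp (fun i => (r i : W.K) • E i)]

end Pool.Agent.K4H28.PF
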