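import Pool.Agent.K4H28.FV.Pos

/-!
# Changes of signs of the variables and real polynomials
-/

set_option autoImplicit false
set_option linter.unusedSectionVars false

namespace Pool.Agent.K4H28.PF

open MvPolynomial ComplexConjugate

variable {σ : Type} [Fintype σ] {L : Type*} [Field L]

/-- The change of the signs of the variables. -/
noncomputable def fl (s : σ → ℤ) : MvPolynomial σ L →ₐ[L] MvPolynomial σ L :=
  aeval fun i => C (s i : L) * X i

/-- The sign of a monomial. -/
def sgn (s : σ → ℤ) (γ : σ →₀ ℕ) : ℤ := ∏ i, s i ^ γ i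

theorem fl_X (s : σ → ℤ) (i : σ) : fl s (X i : MvPolynomial σ L) = C (s i : L) * X i := by
  rw [fl, aeval_X]

theorem fl_mono (s : σ → ℤ) (γ : σ →₀ ℕ) (a : L) :
    fl s (monomial γ a) = (sgn s γ : L) • monomial γ a := by
  rw [fl, aeval_monomial, Finsupp.prod_fintype _ _ (fun i => pow_zero _), smul_monomial,
    monomial_eq (s := γ), Finsupp.prod_fintype _ _ (fun i => pow_zero _), sgn]
  simp only [mul_pow, Finset.prod_mul_distrib]
  rw [algebraMap_eq, smul_eq_mul, map_mul]
  push_cast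
  rw [map_prod]
  simp only [map_pow]
  ring

theorem coeff_fl (s : σ → ℤ) (F : MvPolynomial σ L) (γ : σ →₀ ℕ) :
    coeff γ (fl s F) = (sgn s γ : L) * coeff γ F := by
  classical
  conv_lhs => rw [F.as_sum]
  rw [map_sum, coeff_sum]
  simp only [fl_mono, coeff_smul, coeff_monomial, smul_eq_mul]
  rw [Finset.sum_eq_single γ]
  · rw [if_pos rfl]
  · intro b _ hb
    rw [if_neg hb, mul_zero]
  · intro h
    rw [if_pos rfl, notMem_support_iff.1 h, mul_zero]

theorem sgn_sq {s : σ → ℤ} (hs : ∀ i, s i = 1 ∨ s i = -1) (γ : σ →₀ ℕ) :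
    sgn s γ = 1 ∨ sgn s γ = -1 := by
  classical
  rw [sgn]
  refine Finset.prod_induction _ (fun x : ℤ => x = 1 ∨ x = -1) ?_ (Or.inl rfl) ?_
  · rintro a b (rfl | rfl) (rfl | rfl) <;> simp
  · intro i _
    rcases hs i with h | h
    · rw [h, one_pow]; exact Or.inl rfl
    · rw [h]; exact neg_one_pow_eq_or ℤ _

theorem sgn_add (s : σ → ℤ) (γ γ' : σ →₀ ℕ) : sgn s (γ + γ') = sgn s γ * sgn s γ' := by
  rw [sgn, sgn, sgn, ← Finset.prod_mul_distrib]
  refine Finset.prod_congr rfl fun i _ => ?_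
  rw [Finsupp.add_apply, pow_add]

/-- Real polynomials: the complex conjugation of the coefficients is the change of signs. -/
def Rl (ι : L →+* ℂ) (s : σ → ℤ) (F : MvPolynomial σ L) : Prop :=
  map ((starRingEnd ℂ).comp ι) F = fl s (map ι F)

variable {ι : L →+* ℂ} {s : σ → ℤ}

theorem Rl.add {F G : MvPolynomial σ L} (h : Rl ι s F) (h' : Rl ι s G) : Rl ι s (F + G) := by
  rw [Rl, map_add, map_add, map_add, h, h']

theorem Rl.mul {F G : MvPolynomial σ L} (h : Rl ι s F) (h' : Rl ι s G) : Rl ι s (F * G) := by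
  rw [Rl, map_mul, map_mul, map_mul, h, h']

theorem Rl.zero : Rl ι s (0 : MvPolynomial σ L) := by
  rw [Rl, map_zero, map_zero, map_zero]

theorem Rl.one : Rl ι s (1 : MvPolynomial σ L) := by
  rw [Rl, map_one, map_one, map_one]

theorem Rl.C {c : L} (h : conj (ι c) = ι c) : Rl ι s (C c : MvPolynomial σ L) := by
  rw [Rl, map_C, map_C, RingHom.comp_apply, h]
  exact (AlgHom.commutes _ _).symm

theorem Rl.X {i : σ} (h : s i = 1) : Rl ι s (X i : MvPolynomial σ L) := by
  rw [Rl, map_X, map_X, fl_X, h, Int.cast_one, C_1, one_mul]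

/-- A monomial of degree two. -/
theorem Rl.quad {c : L} {i j : σ} (h : conj (ι c) = (s i * s j : ℤ) * ι c) :
    Rl ι s (MvPolynomial.C c * (MvPolynomial.X i * MvPolynomial.X j) : MvPolynomial σ L) := by
  rw [Rl]
  simp only [map_mul, map_C, map_X, fl_X, RingHom.comp_apply, h]
  have h1 : fl s (MvPolynomial.C (ι c) : MvPolynomial σ ℂ) = MvPolynomial.C (ι c) :=
    AlgHom.commutes _ _
  rw [h1]
  push_cast
  simp only [map_mul]
  ring

theorem Rl.rat [CharZero L] {F : MvPolynomial σ L} (h : Rl ι s F) (r : ℚ) :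
    Rl ι s ((r : L) • F) := by
  rw [smul_eq_C_mul]
  exact (Rl.C (by rw [map_ratCast, map_ratCast])).mul h

/-- The coefficients of a real polynomial. -/
theorem Rl.coeff {F : MvPolynomial σ L} (h : Rl ι s F) (γ : σ →₀ ℕ) :
    conj (ι (coeff γ F)) = (sgn s γ : ℂ) * ι (coeff γ F) := by
  have h1 := congrArg (MvPolynomial.coeff γ) h
  rw [coeff_map, coeff_fl, coeff_map, RingHom.comp_apply] at h1
  exact h1

end Pool.Agent.K4H28.PF
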