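import Pool.Agent.W552.Nest
import Pool.Agent.K4H28.PF.Fl
import Pool.Agent.K4H28.FV.Geo3

/-!
# Positivity on products in coordinates
-/

set_option autoImplicit false
set_option linter.unusedSectionVars false

open CategoryTheory AlgebraicGeometry

universe u v w

namespace Pool.Agent.K4H28.PF

open Pool.Agent.H914 Pool.Agent.H914.VarClass Pool.Agent.H914.VarClass.Obj
  Pool.Agent.H914.WeilCohomology Pool.Agent.H281R3.HT Pool.Agent.H447 Pool.Agent.W552
  ComplexConjugate

section Lp

variable {Λ : Type} {N : Λ → ℕ}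

/-- Products over a multi-index. -/
def lp {R : Type*} [Mul R] [One R] (c : ∀ a, Fin (N a) → R) : ∀ l, Idx N l → R
  | [], _ => 1
  | a :: l, x => c a x.1 * lp c l x.2

theorem lp_cons {R : Type*} [Mul R] [One R] (c : ∀ a, Fin (N a) → R) (a : Λ) (l : List Λ)
    (p : Fin (N a)) (r : Idx N l) : lp c (a :: l) (p, r) = c a p * lp c l r := rfl

theorem kron_diag {R : Type*} [CommRing R] {C : ∀ a, Matrix (Fin (N a)) (Fin (N a)) R}
    {c : ∀ a, Fin (N a) → R} (hC : ∀ a p q, C a p q = if p = q then c a p else 0) (l : List Λ)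
    (r u : Idx N l) : Kron C l r u = if r = u then lp c l r else 0 := by
  induction l with
  | nil =>
    have h1 : r = u := by
      cases r
      cases u
      rfl
    rw [if_pos h1]
    rfl
  | cons a l ih =>
    obtain ⟨p, r⟩ := r
    obtain ⟨q, u⟩ := u
    have key : C a p q * Kron C l r u =
        (if p = q then c a p else 0) * (if r = u then lp c l r else 0) := by rw [hC, ih]
    refine (show Kron C (a :: l) (p, r) (q, u) = C a p q * Kron C l r u from rfl).trans
      (key.trans ?_)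
    by_cases hpq : p = q
    · subst hpq
      by_cases hru : r = u
      · subst hru
        rw [if_pos rfl, if_pos rfl]
        exact (if_pos rfl).symm
      · rw [if_neg hru, mul_zero]
        exact (if_neg (fun h0 => hru (Prod.ext_iff.1 h0).2)).symm
    · rw [if_neg hpq, zero_mul]
      exact (if_neg (fun h0 => hpq (Prod.ext_iff.1 h0).1)).symm

theorem lp_cast {R S : Type*} [CommRing R] [CommRing S] (φ : R →+* S) (c : ∀ a, Fin (N a) → R)
    (l : List Λ) (r : Idx N l) : φ (lp c l r) = lp (fun a p => φ (c a p)) l r := by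
  induction l with
  | nil => exact map_one φ
  | cons a l ih =>
    obtain ⟨p, r⟩ := r
    rw [lp_cons, lp_cons, map_mul, ih]

theorem lp_mul {R : Type*} [CommRing R] (c d : ∀ a, Fin (N a) → R)
    (l : List Λ) (r : Idx N l) : lp (fun a p => c a p * d a p) l r = lp c l r * lp d l r := by
  induction l with
  | nil => exact (mul_one (1 : R)).symm
  | cons a l ih =>
    obtain ⟨p, r⟩ := r
    rw [lp_cons, lp_cons, lp_cons, ih]
    ring

theorem lp_pos {c : ∀ a, Fin (N a) → ℚ} (hc : ∀ a p, 0 < c a p) (l : List Λ) (r : Idx N l) :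
    0 < lp c l r := by
  induction l with
  | nil => exact one_pos
  | cons a l ih =>
    obtain ⟨p, r⟩ := r
    rw [lp_cons]
    exact mul_pos (hc a p) (ih r)

theorem lp_sgn {t : ∀ a, Fin (N a) → ℚ} {ε : ∀ a, Fin (N a) → ℤ} {S : Λ → ℤ}
    (h : ∀ a p, t a p ≠ 0 → ε a p = S a) (l : List Λ) (r : Idx N l) (hr : lp t l r ≠ 0) :
    lp ε l r = (l.map S).prod := by
  induction l with
  | nil => rfl
  | cons a l ih =>
    obtain ⟨p, r⟩ := r
    rw [lp_cons] at hr ⊢
    rw [List.map_cons, List.prod_cons, h a p (left_ne_zero_of_mul hr),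
      ih r (right_ne_zero_of_mul hr)]

theorem lp_expand {K : Type v} [Field K] [CharZero K] {H : Type w} [Ring H] [Algebra K H]
    {e : ∀ a, Fin (N a) → H} {t : ∀ a, Fin (N a) → ℚ} {y : Λ → H}
    (hy : ∀ a, y a = ∑ p, (t a p : K) • e a p) (l : List Λ) :
    (l.map y).prod = ∑ r, ((lp t l r : ℚ) : K) • mon e l r := by
  induction l with
  | nil =>
    change (1 : H) = ∑ _ : Unit, (((1 : ℚ)) : K) • (1 : H)
    simp
  | cons a l ih =>
    rw [List.map_cons, List.prod_cons, ih, hy]
    change _ = ∑ x : Fin (N a) × Idx N l, (((t a x.1 * lp t l x.2 : ℚ)) : K) •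
      (e a x.1 * mon e l x.2)
    rw [Fintype.sum_prod_type, Finset.sum_mul_sum]
    refine Finset.sum_congr rfl fun p _ => Finset.sum_congr rfl fun r _ => ?_
    rw [smul_mul_smul_comm]
    push_cast
    rfl

end Lp

section Mono

variable {A : Type} [Fintype A] [DecidableEq A] {σ : A → Type} [∀ a, Fintype (σ a)]

/-- The exponents of a factor. -/
noncomputable def rs (γ : (Σ a, σ a) →₀ ℕ) (a : A) : σ a →₀ ℕ :=
  Finsupp.equivFunOnFinite.symm fun i => γ ⟨a, i⟩

theorem rs_apply (γ : (Σ a, σ a) →₀ ℕ) (a : A) (i : σ a) : rs γ a i = γ ⟨a, i⟩ := rfl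

theorem mono_list {K : Type*} [Field K] (γ : (Σ a, σ a) →₀ ℕ) {l : List A} (hl : l.Nodup)
    (hla : ∀ a, a ∈ l) : (MvPolynomial.monomial γ (1 : K)) =
      (l.map fun a => MvPolynomial.rename (Sigma.mk a)
        (MvPolynomial.monomial (rs γ a) (1 : K))).prod := by
  have h1 : l.toFinset = Finset.univ := by
    ext a
    simp [hla a]
  rw [← List.prod_toFinset _ hl, h1, FV.mono_one, Fintype.prod_sigma]
  refine Finset.prod_congr rfl fun a _ => ?_
  rw [FV.mono_one, map_prod]
  refine Finset.prod_congr rfl fun i _ => ?_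
  rw [map_pow, MvPolynomial.rename_X, rs_apply]

theorem sgn_list (s : ∀ a, σ a → ℤ) (γ : (Σ a, σ a) →₀ ℕ) {l : List A} (hl : l.Nodup)
    (hla : ∀ a, a ∈ l) : sgn (fun x : Σ a, σ a => s x.1 x.2) γ =
      (l.map fun a => sgn (s a) (rs γ a)).prod := by
  have h1 : l.toFinset = Finset.univ := by
    ext a
    simp [hla a]
  rw [← List.prod_toFinset _ hl, h1, sgn, Fintype.prod_sigma]
  rfl

end Mono

variable {k : Type u} [Field k] {𝒱 : VarClass k} {ops : CycleOps 𝒱}
  {W : WeilCohomology.{u, v} ops}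

/-- **The form on a product in coordinates.** -/
theorem exists_nest' (n : ℕ) (P : Fin (n + 1) → Polarized 𝒱)
    (f : ∀ a, Module.End W.K (W.H (P a).X)) (hF : ∀ a, Fr W (P a).X (P a).D (f a))
    (hS : ∀ a, Sy W (P a).X (P a).D (f a)) {N : Fin (n + 1) → ℕ}
    (E : ∀ a, Fin (N a) → W.H (P a).X) :
    ∃ (g : Module.End W.K (W.H (nest ops n P).X)) (l : List (Fin (n + 1))),
      Fr W (nest ops n P).X (nest ops n P).D g ∧ Sy W (nest ops n P).X (nest ops n P).D g ∧
      l.Nodup ∧ (∀ a, a ∈ l) ∧ ∀ (r u : Idx N l),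
        bf W (nest ops n P).X (nest ops n P).D g
          (mon (fun a p => W.map (prj ops n P a) (E a p)) l r)
          (mon (fun a p => W.map (prj ops n P a) (E a p)) l u) =
        Kron (fun a => (Matrix.of fun p q => bf W (P a).X (P a).D (f a)
          (E a p) (E a q) : Matrix (Fin (N a)) (Fin (N a)) W.K)) l r u := by
  induction n with
  | zero =>
    refine ⟨f 0, [0], hF 0, hS 0, List.nodup_singleton 0, fun a => ?_, ?_⟩
    · obtain rfl : a = 0 := Fin.eq_zero a
      exact List.mem_singleton_self 0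
    · rintro ⟨p, r⟩ ⟨q, u⟩
      change bf W (P 0).X (P 0).D (f 0) (W.map (𝟙 (P 0).X) (E 0 p) * 1)
        (W.map (𝟙 (P 0).X) (E 0 q) * 1) = bf W (P 0).X (P 0).D (f 0) (E 0 p)
          (E 0 q) * 1
      rw [W.map_id, W.map_id, mul_one, mul_one, mul_one]
  | succ n ih =>
    obtain ⟨g, l, hG, hGS, hl, hla, hB⟩ := ih (fun i => P i.succ) (fun i => f i.succ)
      (fun i => hF i.succ) (fun i => hS i.succ) (fun i => E i.succ)
    refine ⟨extSum W (f 0) g, 0 :: l.map Fin.succ, (hF 0).prod hG, (hS 0).prod (hF 0) hG hGS,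
      ?_, ?_, ?_⟩
    · rw [List.nodup_cons]
      refine ⟨?_, hl.map (Fin.succ_injective _)⟩
      intro h0
      obtain ⟨i, _, hi⟩ := List.mem_map.1 h0
      exact Fin.succ_ne_zero i hi
    · intro a
      refine Fin.cases ?_ (fun i => ?_) a
      · exact List.mem_cons_self
      · exact List.mem_cons_of_mem _ (List.mem_map_of_mem (hla i))
    · exact nest_step (hF 0) hG
        (fun a p => W.map (prj ops (n + 1) P a) (E a p)) (fun p => E 0 p)
        (fun a p => W.map (prj ops n (fun i => P i.succ) a) (E a.succ p))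
        (fun p => rfl) (fun a p => W.map_comp _ _ _) (fun p q => rfl) hB

/-- Positivity on the products. -/
theorem nest_pos (n : ℕ) (P : Fin (n + 1) → Polarized 𝒱)
    (f : ∀ a, Module.End W.K (W.H (P a).X)) (hF : ∀ a, Fr W (P a).X (P a).D (f a))
    (hS : ∀ a, Sy W (P a).X (P a).D (f a)) {N : Fin (n + 1) → ℕ}
    (E : ∀ a, Fin (N a) → W.H (P a).X)
    {σ : Fin (n + 1) → Type} [∀ a, Fintype (σ a)] (s : ∀ a, σ a → ℤ)
    (Φ : ∀ a, MvPolynomial (σ a) W.K →ₐ[W.K] W.H (P a).X)
    (ε : ∀ a, Fin (N a) → ℤ)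
    (v : ∀ a, Fin (N a) → ℚ) (hv : ∀ a p, 0 < v a p)
    (hB : ∀ a p q, bf W (P a).X (P a).D (f a) (E a p) (E a q) =
      if p = q then ((ε a p * v a p : ℚ) : W.K) else 0)
    (hΦ : ∀ a (γ : σ a →₀ ℕ), ∃ t : Fin (N a) → ℚ,
      Φ a (MvPolynomial.monomial γ 1) = ∑ p, (t p : W.K) • E a p ∧
        ∀ p, t p ≠ 0 → ε a p = sgn (s a) γ)
    (Ψ : MvPolynomial (Σ a, σ a) W.K →ₐ[W.K] W.H (nest ops n P).X)
    (hΨ : ∀ a i, Ψ (MvPolynomial.X ⟨a, i⟩) =
      W.map (prj ops n P a) (Φ a (MvPolynomial.X i))) :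
    ∃ g : Module.End W.K (W.H (nest ops n P).X),
      Fr W (nest ops n P).X (nest ops n P).D g ∧ Sy W (nest ops n P).X (nest ops n P).D g ∧
      ∀ (L : Type v) [Field L] [CharZero L] [Algebra L W.K] (ι : L →+* ℂ)
        (G : MvPolynomial (Σ a, σ a) L), Rl ι (fun x => s x.1 x.2) G →
        Ψ (MvPolynomial.map (algebraMap L W.K) G) ≠ 0 → ∀ r : ℚ,
        bf W (nest ops n P).X (nest ops n P).D g (Ψ (MvPolynomial.map (algebraMap L W.K) G))
          (Ψ (MvPolynomial.map (algebraMap L W.K) G)) = (r : W.K) → 0 < r := by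
  classical
  obtain ⟨g, l, hG, hGS, hl, hla, hgram⟩ := exists_nest' n P f hF hS E
  refine ⟨g, hG, hGS, ?_⟩
  intro L _ _ _ ι G hGr hne r0 hr0
  set e : ∀ a, Fin (N a) → W.H (nest ops n P).X :=
    fun a p => W.map (prj ops n P a) (E a p) with he
  -- the form
  have hform : ∀ r u : Idx N l,
      bf W (nest ops n P).X (nest ops n P).D g (mon e l r) (mon e l u) =
      if r = u then ((((lp ε l r : ℤ) : ℚ) * lp v l r : ℚ) : W.K) else 0 := by
    intro r u
    rw [hgram r u, kron_diag (c := fun a p => ((ε a p * v a p : ℚ) : W.K))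
      (fun a p q => by rw [Matrix.of_apply]; exact hB a p q)]
    congr 1
    have h1 := lp_cast (Rat.castHom W.K) (fun a p => ((ε a p : ℚ) * v a p)) l r
    have h2 := lp_mul (fun a p => (ε a p : ℚ)) v l r
    have h3 := lp_cast (Int.castRingHom ℚ) ε l r
    simp only [eq_intCast, Rat.coe_castHom] at h1 h3
    rw [← h1, h2, ← h3]
  -- the monomials
  have hmon : ∀ γ : (Σ a, σ a) →₀ ℕ, ∃ t : Idx N l → ℚ,
      Ψ (MvPolynomial.monomial γ 1) = ∑ r, (t r : W.K) • mon e l r ∧
        ∀ r, t r ≠ 0 → lp ε l r = sgn (fun x : Σ a, σ a => s x.1 x.2) γ := by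
    intro γ
    choose t ht ht' using fun a => hΦ a (rs γ a)
    refine ⟨fun r => lp t l r, ?_, fun r hr => ?_⟩
    · have hcomp : ∀ a, Ψ.comp (MvPolynomial.rename (Sigma.mk a)) =
          (W.map (prj ops n P a)).comp (Φ a) := by
        intro a
        apply MvPolynomial.algHom_ext
        intro i
        rw [AlgHom.comp_apply, MvPolynomial.rename_X, hΨ, AlgHom.comp_apply]
      rw [mono_list γ hl hla, map_list_prod, List.map_map]
      refine lp_expand (fun a => ?_) l
      have h1 := AlgHom.congr_fun (hcomp a) (MvPolynomial.monomial (rs γ a) 1)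
      rw [AlgHom.comp_apply, AlgHom.comp_apply, ht, map_sum] at h1
      rw [Function.comp_apply, h1]
      refine Finset.sum_congr rfl fun p _ => ?_
      rw [map_smul]
    · rw [sgn_list s γ hl hla]
      exact lp_sgn (S := fun a => sgn (s a) (rs γ a)) ht' l r hr
  choose t ht ht' using hmon
  -- the coordinates
  set T : Idx N l → L :=
    fun r => ∑ γ ∈ G.support, G.coeff γ * (t γ r : L) with hT
  have hx : Ψ (MvPolynomial.map (algebraMap L W.K) G) =
      ∑ r, algebraMap L W.K (T r) • mon e l r := by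
    conv_lhs => rw [G.as_sum]
    rw [map_sum, map_sum]
    have h1 : ∀ γ ∈ G.support, Ψ (MvPolynomial.map (algebraMap L W.K)
        (MvPolynomial.monomial γ (G.coeff γ))) =
        ∑ r, algebraMap L W.K (G.coeff γ * (t γ r : L)) • mon e l r := by
      intro γ _
      have h2 : MvPolynomial.map (algebraMap L W.K) (MvPolynomial.monomial γ (G.coeff γ)) =
          algebraMap L W.K (G.coeff γ) • MvPolynomial.monomial γ (1 : W.K) := by
        rw [MvPolynomial.map_monomial, MvPolynomial.smul_monomial, smul_eq_mul, mul_one]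
      rw [h2, map_smul, ht, Finset.smul_sum]
      refine Finset.sum_congr rfl fun r _ => ?_
      rw [smul_smul, map_mul, map_ratCast]
    rw [Finset.sum_congr rfl h1, Finset.sum_comm]
    refine Finset.sum_congr rfl fun r _ => ?_
    rw [hT, map_sum, Finset.sum_smul]
  have hconj : ∀ r, conj (ι (T r)) = ((lp ε l r : ℤ) : ℂ) * ι (T r) := by
    intro r
    rw [hT, map_sum, map_sum, Finset.mul_sum]
    refine Finset.sum_congr rfl fun γ _ => ?_
    rw [map_mul, map_mul, hGr.coeff, map_ratCast, map_ratCast]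
    by_cases h0 : t γ r = 0
    · rw [h0]; simp
    · rw [ht' γ r h0]
      ring
  -- the value
  have hval : ∑ r, T r * T r * ((((lp ε l r : ℤ) : ℚ) * lp v l r : ℚ) : L) = (r0 : L) := by
    apply (algebraMap L W.K).injective
    rw [map_ratCast, ← hr0, hx, map_sum, map_sum]
    refine Finset.sum_congr rfl fun r _ => ?_
    rw [map_sum, LinearMap.sum_apply, Finset.sum_eq_single r]
    · rw [map_smul, map_smul, LinearMap.smul_apply, hform, if_pos rfl, map_mul, map_mul,
        map_ratCast, smul_eq_mul, smul_eq_mul, mul_assoc]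
    · intro u _ hu
      rw [map_smul, map_smul, LinearMap.smul_apply, hform, if_neg hu, smul_zero,
        smul_zero]
    · intro h0
      exact absurd (Finset.mem_univ _) h0
  have hval' : ∑ r, Complex.normSq (ι (T r)) * ((lp v l r : ℚ) : ℝ) = (r0 : ℝ) := by
    have h1 := congrArg ι hval
    rw [map_sum, map_ratCast] at h1
    have h2 : ((∑ r, Complex.normSq (ι (T r)) * ((lp v l r : ℚ) : ℝ) : ℝ) : ℂ) = ((r0 : ℝ) : ℂ) := by
      rw [Complex.ofReal_sum, Complex.ofReal_ratCast, ← h1]
      refine Finset.sum_congr rfl fun r _ => ?_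
      rw [Complex.ofReal_mul, Complex.normSq_eq_conj_mul_self, hconj, map_mul, map_mul,
        map_ratCast]
      push_cast
      ring
    exact_mod_cast h2
  have hex : ∃ r, T r ≠ 0 := by
    by_contra h0
    push Not at h0
    apply hne
    rw [hx]
    refine Finset.sum_eq_zero fun r _ => ?_
    rw [h0, map_zero, zero_smul]
  obtain ⟨r, hr⟩ := hex
  have h1 : (0 : ℝ) < r0 := by
    rw [← hval']
    refine Finset.sum_pos' (fun u _ => mul_nonneg (Complex.normSq_nonneg _) ?_)
      ⟨r, Finset.mem_univ _, mul_pos (Complex.normSq_pos.2 ?_) ?_⟩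
    · exact_mod_cast (lp_pos hv l u).le
    · intro h0
      exact hr ((map_eq_zero ι).1 h0)
    · exact_mod_cast lp_pos hv l r
  exact_mod_cast h1

end Pool.Agent.K4H28.PF
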