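import Pool.Agent.K4H28.FV.Stm
import Pool.Agent.H281R3.HT.Defs

/-!
# Products of varieties with a Fujiki relation: the statement
-/

set_option autoImplicit false

open CategoryTheory AlgebraicGeometry

universe u v

namespace Pool.Agent.K4H28.PF

open Pool.Agent.H914

section Alg

variable {K : Type*} [Field K] {A B C : Type*} [Ring A] [Ring B] [Ring C] [Algebra K A]
  [Algebra K B] [Algebra K C] {m : ℕ}

/-- The element `x` lies in the subalgebra generated by the set `S`. -/
def InAlg (K : Type*) [Field K] {A : Type*} [Ring A] [Algebra K A] (S : Set A) (x : A) : Prop :=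
  x ∈ Algebra.adjoin K S

/-- Conditions on the subspace `G` (the classes of degree `2`) of the algebra `A` with the trace
`tr`, the endomorphism `F`, the subset `Z` (the classes of divisors) of `G` and the element `ξ`:
the pairing `tr (x * y)` on the subalgebra generated by `G` is nondegenerate; the space `G` is
spanned by `Z`, on which `F` is the multiplication by `q`, and by the eigenvectors `e i`, `e' i`
of `F` for the eigenvalues `α i`, `q ^ 2 / α i`; the values `tr (e i * e' i * ξ ^ (2 * n - 2))`
are the same positive rational number for all `i`. -/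
structure Eigen (tr : A →ₗ[K] K) (F : A →ₐ[K] A) (G : Submodule K A) (Z : Set A) (ξ : A)
    (q n : ℕ) (e e' : Fin m → A) (α : Fin m → K) : Prop where
  duality : ∀ x, InAlg K (G : Set A) x → (∀ y, InAlg K (G : Set A) y → tr (x * y) = 0) → x = 0
  mem : ∀ i, e i ∈ G ∧ e' i ∈ G
  span : G ≤ Submodule.span K (Z ∪ Set.range e ∪ Set.range e')
  fixed : ∀ z ∈ Z, F z = (q : K) • z
  eig : ∀ i, F (e i) = α i • e i
  eig' : ∀ i, α i • F (e' i) = (q : K) ^ 2 • e' i
  normalized : ∃ r : ℚ, 0 < r ∧ ∀ i, tr (e i * e' i * ξ ^ (2 * n - 2)) = (r : K)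

/-- The element `∑ i, (F (e' i) * G (ε i) + F (e i) * G (ε' i))`. -/
def linkClass (F : A →ₐ[K] C) (G : B →ₐ[K] C) (e e' : Fin m → A) (ε ε' : Fin m → B) : C :=
  ∑ i, (F (e' i) * G (ε i) + F (e i) * G (ε' i))

/-- The images of the sets `S` and `R` under `F` and `G`. -/
def images (F : A →ₐ[K] C) (G : B →ₐ[K] C) (S : Set A) (R : Set B) : Set C :=
  F '' S ∪ G '' R

/-- The elements `γ t` of the field `K` are not zero and multiplicatively independent. -/
def MulIndep {T : Type} [Fintype T] (γ : T → K) : Prop :=
  (∀ t, γ t ≠ 0) ∧ ∀ c : T → ℤ, ∏ t, γ t ^ c t = 1 → c = 0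

/-- Every `c` in `G (2 j)` with the property `s` such that an iterate `F ^ M` with `M ≥ 1` is the
multiplication by `q ^ (M j)` on `c` is a linear combination of elements of `Z j`. -/
def TateClassesIn (F : A →ₐ[K] A) (G : ℕ → Submodule K A) (Z : ℕ → Set A) (q : ℕ)
    (s : A → Prop) : Prop :=
  ∀ j, ∀ c ∈ G (2 * j), s c → (∃ M ≥ 1, F^[M] c = (q : K) ^ (M * j) • c) →
    c ∈ Submodule.span K (Z j)

end Alg

open VarClass Obj WeilCohomology Pool.Agent.K4H28.FV Pool.Agent.H281R3.HT

variable {k : Type u} [Field k] {𝒱 : VarClass k} {ops : CycleOps 𝒱}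

/-- The variety `X` of dimension `2 n > 0` is a member of the family: the Fujiki relation
`tr (z ^ (2 n)) = c β(z, z) ^ n` on the whole of `H ^ 2(X)`, the Hodge index theorem, hard
Lefschetz and the Lefschetz standard conjecture for the divisor `D`, which has a positive degree;
the subalgebra generated by `H ^ 2(X)` satisfies Poincaré duality; the eigenvalues of `f` on
`H ^ 2(X)` have the complex absolute value `q`, and `H ^ 2(X)` is spanned by the classes of
divisors, on which `f` is the multiplication by `q`, and by the eigenvectors `e i`, `e' i` for the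
eigenvalues `α i`, `q ^ 2 / α i`, with normalized intersection numbers. -/
structure Member (W : WeilCohomology.{u, v} ops) (X : 𝒱.Obj) (D : X.Cycles) (f : X ⟶ X) (q n : ℕ)
    {m : ℕ} (e e' : Fin m → W.H X) (α : Fin m → W.K) : Prop where
  fujiki : FujikiVariety W X D n (W.gr X 2)
  hardLef : HardLefschetz W X D
  lefB : LefschetzB W X D
  weight : HasWeight (W.map f).toLinearMap (W.gr X 2) ((q : ℝ) ^ 2)
  eigen : Eigen (W.tr X) (W.map f) (W.gr X 2) (algClasses W X 1) (W.cl X D) q n e e' α

/-- The class `∑ i, (e' i × ε i + e i × ε' i)` on `X × Y` is algebraic: it is the graph of the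
isomorphism `e i ↦ ε i`, `e' i ↦ ε' i` between the transcendental parts of `H ^ 2`. -/
def Linked (W : WeilCohomology.{u, v} ops) {X Y : 𝒱.Obj} {m : ℕ} (e e' : Fin m → W.H X)
    (ε ε' : Fin m → W.H Y) : Prop :=
  linkClass (W.map (fst X Y)) (W.map (snd X Y)) e e' ε ε' ∈ algClasses W (X.prod Y) 2

/-- A polarized variety with an endomorphism and a set of cohomology classes. -/
structure Datum (W : WeilCohomology.{u, v} ops) extends Polarized 𝒱 where
  /-- the endomorphism -/
  f : X ⟶ X
  /-- the set of classes -/
  S : Set (W.H X)

/-- The product `X × Y` with the divisor `D_X × Y + X × D_Y`, the endomorphism `f_X × f_Y` and the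
pull-backs of the classes. -/
noncomputable def Datum.times {W : WeilCohomology.{u, v} ops} (P R : Datum W) : Datum W where
  toPolarized := P.toPolarized.prod ops R.toPolarized
  f := Obj.lift (fst P.X R.X ≫ P.f) (snd P.X R.X ≫ R.f)
  S := images (W.map (fst P.X R.X)) (W.map (snd P.X R.X)) P.S R.S

/-- A polarized variety with half of its dimension, an endomorphism and two families of `m`
cohomology classes. -/
structure Marked (W : WeilCohomology.{u, v} ops) (m : ℕ) extends Polarized 𝒱 where
  /-- half of the dimension -/
  n : ℕ
  /-- the endomorphism -/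
  f : X ⟶ X
  /-- the eigenvectors for the eigenvalues `α i` -/
  e : Fin m → W.H X
  /-- the eigenvectors for the eigenvalues `q ^ 2 / α i` -/
  e' : Fin m → W.H X

/-- The variety with its endomorphism and the set of all classes of degree `2`. -/
def Marked.datum {W : WeilCohomology.{u, v} ops} {m : ℕ} (Q : Marked W m) : Datum W :=
  ⟨Q.toPolarized, Q.f, W.gr Q.X 2⟩

variable {W : WeilCohomology.{u, v} ops} {T : Type} [Fintype T] {M : T → Type} {m : T → ℕ}

/-- The family of varieties: all of them are members, any two members of the same type `t` are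
linked and the numbers `α i / q` of all types together are multiplicatively independent. -/
structure Family (Q : ∀ t, M t → Marked W (m t)) (q : ℕ) (α : ∀ t, Fin (m t) → W.K) : Prop where
  pos : 1 ≤ q
  nonempty : ∀ t, Nonempty (M t)
  member : ∀ t s, Member W (Q t s).X (Q t s).D (Q t s).f q (Q t s).n (Q t s).e (Q t s).e' (α t)
  linked : ∀ t s s', s ≠ s' → Linked W (Q t s).e (Q t s).e' (Q t s').e (Q t s').e'
  indep : MulIndep fun t : Σ t, Fin (m t) => α t.1 t.2 / (q : W.K)

omit [Fintype T] in
/-- The products `X 1 × (X 2 × (⋯ × X r))` of members of the family `Q`, with the sum of the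
divisors, the product of the endomorphisms and the pull-backs of the classes of degree `2`. -/
inductive IsProd (Q : ∀ t, M t → Marked W (m t)) : Datum W → Prop
  | one (t) (s : M t) : IsProd Q (Q t s).datum
  | times (t) (s : M t) (R : Datum W) : IsProd Q R → IsProd Q ((Q t s).datum.times R)

/-- The Tate conjecture for the classes with the property `s` and, if `f` acts on the cycles as a
Frobenius endomorphism over a field with `q` elements, the standard conjecture of Hodge type and
the equality of homological and numerical equivalence for the cycles whose class has the property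
`s`. -/
structure StandardFor (R : Datum W) (q : ℕ) (s : W.H R.X → Prop) : Prop where
  tate : TateClassesIn (W.map R.f) (W.gr R.X) (algClasses W R.X) q s
  hodge : FrobeniusOnCycles W R.X R.f q → Pool.Agent.W552.HodgeTypeFor W R.X R.D s
  homNum : FrobeniusOnCycles W R.X R.f q → Pool.Agent.W552.HomEqNumFor W R.X s

end Pool.Agent.K4H28.PF
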