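import Pool.Agent.K4H28.PF.Prod2
import Pool.Agent.K4H28.PF.Nst
import Pool.Agent.K4H28.PF.Stm

/-!
# The standard conjectures for the products
-/

set_option autoImplicit false
set_option linter.unusedSectionVars false

open CategoryTheory AlgebraicGeometry

universe u v

namespace Pool.Agent.K4H28.PF

open Pool.Agent.H914 VarClass Obj WeilCohomology ComplexConjugate
  Pool.Agent.K4H28.FV Pool.Agent.H281R3.HT Pool.Agent.W552 Pool.Agent.H447

variable {k : Type u} [Field k] {𝒱 : VarClass k} {ops : CycleOps 𝒱}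
  {W : WeilCohomology.{u, v} ops}

theorem pow_iter {V : Type*} {K : Type*} [Field K] [AddCommGroup V] [Module K V]
    (F : Module.End K V) (g : V → V) (h : ∀ x, F x = g x) (M : ℕ) (x : V) :
    (F ^ M) x = g^[M] x := by
  induction M with
  | zero => rfl
  | succ M ih => rw [pow_succ', Module.End.mul_apply, ih, Function.iterate_succ_apply', h]

section One

variable {P : Polarized 𝒱} {f : P.X ⟶ P.X} {q n m : ℕ} {e e' : Fin m → W.H P.X}
  {α : Fin m → W.K}

/-- The spectrum of one member. -/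
theorem Member.spectrum (h : Member W P.X P.D f q n e e' α)
    (hind : ∀ c : Fin m → ℤ, ∏ i, (α i / (q : W.K)) ^ c i = 1 → c = 0) :
    IsSpectrum W P.X f q 2 e e' α where
  mem i := (h.eigen.mem i).1
  mem' i := (h.eigen.mem i).2
  ne_zero := by
    intro i h0
    obtain ⟨r, hr, hr'⟩ := h.eigen.normalized
    have h1 := hr' i
    rw [h0, zero_mul, zero_mul, map_zero] at h1
    exact hr.ne' (Rat.cast_eq_zero.1 h1.symm)
  eig := h.eigen.eig
  eig' := h.eigen.eig'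
  span := h.eigen.span
  div z hz := h.eigen.fixed _ ⟨z, hz, rfl⟩
  indep := by
    intro M hM c _ hc
    have h1 := hind (fun i => (M : ℤ) * c i) hc
    funext i
    have h2 := congrFun h1 i
    simp only [Pi.zero_apply] at h2 ⊢
    exact (mul_eq_zero.1 h2).resolve_left (by exact_mod_cast (by omega : M ≠ 0))

theorem Member.exists_mem (h : Member W P.X P.D f q n e e' α) (hq : 1 ≤ q)
    (hind : ∀ c : Fin m → ℤ, ∏ i, (α i / (q : W.K)) ^ c i = 1 → c = 0) :
    ∃ (N : ℕ) (z : Fin N → W.H P.X) (w : Fin N → ℚ) (δ ρ : ℚ)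
      (Φ Ψ : MvPolynomial (Ix N m) W.K →ₐ[W.K] W.H P.X),
      Gen W P.X P.D n δ w ρ Φ ∧ Mem W P.X P.D f q z e e' α Φ Ψ := by
  obtain ⟨r, hr, hr'⟩ := h.eigen.normalized
  exact PF.exists_mem h.fujiki.pos h.fujiki.dim h.fujiki.div h.fujiki.degree h.fujiki.index
    h.fujiki.fujiki h.hardLef h.lefB hq h.weight (h.spectrum hind)
    ⟨r, hr, hr'⟩ h.eigen.duality

end One

variable {T : Type} [Fintype T] {Mb : T → Type} [hMb : ∀ t, Nonempty (Mb t)]
  {Pm : (Σ t, Mb t) → Polarized 𝒱} {f : ∀ l, (Pm l).X ⟶ (Pm l).X} {q : ℕ}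
  {nn : (Σ t, Mb t) → ℕ} {m : T → ℕ} {e e' : ∀ l : (Σ t, Mb t), Fin (m l.1) → W.H (Pm l).X}
  {α : ∀ t, Fin (m t) → W.K} {n : ℕ}

/-- **The Tate classes are algebraic, and the form is positive on the algebraic classes.** -/
theorem main_aux (hq : 1 ≤ q)
    (hH : ∀ l, Member W (Pm l).X (Pm l).D (f l) q (nn l) (e l) (e' l) (α l.1))
    (hlink : ∀ t (s s' : Mb t), s ≠ s' → Linked W (e ⟨t, s⟩) (e' ⟨t, s⟩) (e ⟨t, s'⟩) (e' ⟨t, s'⟩))
    (hind : MulIndep fun t : Σ t, Fin (m t) => α t.1 t.2 / (q : W.K))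
    (τ : Fin (n + 1) → Σ t, Mb t) :
    (∀ j, ∀ x ∈ W.gr (NP ops Pm τ).X (2 * j), x ∈ H2alg W n (fun a => Pm (τ a)) →
      (∃ M ≥ 1, (W.map (nestMap ops n (fun a => Pm (τ a)) (fun a => f (τ a))))^[M] x =
        (q : W.K) ^ (M * j) • x) → x ∈ Submodule.span W.K (algClasses W (NP ops Pm τ).X j)) ∧
    ∃ g, Fr W (NP ops Pm τ).X (NP ops Pm τ).D g ∧
      ∀ j z, (NP ops Pm τ).X.IsCyc j z → W.cl _ z ∈ H2alg W n (fun a => Pm (τ a)) →
        (∃ M ≥ 1, W.cl _ ((ops.pull (nestMap ops n (fun a => Pm (τ a))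
          (fun a => f (τ a))))^[M] z) = (q : W.K) ^ (M * j) • W.cl _ z) →
        W.cl _ z ≠ 0 → ∃ r : ℚ, 0 < r ∧
          bf W (NP ops Pm τ).X (NP ops Pm τ).D g (W.cl _ z) (W.cl _ z) = r := by
  classical
  have hq0 : (q : W.K) ≠ 0 := Nat.cast_ne_zero.2 (by omega)
  have hα : ∀ t i, α t i ≠ 0 := by
    intro t i h0
    apply hind.1 ⟨t, i⟩
    change α t i / (q : W.K) = 0
    rw [h0, zero_div]
  have hind' : ∀ M : ℕ, 1 ≤ M → ∀ c : (Σ t, Fin (m t)) → ℤ,
      ∏ t : Σ t, Fin (m t), (α t.1 t.2 / (q : W.K)) ^ ((M : ℤ) * c t) = 1 → c = 0 := by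
    intro M hM c hc
    have h1 := hind.2 (fun t => (M : ℤ) * c t) hc
    funext t
    have h2 := congrFun h1 t
    simp only [Pi.zero_apply] at h2 ⊢
    exact (mul_eq_zero.1 h2).resolve_left (by exact_mod_cast (by omega : M ≠ 0))
  have hindt : ∀ t, ∀ c : Fin (m t) → ℤ, ∏ i, (α t i / (q : W.K)) ^ c i = 1 → c = 0 := by
    intro t c hc
    have h1 := hind.2 (fun y => if h : y.1 = t then c (h ▸ y.2) else 0) (by
      rw [Fintype.prod_sigma, Finset.prod_eq_single t]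
      · rw [← hc]
        refine Finset.prod_congr rfl fun i _ => ?_
        beta_reduce
        rw [dif_pos rfl]
      · intro t' _ ht'
        refine Finset.prod_eq_one fun i _ => ?_
        beta_reduce
        rw [dif_neg ht', zpow_zero]
      · intro h0
        exact absurd (Finset.mem_univ _) h0)
    funext i
    have h2 := congrFun h1 ⟨t, i⟩
    beta_reduce at h2
    rw [dif_pos rfl] at h2
    exact h2
  choose N z w δ ρ Φ Ψ hG hM using fun l => (hH l).exists_mem hq (hindt l.1)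
  have hlink' : ∀ t (s s' : Mb t),
      LinkAll W q (e ⟨t, s⟩) (e' ⟨t, s⟩) (e ⟨t, s'⟩) (e' ⟨t, s'⟩) (α t) := by
    intro t s s'
    by_cases hss : s = s'
    · subst hss
      exact (hM ⟨t, s⟩).alg
    · exact link_all (f₂ := f ⟨t, s'⟩) (fun i => (hM ⟨t, s'⟩).eig (ip i))
        (fun i => (hM ⟨t, s'⟩).eig (im i)) (hlink t s s' hss)
  -- the field of algebraic numbers
  set L := algebraicClosure ℚ W.K with hL
  have habs : ∀ t i, ∃ P : Polynomial ℚ, P ≠ 0 ∧ Polynomial.aeval (α t i) P = 0 ∧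
      ∀ c : ℂ, Polynomial.aeval c P = 0 → ‖c‖ ^ 2 = (q : ℝ) ^ 2 := fun t i =>
    (hM ⟨t, Classical.choice (hMb t)⟩).abs i
  have hαL : ∀ t i, α t i ∈ L := fun t i => by
    obtain ⟨P, hP0, hP, -⟩ := habs t i
    exact mem_algebraicClosure_iff.2 ⟨P, hP0, hP⟩
  set a : ∀ t, Fin (m t) → L := fun t i => ⟨α t i, hαL t i⟩ with ha
  set a' : ∀ t, Fin (m t) → L := fun t i => (q : L) ^ 2 / a t i with ha'
  have hA : ∀ t i, algebraMap L W.K (a t i) = α t i := fun t i => rfl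
  have hA' : ∀ t i, algebraMap L W.K (a' t i) = (q : W.K) ^ 2 / α t i := fun t i => by
    rw [ha', map_div₀, map_pow, map_natCast, hA]
  set ι : L →+* ℂ := (IsAlgClosed.lift : L →ₐ[ℚ] ℂ).toRingHom with hι
  have hconj : ∀ t i, conj (ι (a t i)) = ι (a' t i) := by
    intro t i
    obtain ⟨P, hP0, hP, hPc⟩ := habs t i
    have h1 : Polynomial.aeval (a t i) P = 0 := by
      apply (algebraMap L W.K).injective
      rw [hom_aeval, hA, hP, map_zero]
    have h2 : Polynomial.aeval (ι (a t i)) P = 0 := by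
      rw [← hom_aeval, h1, map_zero]
    have h3 := hPc _ h2
    have h4 : conj (ι (a t i)) * ι (a t i) = (q : ℂ) ^ 2 := by
      rw [Complex.conj_mul']
      exact_mod_cast h3
    have h5 : ι (a t i) ≠ 0 := by
      intro h0
      rw [h0, mul_zero] at h4
      have : (q : ℂ) ≠ 0 := Nat.cast_ne_zero.2 (by omega)
      exact pow_ne_zero 2 this h4.symm
    rw [ha', map_div₀, map_pow, map_natCast, ← h4, mul_div_assoc, div_self h5, mul_one]
  obtain ⟨Θ, hΘ⟩ := exists_theta (W := W) (Pm := Pm) (N := N) (m := m) (τ := τ)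
    (fun l x => Φ l (MvPolynomial.X x)) (fun l x => (hG l).mem x)
  have htate := fun {j : ℕ} {x : W.H (NP ops Pm τ).X} (hx : x ∈ W.gr (NP ops Pm τ).X (2 * j))
    (hxA : x ∈ H2alg W n (fun a => Pm (τ a))) {M : ℕ} (hM1 : 1 ≤ M)
    (hxM : ((W.map (nestMap ops n (fun a => Pm (τ a))
      (fun a => f (τ a)))).toLinearMap ^ M) x = (q : W.K) ^ (M * j) • x) =>
    tate_span (n := n) hq hM hlink' hα hind' hA hA' hconj hΘ hx hxA hM1 hxM
  refine ⟨?_, ?_⟩
  · rintro j x hx hxA ⟨M, hM1, hxM⟩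
    refine (htate hx hxA hM1 ?_).alg
    rw [pow_iter _ (W.map (nestMap ops n (fun a => Pm (τ a)) (fun a => f (τ a)))) (fun _ => rfl),
      hxM]
  choose fr hF ht using fun l => exists_fr (hH l).fujiki.div (hH l).hardLef (hH l).lefB
  choose K E ε v hv hgram hmon using fun l => (hG l).exists_bas (hF l) (ht l)
  obtain ⟨g, hg, hgS, hpos⟩ := nest_pos n (fun a => Pm (τ a)) (fun a => fr (τ a))
    (fun a => hF (τ a)) (fun a => fun x y => bf_sy (hF (τ a)) (ht (τ a)) x y)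
    (fun a => E (τ a)) (σ := fun a => Ix (N (τ a)) (m (τ a).1)) (fun a => s0)
    (fun a => Φ (τ a)) (fun a => ε (τ a)) (fun a => v (τ a)) (fun a => hv (τ a))
    (fun a => hgram (τ a)) (fun a => hmon (τ a)) Θ hΘ
  refine ⟨g, hg, ?_⟩
  rintro j y hy hyA ⟨M, hM1, hyM⟩ hy0
  rw [cl_pull_iter] at hyM
  have hspan := htate (W.cl_mem hy) hyA hM1 hyM
  have hpos' : ∀ x, RA Θ ι (fun y : SI N m τ => s0 y.2) j x → x ≠ 0 → ∃ r : ℚ, 0 < r ∧
      bf W (NP ops Pm τ).X (NP ops Pm τ).D g x x = r := by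
    rintro x ⟨hx, G, hGr, rfl⟩ hx0
    obtain ⟨r, hr⟩ := hg.bf_rat (AS.of hx) (AS.of hx)
    exact ⟨r, hpos L ι G hGr hx0 r hr, hr⟩
  obtain ⟨K', E', w', h1, h2, h3, h4⟩ := exists_ratBasis
    (RA.ratSub (Θ := Θ) (ι := ι) (s := fun y : SI N m τ => s0 y.2) j)
    (bf W (NP ops Pm τ).X (NP ops Pm τ).D g)
    (fun x y hx hy => hg.bf_rat (AS.of hx.1) (AS.of hy.1))
    (fun x y hx hy => by
      rw [hgS x y, par, scal_apply _ _ (alg_gr hy.1), pow_mul, neg_one_sq, one_pow, one_smul])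
    hpos'
  obtain ⟨r, hr⟩ := h4 _ hspan (fun i => hg.bf_rat (AS.of ⟨y, hy, rfl⟩) (AS.of (h1 i).1))
  refine hpos' _ ?_ hy0
  rw [hr]
  exact (RA.ratSub (Θ := Θ) (ι := ι) (s := fun y : SI N m τ => s0 y.2) j).sum _
    (fun i _ => (RA.ratSub j).smul _ (h1 i))

/-- The product `P 0 × (P 1 × (⋯ × P n))` of members. -/
noncomputable def nestD {M : T → Type} (Q : ∀ t, M t → Marked W (m t)) (n : ℕ)
    (τ : Fin (n + 1) → Σ t, M t) : Datum W :=
  ⟨nest ops n fun a => (Q (τ a).1 (τ a).2).toPolarized,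
    nestMap ops n (fun a => (Q (τ a).1 (τ a).2).toPolarized) fun a => (Q (τ a).1 (τ a).2).f,
    {x | ∃ a, ∃ y ∈ W.gr (Q (τ a).1 (τ a).2).X 2, W.map (prj ops n
      (fun a => (Q (τ a).1 (τ a).2).toPolarized) a) y = x}⟩

omit [Fintype T] in
theorem datum_eq {M : T → Type} (Q : ∀ t, M t → Marked W (m t)) (t : T) (s : M t) :
    (Q t s).datum = nestD Q 0 fun _ => ⟨t, s⟩ := by
  have hS : (W.gr (Q t s).X 2 : Set (W.H (Q t s).X)) = {x | ∃ a : Fin 1,
      ∃ y ∈ W.gr (Q t s).X 2, W.map (prj ops 0 (fun _ => (Q t s).toPolarized) a) y = x} := by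
    ext x
    constructor
    · intro hx
      exact ⟨0, x, hx, W.map_id _ x⟩
    · rintro ⟨a, y, hy, hyx⟩
      obtain rfl : a = 0 := Subsingleton.elim _ _
      have h1 : W.map (𝟙 (Q t s).X) y = x := hyx
      rw [W.map_id] at h1
      rw [← h1]
      exact hy
  exact congrArg (fun S => (⟨(Q t s).toPolarized, (Q t s).f, S⟩ : Datum W)) hS

omit [Fintype T] in
theorem times_eq {M : T → Type} (Q : ∀ t, M t → Marked W (m t)) (t : T) (s : M t) (n : ℕ)
    (τ : Fin (n + 1) → Σ t, M t) :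
    (Q t s).datum.times (nestD Q n τ) = nestD Q (n + 1) (Fin.cons ⟨t, s⟩ τ) := by
  have hS : ((Q t s).datum.times (nestD Q n τ)).S =
      (nestD Q (n + 1) (Fin.cons ⟨t, s⟩ τ) : Datum W).S := by
    ext x
    constructor
    · rintro (⟨y, hy, hyx⟩ | ⟨y, ⟨a, z, hz, hzy⟩, hyx⟩)
      · exact ⟨0, y, hy, hyx⟩
      · refine ⟨a.succ, z, hz, ?_⟩
        have h1 := W.map_comp (snd (Q t s).X (nestD Q n τ).X)
          (prj ops n (fun a => (Q (τ a).1 (τ a).2).toPolarized) a) z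
        rw [← hyx, ← hzy]
        exact h1
    · rintro ⟨a, y, hy, hyx⟩
      induction a using Fin.cases with
      | zero => exact Or.inl ⟨y, hy, hyx⟩
      | succ i =>
        refine Or.inr ⟨W.map (prj ops n (fun a => (Q (τ a).1 (τ a).2).toPolarized) i) y,
          ⟨i, y, hy, rfl⟩, ?_⟩
        have h1 := W.map_comp (snd (Q t s).X (nestD Q n τ).X)
          (prj ops n (fun a => (Q (τ a).1 (τ a).2).toPolarized) i) y
        rw [← hyx]
        exact h1.symm
  exact congrArg (fun S => (⟨((Q t s).datum.times (nestD Q n τ)).toPolarized,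
    ((Q t s).datum.times (nestD Q n τ)).f, S⟩ : Datum W)) hS

omit [Fintype T] in
theorem IsProd.eq_nest {M : T → Type} {Q : ∀ t, M t → Marked W (m t)} {R : Datum W}
    (hR : IsProd Q R) : ∃ (n : ℕ) (τ : Fin (n + 1) → Σ t, M t), R = nestD Q n τ := by
  induction hR with
  | one t s => exact ⟨0, fun _ => ⟨t, s⟩, datum_eq Q t s⟩
  | times t s R _ ih =>
    obtain ⟨n, τ, rfl⟩ := ih
    exact ⟨n + 1, Fin.cons ⟨t, s⟩ τ, times_eq Q t s n τ⟩

theorem StandardFor.of_aux {R : Datum W} {q : ℕ} {s : W.H R.X → Prop}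
    {g : Module.End W.K (W.H R.X)}
    (hg : Fr W R.X R.D g) (h1 : ∀ j, ∀ x ∈ W.gr R.X (2 * j), s x →
      (∃ M ≥ 1, (W.map R.f)^[M] x = (q : W.K) ^ (M * j) • x) →
      x ∈ Submodule.span W.K (algClasses W R.X j))
    (h2 : ∀ j z, R.X.IsCyc j z → s (W.cl _ z) →
      (∃ M ≥ 1, W.cl _ ((ops.pull R.f)^[M] z) = (q : W.K) ^ (M * j) • W.cl _ z) →
      W.cl _ z ≠ 0 → ∃ r : ℚ, 0 < r ∧ bf W R.X R.D g (W.cl _ z) (W.cl _ z) = r) :
    StandardFor R q s := by
  have key : FrobeniusOnCycles W R.X R.f q → ∀ j z, R.X.IsCyc j z →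
      s (W.cl _ z) → W.cl _ z ≠ 0 → ∃ r : ℚ, 0 < r ∧
        bf W R.X R.D g (W.cl _ z) (W.cl _ z) = r :=
    fun hfr j z hz hzs hz0 => h2 j z hz hzs (hfr j z hz) hz0
  refine ⟨?_, ?_, ?_⟩
  · exact fun j c hc hcS hcM => h1 j c hc hcS hcM
  · intro hfr j hj z hz hzs
    exact (hg.hodge hz (key hfr j z hz hzs)).1 hj
  · intro hfr j hj z hz hzs
    exact (hg.hodge hz (key hfr j z hz hzs)).2 hj

/-- **The standard conjectures for the products of the members of a family.** -/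
theorem main {M : T → Type} {Q : ∀ t, M t → Marked W (m t)} (h : Family Q q α)
    {R : Datum W} (hR : IsProd Q R) :
    StandardFor R q (InAlg W.K R.S) ∧
      ((∀ t s x, InAlg W.K (Q t s).datum.S x) → StandardFor R q fun _ => True) := by
  have := h.nonempty
  obtain ⟨n, τ, rfl⟩ := hR.eq_nest
  obtain ⟨h1, g, hg, h2⟩ := main_aux (W := W)
    (Pm := fun l : (Σ t, M t) => (Q l.1 l.2).toPolarized) (f := fun l => (Q l.1 l.2).f)
    (nn := fun l => (Q l.1 l.2).n) (e := fun l => (Q l.1 l.2).e) (e' := fun l => (Q l.1 l.2).e')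
    h.pos (fun l => h.member l.1 l.2)
    (fun t s s' hs => h.linked t s s' hs) h.indep τ
  refine ⟨.of_aux hg h1 h2, fun htop => ?_⟩
  have htop' : H2alg W n (fun a => (Q (τ a).1 (τ a).2).toPolarized) = ⊤ :=
    H2alg_top fun a => eq_top_iff.2 fun x _ => htop _ _ x
  refine .of_aux hg (fun j x hx _ hM => h1 j x hx ?_ hM) (fun j z hz _ hM h0 => h2 j z hz ?_ hM h0)
  · exact htop'.symm ▸ Algebra.mem_top
  · exact htop'.symm ▸ Algebra.mem_top

end Pool.Agent.K4H28.PF
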