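import Pool.Agent.K4H28.PF.Bas1
import Pool.Agent.K4H28.FV.Geo8

/-!
# The members of the family
-/

set_option autoImplicit false
set_option linter.unusedSectionVars false

open CategoryTheory AlgebraicGeometry

universe u v

namespace Pool.Agent.K4H28.PF

open Pool.Agent.H914 VarClass Obj WeilCohomology MvPolynomial ComplexConjugate
  Pool.Agent.K4H28.FV

variable {N m : ℕ} {k : Type u} [Field k] {𝒱 : VarClass k} {ops : CycleOps 𝒱}
  {W : WeilCohomology.{u, v} ops} {X Y : 𝒱.Obj} {D : X.Cycles}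
  {n : ℕ} {δ ρ : ℚ} {β : LinearMap.BilinForm W.K (W.H X)} {f : X ⟶ X} {q : ℕ}
  {z : Fin N → W.H X} {w : Fin N → ℚ} {e e' : Fin m → W.H X} {α : Fin m → W.K}

theorem alg_pull (g : Y ⟶ X) {j : ℕ} {x : W.H X} (hx : x ∈ algClasses W X j) :
    W.map g x ∈ algClasses W Y j := by
  obtain ⟨z, hz, rfl⟩ := hx
  exact ⟨_, ops.pull_mem g hz, W.cl_pull _ _⟩

/-- The orthogonality relations. -/
theorem spec_orth' (h : NF W X (W.cl X D) n (W.gr X 2) δ β) (hq : 1 ≤ q)
    (hDc : X.IsCyc 1 D) (hs : IsSpectrum W X f q 2 e e' α) (hα : ∀ i, α i ≠ 0) :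
    (∀ v ∈ algClasses W X 1, ∀ i, β v (e i) = 0 ∧ β v (e' i) = 0) ∧
      (∀ i j, β (e i) (e j) = 0) ∧ (∀ i j, β (e' i) (e' j) = 0) ∧
      ∀ i j, i ≠ j → β (e i) (e' j) = 0 := by
  have hq0 : (q : W.K) ≠ 0 := Nat.cast_ne_zero.2 (by omega)
  obtain ⟨-, hsim⟩ := simil h hq (hs.div D hDc)
  refine ⟨?_, ?_, ?_, ?_⟩
  · rintro _ ⟨z, hz, rfl⟩ i
    constructor
    · have h1 := hsim _ (W.cl_mem hz) _ (hs.mem i)
      rw [hs.div z hz, hs.eig, bil_sml] at h1
      have h2 : (q : W.K) * (α i - q) * β (W.cl X z) (e i) = 0 := by linear_combination h1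
      exact (mul_eq_zero.1 h2).resolve_left
        (mul_ne_zero hq0 (sub_ne_zero.2 (hs.ne1 (by omega) hq i)))
    · have h1 := hsim _ (W.cl_mem hz) _ (hs.mem' i)
      rw [hs.div z hz, hs.eig'' hα, bil_sml] at h1
      have h2 : (q : W.K) ^ 2 * (q - α i) * β (W.cl X z) (e' i) = 0 := by
        have h3 := hα i
        field_simp at h1
        linear_combination (q : W.K) ^ 2 * h1
      refine (mul_eq_zero.1 h2).resolve_left
        (mul_ne_zero (pow_ne_zero _ hq0) (sub_ne_zero.2 (hs.ne1 (by omega) hq i).symm))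
  · intro i j
    have h1 := hsim _ (hs.mem i) _ (hs.mem j)
    rw [hs.eig, hs.eig, bil_sml] at h1
    have h2 : (α i * α j - (q : W.K) ^ 2) * β (e i) (e j) = 0 := by linear_combination h1
    exact (mul_eq_zero.1 h2).resolve_left (sub_ne_zero.2 (hs.ne2 le_rfl hq i j))
  · intro i j
    have h1 := hsim _ (hs.mem' i) _ (hs.mem' j)
    rw [hs.eig'' hα, hs.eig'' hα, bil_sml] at h1
    have h2 : (q : W.K) ^ 2 * ((q : W.K) ^ 2 - α i * α j) * β (e' i) (e' j) = 0 := by
      have h3 := hα i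
      have h4 := hα j
      field_simp at h1
      linear_combination (q : W.K) ^ 2 * h1
    exact (mul_eq_zero.1 h2).resolve_left
      (mul_ne_zero (pow_ne_zero _ hq0) (sub_ne_zero.2 (hs.ne2 le_rfl hq i j).symm))
  · intro i j hij
    have h1 := hsim _ (hs.mem i) _ (hs.mem' j)
    rw [hs.eig, hs.eig'' hα, bil_sml] at h1
    have h2 : (q : W.K) ^ 2 * (α i - α j) * β (e i) (e' j) = 0 := by
      have h4 := hα j
      field_simp at h1
      linear_combination (q : W.K) ^ 2 * h1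
    exact (mul_eq_zero.1 h2).resolve_left
      (mul_ne_zero (pow_ne_zero _ hq0) (sub_ne_zero.2 (hs.inj le_rfl hq hα hij)))

/-- A frame. -/
structure FrameR (W : WeilCohomology.{u, v} ops) (X : 𝒱.Obj) (ξ : W.H X)
    (S : Submodule W.K (W.H X)) (β : LinearMap.BilinForm W.K (W.H X)) (z : Fin N → W.H X)
    (w : Fin N → ℚ) (ρ : ℚ) (e e' : Fin m → W.H X) : Prop where
  z_alg : ∀ j, z j ∈ algClasses W X 1
  z_mem : ∀ j, z j ∈ S
  w_pos : ∀ j, 0 < w j
  ρ_pos : 0 < ρ
  ξz : ∀ j, β ξ (z j) = 0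
  zz : ∀ i j, β (z i) (z j) = if i = j then -(w i : W.K) else 0
  e_mem : ∀ i, e i ∈ S
  e'_mem : ∀ i, e' i ∈ S
  ξe : ∀ i, β ξ (e i) = 0
  ξe' : ∀ i, β ξ (e' i) = 0
  ze : ∀ j i, β (z j) (e i) = 0
  ze' : ∀ j i, β (z j) (e' i) = 0
  ee : ∀ i j, β (e i) (e j) = 0
  e'e' : ∀ i j, β (e' i) (e' j) = 0
  ee' : ∀ i j, β (e i) (e' j) = if i = j then (ρ : W.K) else 0

section FR

variable {ξ : W.H X} {S : Submodule W.K (W.H X)}

theorem FrameR.Z_mem (h : NF W X ξ n S δ β) (hf : FrameR W X ξ S β z w ρ e e') (a : Ix N m) :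
    Zf ξ z e e' a ∈ S := by
  rcases a with _ | j | i | i
  · exact h.mem
  · exact hf.z_mem j
  · exact S.add_mem (hf.e_mem i) (hf.e'_mem i)
  · exact S.sub_mem (hf.e_mem i) (hf.e'_mem i)

theorem FrameR.Z_orth (h : NF W X ξ n S δ β) (hf : FrameR W X ξ S β z w ρ e e')
    (a b : Ix N m) :
    β (Zf ξ z e e' a) (Zf ξ z e e' b) = if a = b then (qr w ρ a : W.K) else 0 := by
  have hzξ : ∀ j, β (z j) ξ = 0 := fun j => by rw [h.symm, hf.ξz]
  have heξ : ∀ j, β (e j) ξ = 0 := fun j => by rw [h.symm, hf.ξe]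
  have he'ξ : ∀ j, β (e' j) ξ = 0 := fun j => by rw [h.symm, hf.ξe']
  have hez : ∀ i j, β (e i) (z j) = 0 := fun i j => by rw [h.symm, hf.ze]
  have he'z : ∀ i j, β (e' i) (z j) = 0 := fun i j => by rw [h.symm, hf.ze']
  have he'e : ∀ i j, β (e' i) (e j) = if i = j then (ρ : W.K) else 0 := fun i j => by
    rw [h.symm, hf.ee']
    by_cases hij : i = j
    · rw [if_pos hij, if_pos hij.symm]
    · rw [if_neg hij, if_neg (fun h => hij h.symm)]
  rcases a with _ | j | i | i <;> rcases b with _ | j' | i' | i' <;>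
    simp only [Zf, qr, h.one, hf.ξz, hf.ξe, hf.ξe', hf.ze, hf.ze', hf.ee, hf.e'e', hf.ee', hf.zz,
      hzξ, heξ, he'ξ, hez, he'z, he'e, map_add, map_sub, LinearMap.add_apply,
      LinearMap.sub_apply, Option.some.injEq, Sum.inl.injEq, Sum.inr.injEq, reduceCtorEq,
      if_true, if_false, Rat.cast_one, Rat.cast_neg, Rat.cast_mul, Rat.cast_ofNat, add_zero,
      sub_zero, zero_add, zero_sub, sub_self]
  all_goals
    by_cases hii : i = i'
    · simp only [hii, if_true]; ring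
    · simp only [hii, if_false]; ring

theorem FrameR.fujT (h : NF W X ξ n S δ β) (hf : FrameR W X ξ S β z w ρ e e')
    {Φ : MvPolynomial (Ix N m) W.K →ₐ[W.K] W.H X}
    (hΦ : ∀ a, Φ (MvPolynomial.X a) = Zf ξ z e e' a) :
    FujT n δ (qr w ρ) (W.tr X) Φ := by
  intro t
  have h1 : Φ ((∑ a, C (t a) * MvPolynomial.X a) ^ (2 * n)) =
      (∑ a, t a • Zf ξ z e e' a) ^ (2 * n) := by
    rw [map_pow, map_sum]
    congr 1
    refine Finset.sum_congr rfl fun a _ => ?_
    rw [← smul_eq_C_mul, map_smul, hΦ]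
  rw [h1, h.rel _ (S.sum_mem fun a _ => S.smul_mem _ (hf.Z_mem h a))]
  congr 2
  rw [map_sum]
  refine Finset.sum_congr rfl fun a _ => ?_
  rw [map_smul, map_sum, LinearMap.sum_apply, Finset.sum_eq_single a]
  · rw [map_smul, LinearMap.smul_apply, hf.Z_orth h, if_pos rfl, smul_eq_mul, smul_eq_mul]
    ring
  · intro b _ hb
    rw [map_smul, LinearMap.smul_apply, hf.Z_orth h, if_neg hb, smul_zero]
  · intro ha
    exact absurd (Finset.mem_univ a) ha

end FR

/-- The dual family. -/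
noncomputable def DfR {K H : Type*} [Field K] [Ring H] [Algebra K H] (c δ ρ : K) (ξ : H)
    (z : Fin N → H) (w : Fin N → K) (e e' : Fin m → H) : Ix N m → H
  | none => (1 / δ) • ξ
  | some (Sum.inl j) => (-c / (δ * w j)) • z j
  | some (Sum.inr (Sum.inl i)) => (c / (δ * ρ)) • e' i
  | some (Sum.inr (Sum.inr i)) => (c / (δ * ρ)) • e i

theorem dualR (h : NF W X (W.cl X D) n (W.gr X 2) δ β)
    (hf : FrameR W X (W.cl X D) (W.gr X 2) β z w ρ e e') (a b : Ix N m) :
    W.tr X (DfR (2 * n - 1 : W.K) δ ρ (W.cl X D) z (fun j => (w j : W.K)) e e' a *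
      Ef (W.cl X D) z e e' b * W.cl X D ^ (2 * n - 2)) = if a = b then 1 else 0 := by
  have hc : ((2 * n - 1 : W.K)) ≠ 0 := by
    have := h.n2
    exact_mod_cast (Rat.cast_ne_zero (α := W.K)).2 this
  have hδ : (δ : W.K) ≠ 0 := Rat.cast_ne_zero.2 h.pos.ne'
  have hρ : (ρ : W.K) ≠ 0 := Rat.cast_ne_zero.2 hf.ρ_pos.ne'
  have hw : ∀ j, ((w j : ℚ) : W.K) ≠ 0 := fun j => Rat.cast_ne_zero.2 (hf.w_pos j).ne'
  set ξ := W.cl X D with hξ
  have hpol : ∀ v ∈ W.gr X 2, ∀ v' ∈ W.gr X 2, ∀ t : W.K, W.tr X (t • v * v' * ξ ^ (2 * n - 2)) =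
      t * (δ / (2 * n - 1) * (β v v' + 2 * (n - 1) * (β ξ v * β ξ v'))) := by
    intro v hv v' hv' t
    rw [smul_mul_assoc, smul_mul_assoc, map_smul, smul_eq_mul]
    congr 1
    rw [div_mul_eq_mul_div, eq_div_iff hc, ← h.pol hv hv']
    ring
  have hzξ : ∀ j, β (z j) ξ = 0 := fun j => by rw [h.symm, hf.ξz]
  have heξ : ∀ j, β (e j) ξ = 0 := fun j => by rw [h.symm, hf.ξe]
  have he'ξ : ∀ j, β (e' j) ξ = 0 := fun j => by rw [h.symm, hf.ξe']
  have hez : ∀ i j, β (e i) (z j) = 0 := fun i j => by rw [h.symm, hf.ze]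
  have he'z : ∀ i j, β (e' i) (z j) = 0 := fun i j => by rw [h.symm, hf.ze']
  have he'e : ∀ i j, β (e' i) (e j) = if i = j then (ρ : W.K) else 0 := fun i j => by
    rw [h.symm, hf.ee']
    by_cases hij : i = j
    · rw [if_pos hij, if_pos hij.symm]
    · rw [if_neg hij, if_neg (fun h => hij h.symm)]
  rcases a with _ | j | i | i <;> rcases b with _ | j' | i' | i' <;> simp only [DfR, Ef] <;>
    rw [hpol _ (by first | exact h.mem | exact hf.z_mem _ | exact hf.e_mem _ | exact hf.e'_mem _) _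
      (by first | exact h.mem | exact hf.z_mem _ | exact hf.e_mem _ | exact hf.e'_mem _)] <;>
    simp only [h.one, hf.ξz, hf.ξe, hf.ξe', hf.ze, hf.ze', hf.ee, hf.e'e', hf.ee', hf.zz,
      hzξ, heξ, he'ξ, hez, he'z, he'e, Option.some.injEq, Sum.inl.injEq, Sum.inr.injEq,
      reduceCtorEq, if_true, if_false, mul_zero, zero_mul, add_zero]
  · field_simp
    ring
  · by_cases hjj : j = j'
    · simp only [hjj, if_true]
      have := hw j'
      field_simp
    · simp only [hjj, if_false, mul_zero]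
  · by_cases hii : i = i'
    · simp only [hii, if_true]
      field_simp
    · simp only [hii, if_false, mul_zero]
  · by_cases hii : i = i'
    · simp only [hii, if_true]
      field_simp
    · simp only [hii, if_false, mul_zero]

/-- **The classes on the square of the variety given by the endomorphism are algebraic.** -/
theorem pair_alg (h : NF W X (W.cl X D) n (W.gr X 2) δ β) (hDc : X.IsCyc 1 D)
    (hHL : HardLefschetz W X D) (hB : LefschetzB W X D)
    (hf : FrameR W X (W.cl X D) (W.gr X 2) β z w ρ e e')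
    (hfr : ∀ a : Ix N m, W.map f (Ef (W.cl X D) z e e' a) =
      lamf (q : W.K) α a • Ef (W.cl X D) z e e' a)
    (hspan : W.gr X 2 ≤ Submodule.span W.K (Set.range (Ef (W.cl X D) z e e' : Ix N m → W.H X)))
    (g : Polynomial ℚ) :
    ∑ i, (Polynomial.aeval (α i) g • (W.map (fst X X) (e' i) * W.map (snd X X) (e i)) +
      Polynomial.aeval ((q : W.K) ^ 2 / α i) g •
        (W.map (fst X X) (e i) * W.map (snd X X) (e' i))) ∈ algClasses W (X.prod X) 2 := by
  set ξ := W.cl X D with hξ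
  set E : Ix N m → W.H X := Ef ξ z e e' with hE
  set Dl : Ix N m → W.H X := DfR (2 * n - 1 : W.K) δ ρ ξ z
    (fun j => (w j : W.K)) e e' with hDl
  have hEm : ∀ a, E a ∈ W.gr X 2 := Ef_mem h.mem hf.z_mem hf.e_mem hf.e'_mem
  have hδ : (δ : W.K) ≠ 0 := Rat.cast_ne_zero.2 h.pos.ne'
  have hc0 : ((2 * n - 1 : W.K)) ≠ 0 := by
    have := h.n2
    exact_mod_cast (Rat.cast_ne_zero (α := W.K)).2 this
  obtain ⟨c, hc, hc1, hc2⟩ := exists_op (f := f) hDc h.n_pos h.dim hHL hB g
  set c0 : W.H (X.prod X) := ∑ a, W.map (fst X X) (Dl a) *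
    W.map (snd X X) (Polynomial.aeval (lamf (q : W.K) α a) g • E a) with hc0'
  have hcorr0 : ∀ x, W.corr c0 x = ∑ a, W.tr X (Dl a * x) •
      (Polynomial.aeval (lamf (q : W.K) α a) g • E a) := by
    intro x
    rw [hc0', corr_sum, LinearMap.sum_apply]
    exact Finset.sum_congr rfl fun a _ => corr_ext_even _ (Submodule.smul_mem _ _ (hEm a)) x
  have hDlm : ∀ a, Dl a ∈ W.gr X 2 := by
    intro a
    rcases a with _ | j | i | i
    · exact Submodule.smul_mem _ _ h.mem
    · exact Submodule.smul_mem _ _ (hf.z_mem j)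
    · exact Submodule.smul_mem _ _ (hf.e'_mem i)
    · exact Submodule.smul_mem _ _ (hf.e_mem i)
  have hEq : W.cl _ c = c0 := by
    rw [← sub_eq_zero]
    apply corr_inj
    rw [sub_eq_add_neg, ← neg_one_smul W.K c0, corr_add, corr_smul,
      neg_one_smul W.K (W.corr c0), ← sub_eq_add_neg, sub_eq_zero]
    apply gr_ext (W.isInternal X)
    intro i x hx
    by_cases hi : i = 2 + 2 * (2 * n - 2)
    · have hi2 : i = 2 * X.dim - 2 := by rw [h.dim]; have := h.n_pos; omega
      rw [hi2] at hx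
      obtain ⟨v, hv, rfl⟩ := (hHL 2 (by rw [h.dim]; have := h.n_pos; omega)).2 x hx
      rw [LinearMap.pow_mulLeft, LinearMap.mulLeft_apply, ← two_comm hv, h.dim, hc2 v hv]
      have hv' := hspan hv
      clear hv hx
      induction hv' using Submodule.span_induction with
      | zero =>
        rw [map_zero, zero_mul, map_zero]
      | add x y _ _ hx hy =>
        rw [map_add, add_mul, map_add, hx, hy]
      | smul a x _ hx =>
        rw [map_smul, smul_mul_assoc, map_smul, hx]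
      | mem x hx =>
        obtain ⟨b, rfl⟩ := hx
        rw [ev_eig (hfr b), hcorr0, Finset.sum_eq_single b]
        · have h3 := dualR h hf b b
          rw [if_pos rfl, mul_assoc] at h3
          rw [h3, one_smul]
        · intro a _ hab
          have h3 := dualR h hf a b
          rw [if_neg hab, mul_assoc] at h3
          rw [h3, zero_smul]
        · intro hb
          exact absurd (Finset.mem_univ b) hb
    · rw [hc1 i hi x hx, hcorr0]
      symm
      apply Finset.sum_eq_zero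
      intro a _
      rw [W.tr_eq_zero (W.mul_mem (hDlm a) hx), zero_smul]
      rw [h.dim]
      have := h.n_pos
      omega
  have h4 : W.cl _ c ∈ algClasses W (X.prod X) 2 := ⟨_, hc, rfl⟩
  rw [hEq, hc0', Fintype.sum_option, Fintype.sum_sum_type, Fintype.sum_sum_type,
    ← Finset.sum_add_distrib] at h4
  have hgq : Polynomial.aeval (q : W.K) g = ((Polynomial.eval (q : ℚ) g : ℚ) : W.K) := by
    have h6 : (q : W.K) = algebraMap ℚ W.K (q : ℚ) := by rw [map_natCast]
    rw [h6, Polynomial.aeval_algebraMap_apply, Polynomial.coe_aeval_eq_eval]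
    rfl
  have h7 : W.map (fst X X) (Dl none) *
      W.map (snd X X) (Polynomial.aeval (lamf (q : W.K) α (none : Ix N m)) g • E none) ∈
      algClasses W (X.prod X) 2 := by
    have h8 : W.map (fst X X) (Dl none) *
        W.map (snd X X) (Polynomial.aeval (lamf (q : W.K) α (none : Ix N m)) g • E none) =
        ((1 / δ * Polynomial.eval (q : ℚ) g : ℚ) : W.K) •
          (W.map (fst X X) ξ * W.map (snd X X) ξ) := by
      simp only [hDl, hE, DfR, Ef, lamf, hgq, map_smul, smul_mul_assoc, mul_smul_comm, smul_smul]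
      push_cast
      rw [mul_comm]
    rw [h8]
    exact alg_smul (alg_mul (alg_pull _ h.alg) (alg_pull _ h.alg)) _
  have h9 : ∑ j, W.map (fst X X) (Dl (iz j)) *
      W.map (snd X X) (Polynomial.aeval (lamf (q : W.K) α (iz j)) g • E (iz j)) ∈
      algClasses W (X.prod X) 2 := by
    apply FV.alg_sum
    intro j _
    have h8 : W.map (fst X X) (Dl (iz j)) *
        W.map (snd X X) (Polynomial.aeval (lamf (q : W.K) α (iz j)) g • E (iz j)) =
        ((-(2 * n - 1) / (δ * w j) * Polynomial.eval (q : ℚ) g : ℚ) : W.K) •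
          (W.map (fst X X) (z j) * W.map (snd X X) (z j)) := by
      simp only [hDl, hE, DfR, Ef, lamf, hgq, map_smul, smul_mul_assoc, mul_smul_comm, smul_smul]
      push_cast
      rw [mul_comm]
    rw [h8]
    exact alg_smul (alg_mul (alg_pull _ (hf.z_alg j)) (alg_pull _ (hf.z_alg j))) _
  have h10 := alg_sub (alg_sub h4 h7) h9
  rw [add_sub_cancel_left, add_sub_cancel_left] at h10
  have hρ : (ρ : W.K) ≠ 0 := Rat.cast_ne_zero.2 hf.ρ_pos.ne'
  have h11 := alg_smul h10 (δ * ρ / (2 * n - 1))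
  convert h11 using 1
  rw [Finset.smul_sum]
  refine Finset.sum_congr rfl fun i _ => ?_
  simp only [hDl, hE, DfR, Ef, lamf, map_smul, smul_mul_assoc, mul_smul_comm, smul_add, smul_smul]
  congr 2
  · push_cast
    field_simp
  · push_cast
    field_simp

/-- The data of a member of the family. -/
structure Mem (W : WeilCohomology.{u, v} ops) (X : 𝒱.Obj) (D : X.Cycles) (f : X ⟶ X) (q : ℕ)
    (z : Fin N → W.H X) (e e' : Fin m → W.H X) (α : Fin m → W.K)
    (Φ Ψ : MvPolynomial (Ix N m) W.K →ₐ[W.K] W.H X) : Prop where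
  val : ∀ a, Φ (MvPolynomial.X a) = Zf (W.cl X D) z e e' a
  vale : ∀ a, Ψ (MvPolynomial.X a) = Ef (W.cl X D) z e e' a
  rng : Algebra.adjoin W.K (W.gr X 2 : Set (W.H X)) ≤ Ψ.range
  div : X.IsCyc 1 D
  z_alg : ∀ j, z j ∈ algClasses W X 1
  e_mem : ∀ i, e i ∈ W.gr X 2
  e'_mem : ∀ i, e' i ∈ W.gr X 2
  eig : ∀ a, W.map f (Ef (W.cl X D) z e e' a) = lamf (q : W.K) α a • Ef (W.cl X D) z e e' a
  alg : ∀ g : Polynomial ℚ,
    ∑ i, (Polynomial.aeval (α i) g • (W.map (fst X X) (e' i) * W.map (snd X X) (e i)) +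
      Polynomial.aeval ((q : W.K) ^ 2 / α i) g •
        (W.map (fst X X) (e i) * W.map (snd X X) (e' i))) ∈ algClasses W (X.prod X) 2
  abs : ∀ i, ∃ P : Polynomial ℚ, P ≠ 0 ∧ Polynomial.aeval (α i) P = 0 ∧
    ∀ c : ℂ, Polynomial.aeval c P = 0 → ‖c‖ ^ 2 = (q : ℝ) ^ 2
  inj : ∀ i j, i ≠ j → α i ≠ α j
  ne2 : ∀ i j, α i * α j ≠ (q : W.K) ^ 2

theorem le_range {σ : Type*} {K H : Type*} [Field K] [Ring H] [Algebra K H]
    {Φ : MvPolynomial σ K →ₐ[K] H} {G : Set H}
    (h : ∀ g ∈ G, g ∈ Submodule.span K (Set.range fun a => Φ (MvPolynomial.X a))) :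
    Algebra.adjoin K G ≤ Φ.range := by
  apply Algebra.adjoin_le
  intro g hg
  have h2 : Submodule.span K (Set.range fun a => Φ (MvPolynomial.X a)) ≤
      Subalgebra.toSubmodule Φ.range := by
    rw [Submodule.span_le]
    rintro _ ⟨a, rfl⟩
    exact ⟨_, rfl⟩
  exact h2 (h g hg)

theorem range_le {σ : Type*} {K H : Type*} [Field K] [Ring H] [Algebra K H]
    {Φ : MvPolynomial σ K →ₐ[K] H} {A : Subalgebra K H}
    (h : ∀ a, Φ (MvPolynomial.X a) ∈ A) : Φ.range ≤ A := by
  rintro _ ⟨P, rfl⟩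
  change Φ P ∈ A
  induction P using MvPolynomial.induction_on with
  | C a =>
    rw [← algebraMap_eq, AlgHom.commutes]
    exact A.algebraMap_mem a
  | add p r hp hr => rw [map_add]; exact A.add_mem hp hr
  | mul_X p a hp => rw [map_mul]; exact A.mul_mem hp (h a)

/-- **The members of the family.** -/
theorem exists_mem (hn : 1 ≤ n) (hX : X.dim = 2 * n) (hD : X.IsCyc 1 D)
    (hdeg : 0 < X.V.degCycle (divPow ops D X.dim X.V.fundCycle)) (hI : HodgeIndex W X D)
    (hF : FujikiOn W X n (W.gr X 2)) (hHL : HardLefschetz W X D) (hB : LefschetzB W X D)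
    (hq : 1 ≤ q) (hw : HasWeight (W.map f).toLinearMap (W.gr X 2) ((q : ℝ) ^ 2))
    (hs : IsSpectrum W X f q 2 e e' α)
    (hnorm : ∃ r : ℚ, 0 < r ∧ ∀ i, W.tr X (e i * e' i * W.cl X D ^ (2 * n - 2)) = (r : W.K))
    (hpd : ∀ x ∈ Algebra.adjoin W.K (W.gr X 2 : Set (W.H X)),
      (∀ y ∈ Algebra.adjoin W.K (W.gr X 2 : Set (W.H X)), W.tr X (x * y) = 0) → x = 0) :
    ∃ (N : ℕ) (z : Fin N → W.H X) (w : Fin N → ℚ) (δ ρ : ℚ)
      (Φ Ψ : MvPolynomial (Ix N m) W.K →ₐ[W.K] W.H X),
      Gen W X D n δ w ρ Φ ∧ Mem W X D f q z e e' α Φ Ψ := by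
  have hq0 : (q : W.K) ≠ 0 := Nat.cast_ne_zero.2 (by omega)
  obtain ⟨β, h⟩ := exists_nf hn hX hD hdeg le_rfl (W.cl_mem (p := 1) hD) hF
  set ξ := W.cl X D with hξ
  obtain ⟨N, z, w, z1, z2, z3, z4, z5⟩ := exists_z h hD hI fun v hv => alg_mem hv
  have habs := fun i => eig_abs hw (hs.mem i) (hs.ne_zero i) (hs.eig i)
  have hα : ∀ i, α i ≠ 0 := fun i => eig_ne hq (habs i)
  obtain ⟨o1, o2, o3, o4⟩ := spec_orth' h hq hD hs hα
  obtain ⟨r, hr, hre⟩ := hnorm
  set δ := X.V.degCycle (divPow ops D X.dim X.V.fundCycle) with hδ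
  set ρ : ℚ := (2 * n - 1) * r / δ with hρ
  have hn1 : (0 : ℚ) < 2 * n - 1 := by
    have : (1 : ℚ) ≤ n := by exact_mod_cast hn
    linarith
  have hρ0 : 0 < ρ := div_pos (mul_pos hn1 hr) hdeg
  have hb : ∀ i, β (e i) (e' i) = (ρ : W.K) := by
    intro i
    have h1 := h.pol (hs.mem i) (hs.mem' i)
    rw [hre, (o1 ξ h.alg i).1, zero_mul, mul_zero, add_zero] at h1
    have hδ0 : (δ : W.K) ≠ 0 := Rat.cast_ne_zero.2 hdeg.ne'
    rw [hρ]
    push_cast
    rw [h1, mul_div_assoc, mul_comm, div_mul_cancel₀ _ hδ0]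
  have hf : FrameR W X ξ (W.gr X 2) β z w ρ e e' :=
    { z_alg := z1
      z_mem := fun j => alg_mem (z1 j)
      w_pos := z2
      ρ_pos := hρ0
      ξz := z3
      zz := z4
      e_mem := hs.mem
      e'_mem := hs.mem'
      ξe := fun i => (o1 ξ h.alg i).1
      ξe' := fun i => (o1 ξ h.alg i).2
      ze := fun j i => (o1 _ (z1 j) i).1
      ze' := fun j i => (o1 _ (z1 j) i).2
      ee := o2
      e'e' := o3
      ee' := fun i j => by
        by_cases hij : i = j
        · subst hij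
          rw [if_pos rfl, hb i]
        · rw [if_neg hij, o4 i j hij] }
  have hEig : ∀ a : Ix N m, W.map f (Ef ξ z e e' a) =
      lamf (q : W.K) α a • Ef ξ z e e' a := by
    intro a
    rcases a with _ | j | i | i
    · exact hs.div D hD
    · obtain ⟨c, hc, hc'⟩ := z1 j
      simp only [Ef, lamf]
      rw [← hc']
      exact hs.div c hc
    · exact hs.eig i
    · exact hs.eig'' hα i
  have hspan : W.gr X 2 ≤ Submodule.span W.K (Set.range (Ef ξ z e e' : Ix N m → W.H X)) := by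
    refine hs.span.trans ?_
    rw [Submodule.span_le]
    have hE : ∀ a : Ix N m, Ef ξ z e e' a ∈
        Submodule.span W.K (Set.range (Ef ξ z e e' : Ix N m → W.H X)) :=
      fun a => Submodule.subset_span ⟨a, rfl⟩
    rintro x ((hx | ⟨i, rfl⟩) | ⟨i, rfl⟩)
    · obtain ⟨a, r, rfl⟩ := z5 x hx
      exact Submodule.add_mem _ (Submodule.smul_mem _ _ (hE none))
        (Submodule.sum_mem _ fun i _ => Submodule.smul_mem _ _ (hE (iz i)))
    · exact hE (ip i)
    · exact hE (im i)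
  obtain ⟨⟨Φ, hΦ⟩, Ψ, hΨ⟩ := exists_Phi (N := N) (m := m) (z := z) (e := e) (e' := e')
    h.mem (fun j => alg_mem (z1 j)) hs.mem hf.e'_mem
  have hΨs : Algebra.adjoin W.K (W.gr X 2 : Set (W.H X)) ≤ Ψ.range := le_range fun g hg => by
    have h1 : (fun a => Ψ (MvPolynomial.X a)) = Ef ξ z e e' := funext hΨ
    rw [h1]
    exact hspan hg
  have hΦs : Algebra.adjoin W.K (W.gr X 2 : Set (W.H X)) ≤ Φ.range := le_range fun g hg => by
    have h2 : Submodule.span W.K (Set.range (Ef ξ z e e' : Ix N m → W.H X)) ≤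
        Submodule.span W.K (Set.range fun a => Φ (MvPolynomial.X a)) := by
      rw [Submodule.span_le]
      have h3 : ∀ a, Zf ξ z e e' a ∈
          Submodule.span W.K (Set.range fun a => Φ (MvPolynomial.X a)) :=
        fun a => Submodule.subset_span ⟨a, hΦ a⟩
      rintro _ ⟨a, rfl⟩
      rcases a with _ | j | i | i
      · exact h3 none
      · exact h3 (iz j)
      · have h4 : Ef ξ z e e' (ip i) = (1 / 2 : W.K) • (Zf ξ z e e' (ip i) +
            Zf ξ z e e' (im i)) := by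
          change e i = (1 / 2 : W.K) • ((e i + e' i) + (e i - e' i))
          rw [add_add_sub_cancel, ← two_smul W.K (e i), smul_smul]
          norm_num
        change Ef ξ z e e' (ip i) ∈ _
        rw [h4]
        exact Submodule.smul_mem _ _ (Submodule.add_mem _ (h3 _) (h3 _))
      · have h4 : Ef ξ z e e' (im i) = (1 / 2 : W.K) • (Zf ξ z e e' (ip i) -
            Zf ξ z e e' (im i)) := by
          change e' i = (1 / 2 : W.K) • ((e i + e' i) - (e i - e' i))
          rw [add_sub_sub_cancel, ← two_smul W.K (e' i), smul_smul]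
          norm_num
        change Ef ξ z e e' (im i) ∈ _
        rw [h4]
        exact Submodule.smul_mem _ _ (Submodule.sub_mem _ (h3 _) (h3 _))
    exact h2 (hspan hg)
  have hΦl : Φ.range ≤ Algebra.adjoin W.K (W.gr X 2 : Set (W.H X)) := range_le fun a => by
    rw [hΦ]
    exact Algebra.subset_adjoin (hf.Z_mem h a)
  refine ⟨N, z, w, δ, ρ, Φ, Ψ, ?_, ?_⟩
  · exact
      { fuj := hf.fujT h hΦ
        δ_pos := h.pos
        w_pos := z2
        ρ_pos := hρ0
        dim := hX
        mem := fun a => by rw [hΦ]; exact hf.Z_mem h a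
        nn := hΦ none
        div := hD
        pd := fun x hx hxy => hpd x (hΦl hx) fun y hy => hxy y (hΦs hy) }
  · exact
      { val := hΦ
        vale := hΨ
        rng := hΨs
        div := hD
        z_alg := z1
        e_mem := hs.mem
        e'_mem := hf.e'_mem
        eig := hEig
        alg := pair_alg h hD hHL hB hf hEig hspan
        abs := habs
        inj := fun i j hij => hs.inj le_rfl hq hα hij
        ne2 := fun i j => hs.ne2 le_rfl hq i j }

end Pool.Agent.K4H28.PF
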