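import Pool.Agent.K4H28.PF.Fl
import Pool.Agent.K4H28.FV.Ix

/-!
# The Hodge–Riemann relations for rational polynomials of given parity
-/

set_option autoImplicit false
set_option linter.unusedSectionVars false

namespace Pool.Agent.K4H28.PF

open MvPolynomial ComplexConjugate Pool.Agent.K4H28.FV

variable {N m : ℕ}

/-- The signs of the variables. -/
def s0 : Ix N m → ℤ
  | none => 1
  | some (Sum.inl _) => 1
  | some (Sum.inr (Sum.inl _)) => -1
  | some (Sum.inr (Sum.inr _)) => 1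

theorem s0_sq (i : Ix N m) : s0 i = 1 ∨ s0 i = -1 := by
  rcases i with _ | j | i | i
  · exact Or.inl rfl
  · exact Or.inl rfl
  · exact Or.inr rfl
  · exact Or.inl rfl

/-- The squares. -/
def qr (w : Fin N → ℚ) (ρ : ℚ) : Ix N m → ℚ
  | none => 1
  | some (Sum.inl j) => - w j
  | some (Sum.inr (Sum.inl _)) => 2 * ρ
  | some (Sum.inr (Sum.inr _)) => -(2 * ρ)

/-- The substitution. -/
noncomputable def kr (w : Fin N → ℚ) (ρ : ℚ) : Ix N m → ℂ
  | none => 1
  | some (Sum.inl j) => Complex.I * (√(w j : ℝ) : ℝ)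
  | some (Sum.inr (Sum.inl _)) => (√((2 * ρ : ℚ) : ℝ) : ℝ)
  | some (Sum.inr (Sum.inr _)) => Complex.I * (√((2 * ρ : ℚ) : ℝ) : ℝ)

theorem sq_sqrt_rat {x : ℚ} (hx : 0 < x) : ((√(x : ℝ) : ℝ) : ℂ) ^ 2 = (x : ℂ) := by
  have h1 : (0 : ℝ) ≤ x := by exact_mod_cast hx.le
  rw [← Complex.ofReal_pow, Real.sq_sqrt h1]
  simp

theorem kr_sq {w : Fin N → ℚ} {ρ : ℚ} (hw : ∀ j, 0 < w j) (hρ : 0 < ρ) (a : Ix N m) :
    kr w ρ a ^ 2 = (qr w ρ a : ℂ) := by
  have h2 : (0 : ℚ) < 2 * ρ := by linarith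
  rcases a with _ | j | i | i
  · simp [kr, qr]
  · simp only [kr, qr]
    rw [mul_pow, Complex.I_sq, sq_sqrt_rat (hw j)]
    push_cast
    ring
  · simp only [kr, qr]
    rw [sq_sqrt_rat h2]
  · simp only [kr, qr]
    rw [mul_pow, Complex.I_sq, sq_sqrt_rat h2]
    push_cast
    ring

theorem kr_ne {w : Fin N → ℚ} {ρ : ℚ} (hw : ∀ j, 0 < w j) (hρ : 0 < ρ) (a : Ix N m) :
    kr w ρ a ≠ 0 := by
  intro h
  have h1 := kr_sq hw hρ a
  rw [h, zero_pow two_ne_zero] at h1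
  have h2 : qr w ρ a ≠ 0 := by
    rcases a with _ | j | i | i
    · simp [qr]
    · simp only [qr]
      exact neg_ne_zero.2 (hw j).ne'
    · simp only [qr]
      exact mul_ne_zero two_ne_zero hρ.ne'
    · simp only [qr]
      exact neg_ne_zero.2 (mul_ne_zero two_ne_zero hρ.ne')
  exact h2 (by exact_mod_cast h1.symm)

/-- The homogeneous rational polynomials of given parity. -/
def PP (ε : ℤ) (l : ℕ) (F : MvPolynomial (Ix N m) ℚ) : Prop :=
  F.IsHomogeneous l ∧ fl s0 F = (ε : ℚ) • F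

section Gen

variable {σ : Type} [Fintype σ] [DecidableEq σ] {L : Type*} [Field L] [CharZero L]

theorem coeff_flp (o : σ) (F : MvPolynomial σ L) (γ : σ →₀ ℕ) :
    coeff γ (flp o F) = (-1 : L) ^ γ o * coeff γ F := by
  conv_lhs => rw [F.as_sum]
  rw [map_sum, coeff_sum]
  simp only [flp_mono, coeff_smul, coeff_monomial, smul_eq_mul]
  rw [Finset.sum_eq_single γ]
  · rw [if_pos rfl]
  · intro b _ hb
    rw [if_neg hb, mul_zero]
  · intro h
    rw [if_pos rfl, notMem_support_iff.1 h, mul_zero]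

theorem odd_dvd {o : σ} {G : MvPolynomial σ L} (h : flp o G = -G) : X o ∣ G := by
  rw [G.as_sum]
  apply Finset.dvd_sum
  intro γ hγ
  rw [X_dvd_monomial]
  right
  intro h0
  have h1 := congrArg (coeff γ) h
  rw [coeff_flp, h0, pow_zero, one_mul, coeff_neg] at h1
  have h2 : (2 : L) * coeff γ G = 0 := by linear_combination h1
  exact mem_support_iff.1 hγ ((mul_eq_zero.1 h2).resolve_left two_ne_zero)

theorem flp_flp (o : σ) (F : MvPolynomial σ L) : flp o (flp o F) = F := by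
  ext γ
  rw [coeff_flp, coeff_flp, ← mul_assoc, ← mul_pow]
  norm_num

theorem hom_flp {o : σ} {F : MvPolynomial σ L} {l : ℕ} (h : F.IsHomogeneous l) :
    (flp o F).IsHomogeneous l := by
  intro γ hγ
  rw [coeff_flp] at hγ
  exact h (right_ne_zero_of_mul hγ)

theorem fl_flp (s : σ → ℤ) (o : σ) (F : MvPolynomial σ L) :
    fl s (flp o F) = flp o (fl s F) := by
  ext γ
  rw [coeff_fl, coeff_flp, coeff_flp, coeff_fl]
  ring

theorem hom_of_X_mul {o : σ} {R : MvPolynomial σ L} {l : ℕ} (h : (X o * R).IsHomogeneous l) :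
    R = 0 ∨ ∃ l', l = l' + 1 ∧ R.IsHomogeneous l' := by
  rcases l with _ | l'
  · left
    by_contra h0
    obtain ⟨γ, hγ⟩ := MvPolynomial.ne_zero_iff.1 h0
    have h1 : coeff (Finsupp.single o 1 + γ) (X o * R) ≠ 0 := by
      rwa [coeff_X_mul]
    have h2 := h h1
    rw [map_add, Finsupp.weight_apply, Finsupp.sum_single_index (by simp)] at h2
    simp at h2
  · right
    refine ⟨l', rfl, fun γ hγ => ?_⟩
    have h1 : coeff (Finsupp.single o 1 + γ) (X o * R) ≠ 0 := by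
      rwa [coeff_X_mul]
    have h2 := h h1
    rw [map_add, Finsupp.weight_apply, Finsupp.sum_single_index (by simp)] at h2
    simp only [Pi.one_apply, smul_eq_mul, mul_one] at h2
    omega

end Gen

theorem PP.decomp {ε : ℤ} {l : ℕ} {F : MvPolynomial (Ix N m) ℚ} (h : PP ε l F) :
    ∃ F₀ R, PP ε l F₀ ∧ flp none F₀ = F₀ ∧ flp none R = R ∧ F = F₀ + X none * R ∧
      (R = 0 ∨ ∃ l', l = l' + 1 ∧ PP ε l' R) := by
  set F₀ : MvPolynomial (Ix N m) ℚ := (1 / 2 : ℚ) • (F + flp none F) with hF₀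
  set G : MvPolynomial (Ix N m) ℚ := (1 / 2 : ℚ) • (F - flp none F) with hG
  have hsm : ∀ (c : ℚ) {P : MvPolynomial (Ix N m) ℚ}, P.IsHomogeneous l →
      (c • P).IsHomogeneous l := by
    intro c P hP
    rw [smul_eq_C_mul]
    have := (isHomogeneous_C (Ix N m) c).mul hP
    rwa [zero_add] at this
  have h1 : PP ε l F₀ := by
    refine ⟨hsm _ (h.1.add (hom_flp h.1)), ?_⟩
    rw [hF₀, map_smul, map_add, fl_flp, h.2, map_smul, ← smul_add, smul_comm]
  have h2 : PP ε l G := by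
    refine ⟨hsm _ (h.1.sub (hom_flp h.1)), ?_⟩
    rw [hG, map_smul, map_sub, fl_flp, h.2, map_smul, ← smul_sub, smul_comm]
  have h3 : flp none G = -G := by
    rw [hG, map_smul, map_sub, flp_flp, ← smul_neg, neg_sub]
  obtain ⟨R, hR⟩ := odd_dvd h3
  have hX : (X none : MvPolynomial (Ix N m) ℚ) ≠ 0 := X_ne_zero _
  have hfR : flp none R = R := by
    rw [hR, map_mul, flp_X, if_pos rfl] at h3
    apply mul_left_cancel₀ hX
    linear_combination - h3
  refine ⟨F₀, R, h1, ?_, hfR, ?_, ?_⟩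
  · rw [hF₀, map_smul, map_add, flp_flp, add_comm]
  · rw [← hR, hF₀, hG, ← smul_add, add_add_sub_cancel, ← two_smul ℚ F, smul_smul]
    norm_num
  · rcases hom_of_X_mul (by rw [← hR]; exact h2.1) with h4 | ⟨l', rfl, h4⟩
    · exact Or.inl h4
    · refine Or.inr ⟨l', rfl, h4, ?_⟩
      have h5 := h2.2
      rw [hR, map_mul, fl_X] at h5
      apply mul_left_cancel₀ hX
      have h6 : (C ((s0 (none : Ix N m) : ℤ) : ℚ) : MvPolynomial (Ix N m) ℚ) = 1 := by
        rw [s0, Int.cast_one, C_1]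
      rw [h6, one_mul] at h5
      rw [h5, mul_smul_comm]

variable {n : ℕ} {c : ℚ} {w : Fin N → ℚ} {ρ : ℚ}

theorem wL_map (q : Ix N m → ℚ) (F : MvPolynomial (Ix N m) ℚ) :
    wL n c q ℂ (map (algebraMap ℚ ℂ) F) = ((wL n c q ℚ F : ℚ) : ℂ) := by
  conv_lhs => rw [F.as_sum]
  conv_rhs => rw [F.as_sum]
  rw [map_sum, map_sum, map_sum, Rat.cast_sum]
  refine Finset.sum_congr rfl fun γ _ => ?_
  rw [map_monomial, wL_mono, wL_mono]
  push_cast
  simp

/-- The signs of the substitution. -/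
def t0 : Ix N m → ℤ
  | none => 1
  | some (Sum.inl _) => -1
  | some (Sum.inr (Sum.inl _)) => 1
  | some (Sum.inr (Sum.inr _)) => -1

theorem conj_kr (w : Fin N → ℚ) (ρ : ℚ) (i : Ix N m) :
    conj (kr w ρ i) = (t0 i : ℂ) * kr w ρ i := by
  rcases i with _ | j | i | i
  · simp [kr, t0]
  · simp [kr, t0]
  · simp [kr, t0]
  · simp [kr, t0]

theorem t0_eq (i : Ix N m) : t0 i = -1 * s0 i * (if i = none then -1 else 1) := by
  rcases i with _ | j | i | i <;> simp [t0, s0]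

theorem sgn_t0 (γ : Ix N m →₀ ℕ) :
    sgn t0 γ = (-1) ^ (∑ i, γ i) * (-1) ^ γ none * sgn s0 γ := by
  rw [sgn, sgn]
  simp only [t0_eq, mul_pow, Finset.prod_mul_distrib]
  rw [Finset.prod_pow_eq_pow_sum]
  have h1 : ∏ i : Ix N m, (if i = none then (-1 : ℤ) else 1) ^ γ i = (-1) ^ γ none := by
    rw [Finset.prod_eq_single none]
    · simp
    · intro b _ hb
      rw [if_neg hb, one_pow]
    · intro h
      exact absurd (Finset.mem_univ _) h
  rw [h1]
  ring

theorem fl_t0 {k : ℕ} {G : MvPolynomial (Ix N m) ℂ} (hG : G.IsHomogeneous k) :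
    fl t0 G = (-1 : ℂ) ^ k • flp none (fl s0 G) := by
  ext γ
  rw [coeff_fl, coeff_smul, coeff_flp, coeff_fl, smul_eq_mul]
  by_cases h0 : coeff γ G = 0
  · rw [h0]; ring
  · have h1 : ∑ i, γ i = k := by
      have := hG h0
      rw [Finsupp.weight_apply, Finsupp.sum_fintype _ _ (fun i => by simp)] at this
      simpa using this
    rw [sgn_t0, h1]
    push_cast
    ring

theorem eval_fl (s : Ix N m → ℤ) (y : Ix N m → ℂ) (G : MvPolynomial (Ix N m) ℂ) :
    eval (fun i => (s i : ℂ) * y i) G = eval y (fl s G) := by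
  have h1 : (eval fun i => (s i : ℂ) * y i) = (eval y).comp
      (fl s : MvPolynomial (Ix N m) ℂ →ₐ[ℂ] _).toRingHom := by
    ext i
    · simp
    · simp [fl_X]
  rw [h1]
  rfl

theorem fl_map (s : Ix N m → ℤ) (F : MvPolynomial (Ix N m) ℚ) :
    fl s (map (algebraMap ℚ ℂ) F) = map (algebraMap ℚ ℂ) (fl s F) := by
  ext γ
  rw [coeff_fl, coeff_map, coeff_map, coeff_fl]
  simp

/-- Positivity. -/
theorem PP.pos (hc : 0 < c) (hw : ∀ j, 0 < w j) (hρ : 0 < ρ) {ε : ℤ} (hε : ε = 1 ∨ ε = -1) {k m' : ℕ}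
    (hkm : k + m' = n) {F : MvPolynomial (Ix N m) ℚ} (h : PP ε k F) (he : flp none F = F)
    (hF0 : F ≠ 0) : 0 < ε * (-1) ^ k * wL n c (qr w ρ) ℚ (F ^ 2 * X none ^ (2 * m')) := by
  obtain ⟨u, hu1, hu2, hu3⟩ : ∃ u : ℂ, u * u = ε ∧ conj u * ε = u ∧ u ≠ 0 := by
    rcases hε with rfl | rfl
    · exact ⟨1, by simp, by simp, one_ne_zero⟩
    · exact ⟨Complex.I, by simp, by simp, Complex.I_ne_zero⟩
  set G : MvPolynomial (Ix N m) ℂ := map (algebraMap ℚ ℂ) F with hG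
  have hGh : G.IsHomogeneous k := h.1.map _
  have hG0 : G ≠ 0 := by
    intro h0
    apply hF0
    exact map_injective _ (algebraMap ℚ ℂ).injective (by rw [← hG, h0, map_zero])
  have hGe : flp none G = G := by
    rw [hG, ← map_flp, he]
  have hGs : fl s0 G = (ε : ℂ) • G := by
    rw [hG, fl_map, h.2, smul_eq_C_mul, map_mul, map_C, smul_eq_C_mul]
    simp
  have hCu : flp none (C u : MvPolynomial (Ix N m) ℂ) = C u := AlgHom.commutes _ _
  have hCG : (C u * G).IsHomogeneous k := by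
    have := (isHomogeneous_C (Ix N m) u).mul hGh
    rwa [zero_add] at this
  have hCe : flp none (C u * G) = C u * G := by rw [map_mul, hGe, hCu]
  have hC0 : C u * G ≠ 0 := mul_ne_zero (by rwa [Ne, C_eq_zero]) hG0
  suffices hgood : Good (kr w ρ) none k (map (RingHom.id ℂ) (C u * G)) by
    have h1 := (pos_even hc (kr_sq hw hρ) (kr_ne hw hρ) none (by simp [kr]) (RingHom.id ℂ) hkm
      hCG hgood hCe hC0).1
    have h2 : (C u * G) ^ 2 * X none ^ (2 * m') =
        (ε : ℂ) • map (algebraMap ℚ ℂ) (F ^ 2 * X none ^ (2 * m')) := by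
      rw [smul_eq_C_mul, ← hu1, map_mul, map_mul, map_pow, map_pow, map_X, ← hG]
      ring
    rw [h2, map_smul, wL_map, RingHom.id_apply, smul_eq_mul] at h1
    have h3 : ((-1 : ℂ) ^ k * ((ε : ℂ) * ((wL n c (qr w ρ) ℚ (F ^ 2 * X none ^ (2 * m')) : ℚ) : ℂ))) =
        ((ε * (-1) ^ k * wL n c (qr w ρ) ℚ (F ^ 2 * X none ^ (2 * m')) : ℚ) : ℂ) := by
      push_cast
      ring
    rw [h3, Complex.ratCast_re] at h1
    exact_mod_cast h1
  intro x
  rw [map_id, map_mul (flp none), hCu, map_mul, eval_C, map_mul, map_mul, eval_C]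
  have h2 : conj (eval (fun i => kr w ρ i * (x i : ℂ)) G) =
      eval (fun i => (t0 i : ℂ) * (kr w ρ i * (x i : ℂ))) G := by
    have h3 : (starRingEnd ℂ).comp ((eval fun i => kr w ρ i * (x i : ℂ)).comp
        (map (algebraMap ℚ ℂ))) = (eval fun i => (t0 i : ℂ) * (kr w ρ i * (x i : ℂ))).comp
        (map (algebraMap ℚ ℂ)) := by
      ext i
      · simp
      · simp only [RingHom.comp_apply, map_X, eval_X, map_mul, conj_kr, Complex.conj_ofReal]
        ring
    exact RingHom.congr_fun h3 F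
  rw [h2, eval_fl, fl_t0 hGh, hGs, map_smul (flp none), smul_eval, smul_eval, hGe]
  linear_combination ((-1) ^ k * eval (fun i => kr w ρ i * (x i : ℂ)) G) * hu2

theorem PP.sq_zero (hc : 0 < c) (hw : ∀ j, 0 < w j) (hρ : 0 < ρ) {ε : ℤ} (hε : ε = 1 ∨ ε = -1) {k m' : ℕ}
    (hkm : k + m' = n) {F : MvPolynomial (Ix N m) ℚ} (h : PP ε k F) (he : flp none F = F)
    (h0 : wL n c (qr w ρ) ℚ (F ^ 2 * X none ^ (2 * m')) = 0) : F = 0 := by
  by_contra hne
  have h1 := h.pos hc hw hρ hε hkm he hne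
  rw [h0, mul_zero] at h1
  exact lt_irrefl _ h1

theorem X_hom : (X none : MvPolynomial (Ix N m) ℚ).IsHomogeneous 1 := isHomogeneous_X _ _

theorem PP.X_mul {ε : ℤ} {l : ℕ} {F : MvPolynomial (Ix N m) ℚ} (h : PP ε l F) :
    PP ε (l + 1) (X none * F) := by
  constructor
  · rw [add_comm]
    exact X_hom.mul h.1
  · rw [map_mul, fl_X, h.2, s0, Int.cast_one, C_1, one_mul, mul_smul_comm]

/-- **Nondegeneracy.** -/
theorem PP.nd (hc : 0 < c) (hw : ∀ j, 0 < w j) (hρ : 0 < ρ) {ε : ℤ} (hε : ε = 1 ∨ ε = -1) {k m' : ℕ}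
    (hkm : k + m' = n) {F : MvPolynomial (Ix N m) ℚ} (h : PP ε k F)
    (h0 : ∀ G, PP ε k G → wL n c (qr w ρ) ℚ (F * X none ^ (2 * m') * G) = 0) : F = 0 := by
  obtain ⟨F₀, R, hF₀, he, heR, hFR, hR⟩ := h.decomp
  have hF₀0 : F₀ = 0 := by
    have h1 := h0 F₀ hF₀
    have h2 : F * X none ^ (2 * m') * F₀ = F₀ ^ 2 * X none ^ (2 * m') +
        X none ^ (2 * m' + 1) * R * F₀ := by rw [hFR]; ring
    have h3 : wL n c (qr w ρ) ℚ (X none ^ (2 * m' + 1) * R * F₀) = 0 := by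
      apply wL_odd (o := none)
      rw [map_mul, map_mul, map_pow, he, heR, flp_X, if_pos rfl, Odd.neg_pow ⟨m', rfl⟩]
      ring
    rw [h2, map_add, h3, add_zero] at h1
    exact hF₀.sq_zero hc hw hρ hε hkm he h1
  rw [hF₀0, zero_add] at hFR
  rcases hR with hR | ⟨k', rfl, hR⟩
  · rw [hFR, hR, mul_zero]
  · have h1 := h0 _ hR.X_mul
    have h2 : F * X none ^ (2 * m') * (X none * R) = R ^ 2 * X none ^ (2 * (m' + 1)) := by
      rw [hFR]; ring
    rw [h2] at h1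
    rw [hFR, hR.sq_zero hc hw hρ hε (by omega) heR h1, mul_zero]

/-- **The Hodge–Riemann relations.** -/
theorem PP.hr (hc : 0 < c) (hw : ∀ j, 0 < w j) (hρ : 0 < ρ) {ε : ℤ} (hε : ε = 1 ∨ ε = -1) {k m' : ℕ}
    (hkm : k + m' = n) {F : MvPolynomial (Ix N m) ℚ} (h : PP ε k F) (hF0 : F ≠ 0)
    (h0 : ∀ k' G, k = k' + 1 → PP ε k' G →
      wL n c (qr w ρ) ℚ (F * X none ^ (2 * m' + 1) * G) = 0) :
    0 < ε * (-1) ^ k * wL n c (qr w ρ) ℚ (F ^ 2 * X none ^ (2 * m')) := by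
  obtain ⟨F₀, R, hF₀, he, heR, hFR, hR⟩ := h.decomp
  have hR0 : R = 0 := by
    rcases hR with hR | ⟨k', rfl, hR⟩
    · exact hR
    · have h1 := h0 k' R rfl hR
      have h2 : F * X none ^ (2 * m' + 1) * R = F₀ * X none ^ (2 * m' + 1) * R +
          R ^ 2 * X none ^ (2 * (m' + 1)) := by rw [hFR]; ring
      have h3 : wL n c (qr w ρ) ℚ (F₀ * X none ^ (2 * m' + 1) * R) = 0 := by
        apply wL_odd (o := none)
        rw [map_mul, map_mul, map_pow, he, heR, flp_X, if_pos rfl, Odd.neg_pow ⟨m', rfl⟩]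
        ring
      rw [h2, map_add, h3, zero_add] at h1
      exact hR.sq_zero hc hw hρ hε (by omega) heR h1
  rw [hR0, mul_zero, add_zero] at hFR
  subst hFR
  exact hF₀.pos hc hw hρ hε hkm he hF0

end Pool.Agent.K4H28.PF
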