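import Pool.Agent.K4H28.FV.Geo8

/-!
# Balanced monomials in the variables of several factors
-/

set_option autoImplicit false
set_option linter.unusedSectionVars false

namespace Pool.Agent.K4H28.PF

open MvPolynomial Pool.Agent.K4H28.FV

section Upd

variable {B : Type*} [DecidableEq B]

theorem prod_upd {R : Type*} [CommMonoid R] {u : B → R} {S : Finset B} {x : B → ℕ} {b : B}
    (hb : b ∈ S) (hx : 0 < x b) :
    ∏ c ∈ S, u c ^ x c = u b * ∏ c ∈ S, u c ^ Function.update x b (x b - 1) c := by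
  rw [← Finset.mul_prod_erase S _ hb, ← Finset.mul_prod_erase S _ hb, Function.update_self,
    ← mul_assoc, ← pow_succ']
  congr 1
  · congr 1; omega
  · refine Finset.prod_congr rfl fun c hc => ?_
    rw [Function.update_of_ne (Finset.ne_of_mem_erase hc)]

theorem sum_upd {S : Finset B} {x : B → ℕ} {b : B} (hb : b ∈ S) (hx : 0 < x b) :
    ∑ c ∈ S, x c = 1 + ∑ c ∈ S, Function.update x b (x b - 1) c := by
  rw [← Finset.add_sum_erase S _ hb, ← Finset.add_sum_erase S _ hb, Function.update_self]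
  have h1 : ∑ c ∈ S.erase b, x c = ∑ c ∈ S.erase b, Function.update x b (x b - 1) c := by
    refine Finset.sum_congr rfl fun c hc => ?_
    rw [Function.update_of_ne (Finset.ne_of_mem_erase hc)]
  rw [h1]
  omega

theorem exists_pos {S : Finset B} {x : B → ℕ} {M : ℕ} (h : ∑ b ∈ S, x b = M + 1) :
    ∃ b ∈ S, 0 < x b := by
  by_contra h0
  push Not at h0
  rw [Finset.sum_eq_zero fun b hb => Nat.le_zero.1 (h0 b hb)] at h
  omega

end Upd

theorem GP.uv {R B : Type*} [CommRing R] [DecidableEq B] {p : ℕ → R → Prop} (h : GP p)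
    {u v : B → R} {S : Finset B} (huv : ∀ b ∈ S, ∀ b' ∈ S, p 2 (u b * v b')) (M : ℕ) :
    ∀ x y : B → ℕ, ∑ b ∈ S, x b = M → ∑ b ∈ S, y b = M →
      p (M * 2) ((∏ b ∈ S, u b ^ x b) * ∏ b ∈ S, v b ^ y b) := by
  induction M with
  | zero =>
    intro x y hx hy
    rw [Finset.sum_eq_zero_iff] at hx hy
    rw [Finset.prod_eq_one fun b hb => by rw [hx b hb, pow_zero],
      Finset.prod_eq_one fun b hb => by rw [hy b hb, pow_zero], one_mul, zero_mul]
    exact h.one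
  | succ M ih =>
    intro x y hx hy
    obtain ⟨b, hb, hb'⟩ := exists_pos hx
    obtain ⟨c, hc, hc'⟩ := exists_pos hy
    rw [sum_upd hb hb', add_comm] at hx
    rw [sum_upd hc hc', add_comm] at hy
    rw [prod_upd hb hb', prod_upd hc hc']
    have h1 := h.mul (ih _ _ (Nat.succ.inj hx) (Nat.succ.inj hy)) (huv b hb c hc)
    rw [add_mul, one_mul]
    convert h1 using 1
    ring

/-- The products over the fibres. -/
theorem GP.fib {R B T : Type*} [CommRing R] [Fintype B] [DecidableEq B] [Fintype T]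
    [DecidableEq T] {p : ℕ → R → Prop} (h : GP p) {u v : B → R} (π : B → T)
    (huv : ∀ b b', π b = π b' → p 2 (u b * v b')) {x y : B → ℕ}
    (hxy : ∀ t, ∑ b with π b = t, x b = ∑ b with π b = t, y b) :
    p (∑ b, x b + ∑ b, y b) ((∏ b, u b ^ x b) * ∏ b, v b ^ y b) := by
  rw [← Finset.prod_fiberwise Finset.univ π (fun b => u b ^ x b),
    ← Finset.prod_fiberwise Finset.univ π (fun b => v b ^ y b), ← Finset.prod_mul_distrib,
    ← Finset.sum_fiberwise Finset.univ π x, ← Finset.sum_fiberwise Finset.univ π y,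
    ← Finset.sum_add_distrib]
  refine h.prod Finset.univ fun t _ => ?_
  rw [← hxy t, ← mul_two]
  refine GP.uv h ?_ _ x y rfl (hxy t).symm
  intro b hb b' hb'
  rw [Finset.mem_filter] at hb hb'
  exact huv b b' (hb.2.trans hb'.2.symm)

variable {A : Type} [Fintype A] [DecidableEq A] {N m : A → ℕ}

theorem prod_SI {M : Type*} [CommMonoid M] (g : (Σ a, Ix (N a) (m a)) → M) :
    ∏ x, g x = (∏ a, g ⟨a, none⟩) * ((∏ b : Σ a, Fin (N a), g ⟨b.1, iz b.2⟩) *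
      ((∏ b : Σ a, Fin (m a), g ⟨b.1, ip b.2⟩) * ∏ b : Σ a, Fin (m a), g ⟨b.1, im b.2⟩)) := by
  rw [Fintype.prod_sigma, Fintype.prod_sigma, Fintype.prod_sigma, Fintype.prod_sigma,
    ← Finset.prod_mul_distrib, ← Finset.prod_mul_distrib, ← Finset.prod_mul_distrib]
  refine Finset.prod_congr rfl fun a _ => ?_
  rw [Fintype.prod_option, Fintype.prod_sum_type, Fintype.prod_sum_type]

theorem sum_SI (g : (Σ a, Ix (N a) (m a)) → ℕ) :
    ∑ x, g x = (∑ a, g ⟨a, none⟩) + ((∑ b : Σ a, Fin (N a), g ⟨b.1, iz b.2⟩) +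
      ((∑ b : Σ a, Fin (m a), g ⟨b.1, ip b.2⟩) + ∑ b : Σ a, Fin (m a), g ⟨b.1, im b.2⟩)) := by
  rw [Fintype.sum_sigma, Fintype.sum_sigma, Fintype.sum_sigma, Fintype.sum_sigma,
    ← Finset.sum_add_distrib, ← Finset.sum_add_distrib, ← Finset.sum_add_distrib]
  refine Finset.sum_congr rfl fun a _ => ?_
  rw [Fintype.sum_option, Fintype.sum_sum_type, Fintype.sum_sum_type]

/-- A balanced monomial. -/
theorem GP.mono {K : Type*} [Field K] {p : ℕ → MvPolynomial (Σ a, Ix (N a) (m a)) K → Prop}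
    (h : GP p) {T : Type*} [Fintype T] [DecidableEq T] (π : (Σ a, Fin (m a)) → T)
    (h0 : ∀ a, p 1 (X ⟨a, none⟩)) (hz : ∀ a j, p 1 (X ⟨a, iz j⟩))
    (huv : ∀ b b', π b = π b' → p 2 (X ⟨b.1, ip b.2⟩ * X ⟨b'.1, im b'.2⟩))
    {γ : (Σ a, Ix (N a) (m a)) →₀ ℕ}
    (hγ : ∀ t, ∑ b with π b = t, γ ⟨b.1, ip b.2⟩ = ∑ b with π b = t, γ ⟨b.1, im b.2⟩) :
    p (∑ x, γ x) (monomial γ 1) := by
  rw [mono_one, prod_SI, sum_SI γ]
  refine h.mul ?_ (h.mul ?_ (GP.fib h π huv hγ))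
  · have := h.prod Finset.univ (d := fun a => γ ⟨a, none⟩ * 1)
      (f := fun a => X (⟨a, none⟩ : Σ a, Ix (N a) (m a)) ^ γ ⟨a, none⟩)
      (fun a _ => h.pow (h0 a) _)
    simpa only [mul_one] using this
  · have := h.prod Finset.univ (d := fun b : Σ a, Fin (N a) => γ ⟨b.1, iz b.2⟩ * 1)
      (f := fun b => X (⟨b.1, iz b.2⟩ : Σ a, Ix (N a) (m a)) ^ γ ⟨b.1, iz b.2⟩)
      (fun b _ => h.pow (hz b.1 b.2) _)
    simpa only [mul_one] using this

/-- The eigenvalues of the variables. -/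
def lmf {K : Type*} [Field K] (q : K) (α : (Σ a, Fin (m a)) → K) :
    (Σ a, Ix (N a) (m a)) → K :=
  fun x => lamf q (fun i => α ⟨x.1, i⟩) x.2

/-- The independence implies that the monomial is balanced. -/
theorem bal_of_rel {K : Type*} [Field K] {T : Type*} [Fintype T] [DecidableEq T]
    (π : (Σ a, Fin (m a)) → T) {α : T → K} {q : K} (hq : q ≠ 0) (hα : ∀ t, α t ≠ 0)
    (hind : ∀ M : ℕ, 1 ≤ M → ∀ c : T → ℤ, ∏ t, (α t / q) ^ ((M : ℤ) * c t) = 1 → c = 0)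
    {M j : ℕ} (hM : 1 ≤ M) {γ : (Σ a, Ix (N a) (m a)) →₀ ℕ} (hj : ∑ x, γ x = j)
    (hγ : (∏ x, lmf q (fun b => α (π b)) x ^ γ x) ^ M = q ^ (M * j)) (t : T) :
    ∑ b with π b = t, γ ⟨b.1, ip b.2⟩ = ∑ b with π b = t, γ ⟨b.1, im b.2⟩ := by
  have h1 := hind M hM (fun t => ∑ b with π b = t, ((γ ⟨b.1, ip b.2⟩ : ℤ) - γ ⟨b.1, im b.2⟩)) (by
    have h2 : ∀ t, (α t / q) ^ ((M : ℤ) * ∑ b with π b = t,
        ((γ ⟨b.1, ip b.2⟩ : ℤ) - γ ⟨b.1, im b.2⟩)) = ∏ b with π b = t,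
          (α (π b) ^ γ ⟨b.1, ip b.2⟩ * (q ^ 2 / α (π b)) ^ γ ⟨b.1, im b.2⟩ *
            (q ^ (γ ⟨b.1, ip b.2⟩ + γ ⟨b.1, im b.2⟩))⁻¹) ^ M := by
      intro t
      have h3 : ∀ (s : Finset (Σ a, Fin (m a))) (d : (Σ a, Fin (m a)) → ℤ),
          (α t / q) ^ ((M : ℤ) * ∑ b ∈ s, d b) = ∏ b ∈ s, (α t / q) ^ ((M : ℤ) * d b) := by
        intro s d
        induction s using Finset.induction_on with
        | empty => simp
        | insert a s ha ih =>
          rw [Finset.sum_insert ha, Finset.prod_insert ha, mul_add,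
            zpow_add₀ (div_ne_zero (hα t) hq), ih]
      rw [h3]
      refine Finset.prod_congr rfl fun b hb => ?_
      rw [Finset.mem_filter] at hb
      rw [hb.2]
      have hαi := hα t
      rw [mul_comm (M : ℤ), zpow_mul, zpow_natCast, zpow_sub₀ (div_ne_zero hαi hq),
        zpow_natCast, zpow_natCast]
      congr 1
      rw [div_pow, div_pow, div_pow, pow_add]
      field_simp
      ring
    simp only [h2]
    rw [Finset.prod_fiberwise, Finset.prod_pow, Finset.prod_mul_distrib,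
      Finset.prod_mul_distrib, Finset.prod_inv_distrib, Finset.prod_pow_eq_pow_sum]
    rw [prod_SI] at hγ
    simp only [lmf, lamf] at hγ
    rw [Finset.prod_pow_eq_pow_sum, Finset.prod_pow_eq_pow_sum] at hγ
    rw [sum_SI] at hj
    obtain ⟨P, hP⟩ : ∃ P, P = (∏ b : Σ a, Fin (m a), α (π b) ^ γ ⟨b.1, ip b.2⟩) *
      ∏ b : Σ a, Fin (m a), (q ^ 2 / α (π b)) ^ γ ⟨b.1, im b.2⟩ := ⟨_, rfl⟩
    rw [← hP] at hγ ⊢
    rw [Finset.sum_add_distrib]
    obtain ⟨s, hs⟩ : ∃ s, s = (∑ b : Σ a, Fin (m a), γ ⟨b.1, ip b.2⟩) +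
      ∑ b : Σ a, Fin (m a), γ ⟨b.1, im b.2⟩ := ⟨_, rfl⟩
    obtain ⟨s1, hs1⟩ : ∃ s1, s1 = ∑ a : A, γ ⟨a, none⟩ := ⟨_, rfl⟩
    obtain ⟨s2, hs2⟩ : ∃ s2, s2 = ∑ b : Σ a, Fin (N a), γ ⟨b.1, iz b.2⟩ := ⟨_, rfl⟩
    rw [← hs, ← hs1, ← hs2] at hj
    rw [← hs1, ← hs2] at hγ
    rw [← hs]
    have h4 : P ^ M = q ^ (M * s) := by
      apply mul_left_cancel₀ (pow_ne_zero ((s1 + s2) * M) hq)
      rw [← pow_add]
      have h5 : q ^ ((s1 + s2) * M) * P ^ M = (q ^ s1 * (q ^ s2 * P)) ^ M := by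
        rw [mul_pow, mul_pow, ← pow_mul, ← pow_mul, add_mul, pow_add]
        ring
      rw [h5, hγ, ← hj]
      congr 1
      ring
    rw [mul_pow, h4, inv_pow, ← pow_mul, mul_comm M, mul_inv_cancel₀ (pow_ne_zero _ hq)])
  have h7 := congrFun h1 t
  simp only [Pi.zero_apply, Finset.sum_sub_distrib, sub_eq_zero] at h7
  exact_mod_cast h7

end Pool.Agent.K4H28.PF
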