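import Pool.Agent.K4H28.PF.Mem
import Pool.Agent.K4H28.PF.Uv

/-!
# Real algebraic classes
-/

set_option autoImplicit false
set_option linter.unusedSectionVars false

open CategoryTheory AlgebraicGeometry

universe u v

namespace Pool.Agent.K4H28.PF

open Pool.Agent.H914 VarClass Obj WeilCohomology MvPolynomial ComplexConjugate
  Pool.Agent.K4H28.FV

variable {N m : ℕ} {k : Type u} [Field k] {𝒱 : VarClass k} {ops : CycleOps 𝒱}
  {W : WeilCohomology.{u, v} ops} {X Y : 𝒱.Obj} {D : X.Cycles}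
  {f : X ⟶ X} {q : ℕ} {z : Fin N → W.H X} {e e' : Fin m → W.H X} {α : Fin m → W.K}
  {Φ Ψ : MvPolynomial (Ix N m) W.K →ₐ[W.K] W.H X} {L : Type*} [Field L] [CharZero L]
  [Algebra L W.K] {σ : Type} [Fintype σ] {Θ : MvPolynomial σ W.K →ₐ[W.K] W.H Y} {ι : L →+* ℂ}
  {s : σ → ℤ}

/-- The algebraic classes of real polynomials. -/
def RA (Θ : MvPolynomial σ W.K →ₐ[W.K] W.H Y) (ι : L →+* ℂ) (s : σ → ℤ) (j : ℕ)
    (y : W.H Y) : Prop :=
  y ∈ algClasses W Y j ∧ ∃ F : MvPolynomial σ L, Rl ι s F ∧ Θ (map (algebraMap L W.K) F) = y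

theorem RA.zero {j : ℕ} : RA Θ ι s j 0 :=
  ⟨FV.alg_zero j, 0, Rl.zero, by rw [map_zero, map_zero]⟩

theorem RA.one : RA Θ ι s 0 1 := ⟨alg_one, 1, Rl.one, by rw [map_one, map_one]⟩

theorem RA.add {j : ℕ} {x y : W.H Y} (hx : RA Θ ι s j x) (hy : RA Θ ι s j y) :
    RA Θ ι s j (x + y) := by
  obtain ⟨h1, F, hF, rfl⟩ := hx
  obtain ⟨h2, G, hG, rfl⟩ := hy
  exact ⟨FV.alg_add h1 h2, F + G, hF.add hG, by rw [map_add, map_add]⟩

theorem RA.mul {i j : ℕ} {x y : W.H Y} (hx : RA Θ ι s i x) (hy : RA Θ ι s j y) :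
    RA Θ ι s (i + j) (x * y) := by
  obtain ⟨h1, F, hF, rfl⟩ := hx
  obtain ⟨h2, G, hG, rfl⟩ := hy
  exact ⟨FV.alg_mul h1 h2, F * G, hF.mul hG, by rw [map_mul, map_mul]⟩

theorem RA.smul {j : ℕ} {x : W.H Y} (hx : RA Θ ι s j x) (r : ℚ) :
    RA Θ ι s j ((r : W.K) • x) := by
  obtain ⟨h1, F, hF, rfl⟩ := hx
  refine ⟨FV.alg_smul h1 r, (r : L) • F, hF.rat r, ?_⟩
  rw [smul_eq_C_mul, map_mul, map_C, map_ratCast, ← smul_eq_C_mul, map_smul]

theorem RA.ratSub (j : ℕ) : Pool.Agent.W552.RatSub W.K (RA Θ ι s j) :=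
  ⟨RA.zero, fun h h' => h.add h', fun r _ h => h.smul r⟩

/-- The combinations of algebraic classes of real polynomials. -/
def SR (Θ : MvPolynomial σ W.K →ₐ[W.K] W.H Y) (ι : L →+* ℂ) (s : σ → ℤ) (j : ℕ)
    (y : W.H Y) : Prop :=
  y ∈ Submodule.span W.K {y | RA Θ ι s j y}

theorem SR.one : SR Θ ι s 0 1 := Submodule.subset_span RA.one

theorem SR.mul {i j : ℕ} {x y : W.H Y} (hx : SR Θ ι s i x) (hy : SR Θ ι s j y) :
    SR Θ ι s (i + j) (x * y) := by
  unfold SR at hx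
  induction hx using Submodule.span_induction with
  | zero => rw [zero_mul]; exact Submodule.zero_mem _
  | add _ _ _ _ h1 h2 => rw [add_mul]; exact Submodule.add_mem _ h1 h2
  | smul a _ _ h1 => rw [smul_mul_assoc]; exact Submodule.smul_mem _ a h1
  | mem x hx =>
    unfold SR at hy
    induction hy using Submodule.span_induction with
    | zero => rw [mul_zero]; exact Submodule.zero_mem _
    | add _ _ _ _ h1 h2 => rw [mul_add]; exact Submodule.add_mem _ h1 h2
    | smul a _ _ h1 => rw [mul_smul_comm]; exact Submodule.smul_mem _ a h1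
    | mem y hy => exact Submodule.subset_span (hx.mul hy)

theorem SR.gp (Ξ : MvPolynomial σ W.K →ₐ[W.K] W.H Y) : GP fun j P => SR Θ ι s j (Ξ P) :=
  ⟨by rw [map_one]; exact SR.one, fun h1 h2 => by rw [map_mul]; exact h1.mul h2⟩

theorem SR.alg {j : ℕ} {x : W.H Y} (h : SR Θ ι s j x) :
    x ∈ Submodule.span W.K (algClasses W Y j) :=
  Submodule.span_mono (fun _ hy => hy.1) h

section Pair

variable {a a' : Fin m → L} {jp jm jp' jm' : Fin m → σ}

/-- The polynomial of the class. -/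
noncomputable def Fg (jp jm jp' jm' : Fin m → σ) (a a' : Fin m → L) (g : Polynomial ℚ) :
    MvPolynomial σ L :=
  ∑ i, (C (1 / 4 * (Polynomial.aeval (a i) g + Polynomial.aeval (a' i) g)) *
      (MvPolynomial.X (jp i) * MvPolynomial.X (jp' i)) +
    C (-(1 / 4) * (Polynomial.aeval (a i) g + Polynomial.aeval (a' i) g)) *
      (MvPolynomial.X (jm i) * MvPolynomial.X (jm' i)) +
    C (1 / 4 * (Polynomial.aeval (a i) g - Polynomial.aeval (a' i) g)) *
      (MvPolynomial.X (jp i) * MvPolynomial.X (jm' i)) +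
    C (-(1 / 4) * (Polynomial.aeval (a i) g - Polynomial.aeval (a' i) g)) *
      (MvPolynomial.X (jm i) * MvPolynomial.X (jp' i)))

theorem Fg_real (hc : ∀ i, conj (ι (a i)) = ι (a' i)) (s₁ : ∀ i, s (jp i) = -1)
    (s₂ : ∀ i, s (jm i) = 1) (s₃ : ∀ i, s (jp' i) = -1) (s₄ : ∀ i, s (jm' i) = 1)
    (g : Polynomial ℚ) : Rl ι s (Fg jp jm jp' jm' a a' g) := by
  have hsum : ∀ (t : Finset (Fin m)) (G : Fin m → MvPolynomial σ L), (∀ i, Rl ι s (G i)) →
      Rl ι s (∑ i ∈ t, G i) := by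
    intro t G hG
    classical
    induction t using Finset.induction_on with
    | empty => rw [Finset.sum_empty]; exact Rl.zero
    | insert a t ha ih => rw [Finset.sum_insert ha]; exact (hG a).add ih
  apply hsum
  intro i
  have hc' : conj (ι (a' i)) = ι (a i) := by rw [← hc, Complex.conj_conj]
  have h1 : conj (ι (Polynomial.aeval (a i) g)) = ι (Polynomial.aeval (a' i) g) := by
    rw [hom_aeval ι, hom_aeval ι, hom_aeval (starRingEnd ℂ), hc]
  have h2 : conj (ι (Polynomial.aeval (a' i) g)) = ι (Polynomial.aeval (a i) g) := by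
    rw [hom_aeval ι, hom_aeval ι, hom_aeval (starRingEnd ℂ), hc']
  have h4 : ι (1 / 4) = 1 / 4 := by rw [map_div₀, map_one, map_ofNat]
  have h5 : conj (1 / 4 : ℂ) = 1 / 4 := by rw [map_div₀, map_one, map_ofNat]
  refine ((Rl.add (Rl.quad ?_) (Rl.quad ?_)).add (Rl.quad ?_)).add (Rl.quad ?_)
  all_goals
    simp only [map_mul, map_add, map_sub, map_neg, h1, h2, h4, h5, s₁, s₂, s₃, s₄]
    push_cast
    ring

theorem Fg_val {p₁ p₂ : Fin m → W.H Y} {p₁' p₂' : Fin m → W.H Y}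
    (ha : ∀ i, algebraMap L W.K (a i) = α i)
    (ha' : ∀ i, algebraMap L W.K (a' i) = (q : W.K) ^ 2 / α i)
    (h₁ : ∀ i, Θ (MvPolynomial.X (jp i)) = p₁ i + p₁' i)
    (h₁' : ∀ i, Θ (MvPolynomial.X (jm i)) = p₁ i - p₁' i)
    (h₂ : ∀ i, Θ (MvPolynomial.X (jp' i)) = p₂ i + p₂' i)
    (h₂' : ∀ i, Θ (MvPolynomial.X (jm' i)) = p₂ i - p₂' i) (g : Polynomial ℚ) :
    Θ (map (algebraMap L W.K) (Fg jp jm jp' jm' a a' g)) =
      ∑ i, (Polynomial.aeval (α i) g • (p₁' i * p₂ i) +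
        Polynomial.aeval ((q : W.K) ^ 2 / α i) g • (p₁ i * p₂' i)) := by
  rw [Fg, map_sum, map_sum]
  refine Finset.sum_congr rfl fun i _ => ?_
  have hCm : ∀ (c : L) (P : MvPolynomial σ L), Θ (map (algebraMap L W.K) (C c * P)) =
      algebraMap L W.K c • Θ (map (algebraMap L W.K) P) := by
    intro c P
    rw [map_mul, map_C, ← smul_eq_C_mul, map_smul]
  rw [map_add, map_add, map_add, map_add, map_add, map_add, hCm, hCm, hCm, hCm]
  simp only [map_mul, map_X, h₁, h₁', h₂, h₂', map_add, map_sub, map_neg, hom_aeval, ha, ha',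
    map_div₀, map_one, map_ofNat, mul_add, add_mul, mul_sub, sub_mul]
  module

variable {X₁ X₂ : 𝒱.Obj} {e₁ e₁' : Fin m → W.H X₁} {e₂ e₂' : Fin m → W.H X₂}

/-- The classes of the powers of the endomorphism. -/
def LinkAll (W : WeilCohomology.{u, v} ops) (q : ℕ) (e₁ e₁' : Fin m → W.H X₁)
    (e₂ e₂' : Fin m → W.H X₂) (α : Fin m → W.K) : Prop :=
  ∀ g : Polynomial ℚ,
    ∑ i, (Polynomial.aeval (α i) g • (W.map (fst X₁ X₂) (e₁' i) * W.map (snd X₁ X₂) (e₂ i)) +
      Polynomial.aeval ((q : W.K) ^ 2 / α i) g •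
        (W.map (fst X₁ X₂) (e₁ i) * W.map (snd X₁ X₂) (e₂' i))) ∈ algClasses W (X₁.prod X₂) 2

theorem link_all {f₂ : X₂ ⟶ X₂} (hf : ∀ i, W.map f₂ (e₂ i) = α i • e₂ i)
    (hf' : ∀ i, W.map f₂ (e₂' i) = ((q : W.K) ^ 2 / α i) • e₂' i)
    (h : ∑ i, (W.map (fst X₁ X₂) (e₁' i) * W.map (snd X₁ X₂) (e₂ i) +
      W.map (fst X₁ X₂) (e₁ i) * W.map (snd X₁ X₂) (e₂' i)) ∈ algClasses W (X₁.prod X₂) 2) :
    LinkAll W q e₁ e₁' e₂ e₂' α := by
  have h1 : ∀ d : ℕ, ∑ i, (α i ^ d • (W.map (fst X₁ X₂) (e₁' i) * W.map (snd X₁ X₂) (e₂ i)) +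
      ((q : W.K) ^ 2 / α i) ^ d • (W.map (fst X₁ X₂) (e₁ i) * W.map (snd X₁ X₂) (e₂' i))) ∈
        algClasses W (X₁.prod X₂) 2 := by
    intro d
    induction d with
    | zero => simpa only [pow_zero, one_smul] using h
    | succ d ih =>
      have h2 := alg_pull (Obj.lift (fst X₁ X₂) (snd X₁ X₂ ≫ f₂)) ih
      rw [map_sum] at h2
      convert h2 using 1
      refine Finset.sum_congr rfl fun i _ => ?_
      simp only [map_add, map_smul, map_mul, ← W.map_comp, Obj.lift_fst, Obj.lift_snd]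
      rw [W.map_comp (snd X₁ X₂) f₂, W.map_comp (snd X₁ X₂) f₂, hf, hf', map_smul, map_smul,
        mul_smul_comm, mul_smul_comm, smul_smul, smul_smul, pow_succ, pow_succ]
  intro g
  induction g using Polynomial.induction_on' with
  | add p r hp hr =>
    have h3 := FV.alg_add hp hr
    rw [← Finset.sum_add_distrib] at h3
    convert h3 using 1
    refine Finset.sum_congr rfl fun l _ => ?_
    rw [map_add, map_add]
    module
  | monomial d c =>
    have h3 := FV.alg_smul (h1 d) c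
    rw [Finset.smul_sum] at h3
    convert h3 using 1
    refine Finset.sum_congr rfl fun l _ => ?_
    rw [Polynomial.aeval_monomial, Polynomial.aeval_monomial, smul_add, smul_smul, smul_smul]
    rfl

/-- The product of two dual eigenvectors on two factors. -/
theorem pair_span (hinj : ∀ i j, i ≠ j → α i ≠ α j) (hne2 : ∀ i j, α i * α j ≠ (q : W.K) ^ 2)
    (hl : LinkAll W q e₁ e₁' e₂ e₂' α)
    (ha : ∀ i, algebraMap L W.K (a i) = α i)
    (ha' : ∀ i, algebraMap L W.K (a' i) = (q : W.K) ^ 2 / α i)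
    (hc : ∀ i, conj (ι (a i)) = ι (a' i)) (hα : ∀ i, α i ≠ 0) (hq : 1 ≤ q)
    (π₁ : Y ⟶ X₁) (π₂ : Y ⟶ X₂)
    (h₁ : ∀ i, Θ (MvPolynomial.X (jp i)) = W.map π₁ (e₁ i + e₁' i))
    (h₁' : ∀ i, Θ (MvPolynomial.X (jm i)) = W.map π₁ (e₁ i - e₁' i))
    (h₂ : ∀ i, Θ (MvPolynomial.X (jp' i)) = W.map π₂ (e₂ i + e₂' i))
    (h₂' : ∀ i, Θ (MvPolynomial.X (jm' i)) = W.map π₂ (e₂ i - e₂' i))
    (s₁ : ∀ i, s (jp i) = -1) (s₂ : ∀ i, s (jm i) = 1) (s₃ : ∀ i, s (jp' i) = -1)
    (s₄ : ∀ i, s (jm' i) = 1) (i : Fin m) :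
    SR Θ ι s 2 (W.map π₁ (e₁ i) * W.map π₂ (e₂' i)) := by
  classical
  have hq0 : (q : W.K) ≠ 0 := Nat.cast_ne_zero.2 (by omega)
  have hval := fun g => Fg_val (Y := Y) (Θ := Θ) (L := L) (jp := jp) (jm := jm) (jp' := jp')
    (jm' := jm') (a := a)
    (a' := a') (α := α) (q := q) (p₁ := fun i => W.map π₁ (e₁ i))
    (p₂ := fun i => W.map π₂ (e₂ i))
    (p₁' := fun i => W.map π₁ (e₁' i)) (p₂' := fun i => W.map π₂ (e₂' i)) ha ha'
    (fun i => by rw [h₁, map_add]) (fun i => by rw [h₁', map_sub])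
    (fun i => by rw [h₂, map_add]) (fun i => by rw [h₂', map_sub]) g
  have hRA : ∀ g : Polynomial ℚ, RA Θ ι s 2
      (∑ i, (Polynomial.aeval (α i) g • (W.map π₁ (e₁' i) * W.map π₂ (e₂ i)) +
        Polynomial.aeval ((q : W.K) ^ 2 / α i) g • (W.map π₁ (e₁ i) * W.map π₂ (e₂' i)))) := by
    intro g
    refine ⟨?_, Fg jp jm jp' jm' a a' g, Fg_real hc s₁ s₂ s₃ s₄ g, hval g⟩
    have h3 := alg_pull (Obj.lift π₁ π₂) (hl g)
    rw [map_sum] at h3
    convert h3 using 1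
    refine Finset.sum_congr rfl fun i _ => ?_
    simp only [map_add, map_smul, map_mul, ← W.map_comp, Obj.lift_fst, Obj.lift_snd]
  have key : ∀ h : Polynomial W.K,
      (∑ l, (h.eval (α l) • (W.map π₁ (e₁' l) * W.map π₂ (e₂ l)) +
        h.eval ((q : W.K) ^ 2 / α l) • (W.map π₁ (e₁ l) * W.map π₂ (e₂' l)))) ∈
        Submodule.span W.K {y | RA Θ ι s 2 y} := by
    intro h
    induction h using Polynomial.induction_on' with
    | add p r hp hr =>
      have h3 := Submodule.add_mem _ hp hr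
      rw [← Finset.sum_add_distrib] at h3
      convert h3 using 1
      refine Finset.sum_congr rfl fun l _ => ?_
      rw [Polynomial.eval_add, Polynomial.eval_add]
      module
    | monomial d c =>
      have h2 : _ ∈ {y | RA Θ ι s 2 y} := hRA (Polynomial.X ^ d)
      have h3 := Submodule.smul_mem _ c (Submodule.subset_span (R := W.K) h2)
      rw [Finset.smul_sum] at h3
      convert h3 using 1
      refine Finset.sum_congr rfl fun l _ => ?_
      rw [Polynomial.eval_monomial, Polynomial.eval_monomial, map_pow, map_pow,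
        Polynomial.aeval_X, Polynomial.aeval_X]
      module
  obtain ⟨h, hh1, hh2⟩ := interp (Finset.univ.image α ∪
    Finset.univ.image fun i => (q : W.K) ^ 2 / α i) ((q : W.K) ^ 2 / α i)
  have h3 := key h
  have h4 : ∑ l, (h.eval (α l) • (W.map π₁ (e₁' l) * W.map π₂ (e₂ l)) +
      h.eval ((q : W.K) ^ 2 / α l) • (W.map π₁ (e₁ l) * W.map π₂ (e₂' l))) =
      W.map π₁ (e₁ i) * W.map π₂ (e₂' i) := by
    have h5 : ∀ l, h.eval (α l) = 0 := by
      intro l
      apply hh2 _ (by simp)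
      intro h0
      apply hne2 i l
      rw [h0, mul_div_assoc', mul_div_assoc, mul_comm, div_mul_cancel₀ _ (hα i)]
    rw [Finset.sum_eq_single i]
    · rw [hh1, h5, zero_smul, zero_add, one_smul]
    · intro l _ hl
      rw [h5, zero_smul, zero_add, hh2 _ (by simp), zero_smul]
      intro h0
      apply hinj l i hl
      have h6 := hα l
      have h7 := hα i
      field_simp at h0
      exact h0.symm
    · intro h
      exact absurd (Finset.mem_univ i) h
  rwa [h4] at h3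

end Pair

/-- The eigenvalue of a monomial. -/
theorem map_mono' {g : Y ⟶ Y} {E : σ → W.H Y} (hΘ : ∀ a, Θ (MvPolynomial.X a) = E a)
    {lam : σ → W.K} (hE : ∀ a, W.map g (E a) = lam a • E a) (γ : σ →₀ ℕ) :
    W.map g (Θ (monomial γ 1)) = (∏ a, lam a ^ γ a) • Θ (monomial γ 1) := by
  have h1 : (W.map g).comp Θ = Θ.comp (aeval fun a => C (lam a) * MvPolynomial.X a) := by
    apply MvPolynomial.algHom_ext
    intro a
    rw [AlgHom.comp_apply, AlgHom.comp_apply, aeval_X, hΘ, hE, ← smul_eq_C_mul, map_smul, hΘ]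
  have h2 := AlgHom.congr_fun h1 (monomial γ 1)
  rw [AlgHom.comp_apply, AlgHom.comp_apply] at h2
  rw [h2, mono_one, map_prod, ← map_smul]
  congr 1
  simp only [map_pow, aeval_X, mul_pow, Finset.prod_mul_distrib]
  rw [smul_eq_C_mul, map_prod]
  simp only [map_pow]

/-- An invariant class is a combination of invariant monomials. -/
theorem cut' {g : Y ⟶ Y} {E : σ → W.H Y} (hΘ : ∀ a, Θ (MvPolynomial.X a) = E a)
    {lam : σ → W.K} (hE : ∀ a, W.map g (E a) = lam a • E a) {M : ℕ} {μ : W.K}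
    {P : MvPolynomial σ W.K} (hx : ((W.map g).toLinearMap ^ M) (Θ P) = μ • Θ P) :
    ∃ c : (σ →₀ ℕ) → W.K, Θ P = Θ (∑ γ ∈ P.support, c γ • monomial γ 1) ∧
      ∀ γ ∈ P.support, c γ ≠ 0 → (∏ a, lam a ^ γ a) ^ M = μ := by
  classical
  set lm : (σ →₀ ℕ) → W.K := fun γ => (∏ a, lam a ^ γ a) ^ M with hlm
  obtain ⟨h, hh1, hh2⟩ := interp (P.support.image lm) μ
  have hmono : ∀ γ, ((W.map g).toLinearMap ^ M) (Θ (monomial γ 1)) =
      lm γ • Θ (monomial γ 1) := by
    intro γ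
    have h1 := map_mono' hΘ hE γ
    have h2 : ∀ i, ((W.map g).toLinearMap ^ i) (Θ (monomial γ 1)) =
        (∏ a, lam a ^ γ a) ^ i • Θ (monomial γ 1) := by
      intro i
      induction i with
      | zero => rw [pow_zero, pow_zero, one_smul, Module.End.one_apply]
      | succ i ih =>
        rw [pow_succ', Module.End.mul_apply, ih, map_smul, pow_succ, mul_smul]
        congr 1
    exact h2 M
  refine ⟨fun γ => P.coeff γ * h.eval (lm γ), ?_, ?_⟩
  · have h3 : (Polynomial.aeval ((W.map g).toLinearMap ^ M) h) (Θ P) = Θ P := by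
      rw [FV.aeval_eig hx, hh1, one_smul]
    rw [← h3]
    conv_lhs => rw [P.as_sum]
    rw [map_sum, map_sum, map_sum]
    refine Finset.sum_congr rfl fun γ _ => ?_
    have h4 : monomial γ (coeff γ P) = coeff γ P • monomial γ (1 : W.K) := by
      rw [smul_monomial, smul_eq_mul, mul_one]
    rw [h4, map_smul, map_smul, FV.aeval_eig (hmono γ), map_smul, smul_smul]
  · intro γ hγ hc
    by_contra hne
    apply hc
    change coeff γ P * h.eval (lm γ) = 0
    rw [hh2 _ (Finset.mem_image_of_mem _ hγ) hne, mul_zero]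

end Pool.Agent.K4H28.PF
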