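import Pool.Agent.K4H28.PF.Prod1
import Pool.Agent.K4H28.PF.Bas2
import Pool.Agent.W552.FrobMain

/-!
# Products of the members
-/

set_option autoImplicit false
set_option linter.unusedSectionVars false

open CategoryTheory AlgebraicGeometry

universe u v

namespace Pool.Agent.K4H28.PF

open Pool.Agent.H914 VarClass Obj WeilCohomology MvPolynomial ComplexConjugate
  Pool.Agent.K4H28.FV Pool.Agent.H281R3.HT Pool.Agent.W552

variable {k : Type u} [Field k] {𝒱 : VarClass k} {ops : CycleOps 𝒱}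
  {W : WeilCohomology.{u, v} ops}

theorem prod_top {X Y : 𝒱.Obj} (R : Subalgebra W.K (W.H (X.prod Y)))
    (h1 : ∀ x, W.map (fst X Y) x ∈ R) (h2 : R.comap (W.map (snd X Y)) = ⊤) : R = ⊤ := by
  rw [eq_top_iff]
  intro x _
  refine W.kunneth_induction (p := fun x => x ∈ R) ?_ ?_ x
  · intro a b ha hb
    exact R.add_mem ha hb
  · intro i j a _ b _
    refine R.mul_mem (h1 a) ?_
    have h3 : b ∈ R.comap (W.map (snd X Y)) := by
      rw [h2]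
      exact Algebra.mem_top
    exact h3

theorem mem_comap_aux {X Y Z : 𝒱.Obj} (g : X ⟶ Y) (h : Y ⟶ Z) (R : Subalgebra W.K (W.H X))
    (x : W.H Z) (hx : W.map (g ≫ h) x ∈ R) : W.map h x ∈ R.comap (W.map g) := by
  rw [Subalgebra.mem_comap, ← W.map_comp]
  exact hx

theorem top_of_id {X : 𝒱.Obj} (R : Subalgebra W.K (W.H X)) (h : ∀ x, W.map (𝟙 X) x ∈ R) :
    R = ⊤ := by
  rw [eq_top_iff]
  intro x _
  have h1 := h x
  rwa [W.map_id] at h1

/-- The cohomology of the product is generated by the pull-backs. -/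
theorem nest_top (n : ℕ) (P : Fin (n + 1) → Polarized 𝒱)
    (R : Subalgebra W.K (W.H (nest ops n P).X))
    (hR : ∀ a x, W.map (prj ops n P a) x ∈ R) : R = ⊤ := by
  induction n with
  | zero => exact top_of_id (X := (P 0).X) R (fun x => hR 0 x)
  | succ n ih =>
    exact prod_top (X := (P 0).X) (Y := (nest ops n (fun i => P i.succ)).X) R
      (fun x => hR 0 x) (ih (fun i => P i.succ) _ (fun a x => mem_comap_aux _ _ R x (hR a.succ x)))

/-- The subalgebra generated by the pull-backs of the classes of degree two on the factors. -/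
noncomputable def H2alg (W : WeilCohomology.{u, v} ops) (n : ℕ)
    (P : Fin (n + 1) → Polarized 𝒱) : Subalgebra W.K (W.H (nest ops n P).X) :=
  Algebra.adjoin W.K {x | ∃ a, ∃ y ∈ W.gr (P a).X 2, W.map (prj ops n P a) y = x}

theorem pull_H2alg {n : ℕ} {P : Fin (n + 1) → Polarized 𝒱} (a : Fin (n + 1))
    {x : W.H (P a).X} (hx : x ∈ Algebra.adjoin W.K (W.gr (P a).X 2 : Set (W.H (P a).X))) :
    W.map (prj ops n P a) x ∈ H2alg W n P := by
  have h1 : Algebra.adjoin W.K (W.gr (P a).X 2 : Set (W.H (P a).X)) ≤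
      (H2alg W n P).comap (W.map (prj ops n P a)) := by
    apply Algebra.adjoin_le
    intro y hy
    exact Algebra.subset_adjoin ⟨a, y, hy, rfl⟩
  exact h1 hx

theorem H2alg_top {n : ℕ} {P : Fin (n + 1) → Polarized 𝒱}
    (h : ∀ a, Algebra.adjoin W.K (W.gr (P a).X 2 : Set (W.H (P a).X)) = ⊤) :
    H2alg W n P = ⊤ := by
  apply nest_top
  intro a x
  apply pull_H2alg
  rw [h]
  exact Algebra.mem_top

variable {Tt : Type} {Mb : Tt → Type} {Pm : (Σ t, Mb t) → Polarized 𝒱}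
  {f : ∀ l, (Pm l).X ⟶ (Pm l).X} {q : ℕ}
  {N : (Σ t, Mb t) → ℕ} {m : Tt → ℕ} {z : ∀ l, Fin (N l) → W.H (Pm l).X}
  {e e' : ∀ l : (Σ t, Mb t), Fin (m l.1) → W.H (Pm l).X}
  {α : ∀ t, Fin (m t) → W.K}
  {Φ Ψ : ∀ l : (Σ t, Mb t), MvPolynomial (Ix (N l) (m l.1)) W.K →ₐ[W.K] W.H (Pm l).X}
  {n : ℕ} {τ : Fin (n + 1) → Σ t, Mb t}

variable (ops Pm) in
/-- The product of the members. -/
noncomputable abbrev NP (τ : Fin (n + 1) → Σ t, Mb t) : Polarized 𝒱 :=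
  nest ops n fun a => Pm (τ a)

/-- The variables. -/
abbrev SI (N : (Σ t, Mb t) → ℕ) (m : Tt → ℕ) (τ : Fin (n + 1) → Σ t, Mb t) : Type :=
  Σ a, Ix (N (τ a)) (m (τ a).1)

variable (ops Pm) in
/-- The projection to a factor equal to a given member. -/
noncomputable def pr (τ : Fin (n + 1) → Σ t, Mb t) (a : Fin (n + 1)) {l : Σ t, Mb t}
    (h : τ a = l) : (NP ops Pm τ).X ⟶ (Pm l).X := by
  subst h
  exact prj ops n (fun a => Pm (τ a)) a

/-- The variables of a factor equal to a given member. -/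
def jx (τ : Fin (n + 1) → Σ t, Mb t) (a : Fin (n + 1)) {l : Σ t, Mb t} (h : τ a = l)
    (x : Ix (N l) (m l.1)) : SI N m τ := by
  subst h
  exact ⟨a, x⟩

theorem jx_s0 (a : Fin (n + 1)) {l : Σ t, Mb t} (h : τ a = l) (x : Ix (N l) (m l.1)) :
    (fun y : SI N m τ => s0 y.2) (jx τ a h x) = s0 x := by
  subst h
  rfl

theorem jx_val {Θ : MvPolynomial (SI N m τ) W.K →ₐ[W.K] W.H (NP ops Pm τ).X}
    {Z : ∀ l : (Σ t, Mb t), Ix (N l) (m l.1) → W.H (Pm l).X}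
    (hΘ : ∀ a x, Θ (MvPolynomial.X ⟨a, x⟩) = W.map (prj ops n (fun a => Pm (τ a)) a) (Z (τ a) x))
    (a : Fin (n + 1)) {l : Σ t, Mb t} (h : τ a = l) (x : Ix (N l) (m l.1)) :
    Θ (MvPolynomial.X (jx τ a h x)) = W.map (pr ops Pm τ a h) (Z l x) := by
  subst h
  exact hΘ a x

theorem exists_theta (Z : ∀ l : (Σ t, Mb t), Ix (N l) (m l.1) → W.H (Pm l).X)
    (hZ : ∀ l x, Z l x ∈ W.gr (Pm l).X 2) :
    ∃ Θ : MvPolynomial (SI N m τ) W.K →ₐ[W.K] W.H (NP ops Pm τ).X, ∀ a x,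
      Θ (MvPolynomial.X ⟨a, x⟩) = W.map (prj ops n (fun a => Pm (τ a)) a) (Z (τ a) x) := by
  obtain ⟨Θ, hΘ⟩ := exists_hom (K := W.K) (H := W.H (NP ops Pm τ).X) (σ := SI N m τ)
    (fun y => W.map (prj ops n (fun a => Pm (τ a)) y.1) (Z (τ y.1) y.2)) (fun y y' =>
      two_comm (W.map_mem _ (hZ _ _)) _)
  exact ⟨Θ, fun a x => hΘ ⟨a, x⟩⟩

theorem theta_rng {Θ : MvPolynomial (SI N m τ) W.K →ₐ[W.K] W.H (NP ops Pm τ).X}
    {Z : ∀ l : (Σ t, Mb t), Ix (N l) (m l.1) → W.H (Pm l).X}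
    (hΘ : ∀ a x, Θ (MvPolynomial.X ⟨a, x⟩) = W.map (prj ops n (fun a => Pm (τ a)) a) (Z (τ a) x))
    (hΨ : ∀ l x, Ψ l (MvPolynomial.X x) = Z l x)
    (hs : ∀ l, Algebra.adjoin W.K (W.gr (Pm l).X 2 : Set (W.H (Pm l).X)) ≤ (Ψ l).range) :
    H2alg W n (fun a => Pm (τ a)) ≤ Θ.range := by
  apply Algebra.adjoin_le
  rintro _ ⟨a, y, hy, rfl⟩
  obtain ⟨Q, rfl⟩ := hs (τ a) (Algebra.subset_adjoin hy)
  refine ⟨rename (fun y => (⟨a, y⟩ : SI N m τ)) Q, ?_⟩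
  have h2 : Θ.comp (rename (fun y => (⟨a, y⟩ : SI N m τ))) =
      (W.map (prj ops n (fun a => Pm (τ a)) a)).comp (Ψ (τ a)) := by
    apply MvPolynomial.algHom_ext
    intro y
    rw [AlgHom.comp_apply, rename_X, hΘ, AlgHom.comp_apply, hΨ]
  exact AlgHom.congr_fun h2 Q

/-- **The Tate classes on the product are combinations of real algebraic classes.** -/
theorem tate_span [Fintype Tt] [DecidableEq Tt] (hq : 1 ≤ q)
    (hM : ∀ l, Mem W (Pm l).X (Pm l).D (f l) q (z l) (e l) (e' l) (α l.1) (Φ l) (Ψ l))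
    (hlink : ∀ t (s s' : Mb t),
      LinkAll W q (e ⟨t, s⟩) (e' ⟨t, s⟩) (e ⟨t, s'⟩) (e' ⟨t, s'⟩) (α t))
    (hα : ∀ t i, α t i ≠ 0)
    (hind : ∀ M : ℕ, 1 ≤ M → ∀ c : (Σ t, Fin (m t)) → ℤ,
      ∏ t : Σ t, Fin (m t), (α t.1 t.2 / (q : W.K)) ^ ((M : ℤ) * c t) = 1 → c = 0)
    {L : Type v} [Field L] [CharZero L] [Algebra L W.K] {ι : L →+* ℂ}
    {a a' : ∀ t, Fin (m t) → L} (ha : ∀ t i, algebraMap L W.K (a t i) = α t i)
    (ha' : ∀ t i, algebraMap L W.K (a' t i) = (q : W.K) ^ 2 / α t i)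
    (hc : ∀ t i, conj (ι (a t i)) = ι (a' t i))
    {Θ : MvPolynomial (SI N m τ) W.K →ₐ[W.K] W.H (NP ops Pm τ).X}
    (hΘ : ∀ a x, Θ (MvPolynomial.X ⟨a, x⟩) = W.map (prj ops n (fun a => Pm (τ a)) a)
      (Φ (τ a) (MvPolynomial.X x)))
    {j : ℕ} {x : W.H (NP ops Pm τ).X} (hx : x ∈ W.gr (NP ops Pm τ).X (2 * j))
    (hxA : x ∈ H2alg W n (fun a => Pm (τ a))) {M : ℕ}
    (hM1 : 1 ≤ M) (hxM : ((W.map (nestMap ops n (fun a => Pm (τ a))
      (fun a => f (τ a)))).toLinearMap ^ M) x = (q : W.K) ^ (M * j) • x) :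
    SR Θ ι (fun y : SI N m τ => s0 y.2) j x := by
  have hq0 : (q : W.K) ≠ 0 := Nat.cast_ne_zero.2 (by omega)
  set E : ∀ l : (Σ t, Mb t), Ix (N l) (m l.1) → W.H (Pm l).X :=
    fun l => Ef (W.cl (Pm l).X (Pm l).D) (z l) (e l) (e' l) with hE
  have hD : ∀ l, W.cl (Pm l).X (Pm l).D ∈ W.gr (Pm l).X 2 := fun l => W.cl_mem (hM l).div
  have hEg : ∀ l x, E l x ∈ W.gr (Pm l).X 2 := fun l x =>
    Ef_mem (hD l) (fun j => alg_mem ((hM l).z_alg j)) (hM l).e_mem (hM l).e'_mem x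
  obtain ⟨Ξ, hΞ⟩ := exists_theta (N := N) (m := m) (τ := τ) E hEg
  have hΞs : H2alg W n (fun a => Pm (τ a)) ≤ Ξ.range := theta_rng hΞ
    (fun l x => (hM l).vale x) (fun l => (hM l).rng)
  have hΞg : ∀ y : SI N m τ, Ξ (MvPolynomial.X y) ∈ W.gr (NP ops Pm τ).X 2 := by
    rintro ⟨a, x⟩
    rw [hΞ]
    exact W.map_mem _ (hEg _ _)
  have hΘ' : ∀ a x, Θ (MvPolynomial.X ⟨a, x⟩) = W.map (prj ops n (fun a => Pm (τ a)) a)
      ((fun l => Zf (W.cl (Pm l).X (Pm l).D) (z l) (e l) (e' l)) (τ a) x) := by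
    intro a x
    rw [hΘ, (hM _).val]
  have hval : ∀ (b : Fin (n + 1)) {l : Σ t, Mb t} (h : τ b = l) (x : Ix (N l) (m l.1)),
      Θ (MvPolynomial.X (jx τ b h x)) = W.map (pr ops Pm τ b h)
        (Zf (W.cl (Pm l).X (Pm l).D) (z l) (e l) (e' l) x) := fun b l h x =>
    jx_val (N := N) (m := m)
      (Z := fun l => Zf (W.cl (Pm l).X (Pm l).D) (z l) (e l) (e' l)) hΘ' b h x
  -- the products of the eigenvectors
  have hA : ∀ (t : Tt) (s s' : Mb t) (b b' : Fin (n + 1)) (h : τ b = ⟨t, s⟩)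
      (h' : τ b' = ⟨t, s'⟩) (i : Fin (m t)), SR Θ ι (fun y : SI N m τ => s0 y.2) 2
        (W.map (pr ops Pm τ b h) (e ⟨t, s⟩ i) * W.map (pr ops Pm τ b' h') (e' ⟨t, s'⟩ i)) := by
    intro t s s' b b' h h' i
    exact pair_span (Θ := Θ) (s := fun y : SI N m τ => s0 y.2)
      (jp := fun i => jx (N := N) (m := m) τ b h (ip i))
      (jm := fun i => jx (N := N) (m := m) τ b h (im i))
      (jp' := fun i => jx (N := N) (m := m) τ b' h' (ip i))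
      (jm' := fun i => jx (N := N) (m := m) τ b' h' (im i))
      (hM ⟨t, s⟩).inj (hM ⟨t, s⟩).ne2 (hlink t s s') (ha t) (ha' t) (hc t) (hα t) hq
      (pr ops Pm τ b h) (pr ops Pm τ b' h')
      (fun i => hval b h (ip i)) (fun i => hval b h (im i))
      (fun i => hval b' h' (ip i)) (fun i => hval b' h' (im i))
      (fun i => jx_s0 b h (ip i)) (fun i => jx_s0 b h (im i))
      (fun i => jx_s0 b' h' (ip i)) (fun i => jx_s0 b' h' (im i)) i
  have hB : ∀ (b b' : Fin (n + 1)) (l l' : Σ t, Mb t) (h : τ b = l) (h' : τ b' = l')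
      (i : Fin (m l.1)) (i' : Fin (m l'.1)), (⟨l.1, i⟩ : Σ t, Fin (m t)) = ⟨l'.1, i'⟩ →
      SR Θ ι (fun y : SI N m τ => s0 y.2) 2
        (W.map (pr ops Pm τ b h) (e l i) * W.map (pr ops Pm τ b' h') (e' l' i')) := by
    rintro b b' ⟨t, s⟩ ⟨t', s'⟩ h h' i i' hii
    obtain ⟨htt, hi⟩ := Sigma.mk.inj_iff.1 hii
    change t = t' at htt
    subst htt
    obtain rfl := eq_of_heq hi
    exact hA t s s' b b' h h' i
  have huv : ∀ b b' : Σ a, Fin (m (τ a).1),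
      (⟨(τ b.1).1, b.2⟩ : Σ t, Fin (m t)) = ⟨(τ b'.1).1, b'.2⟩ →
      SR Θ ι (fun y : SI N m τ => s0 y.2) 2
        (Ξ (MvPolynomial.X ⟨b.1, ip b.2⟩ * MvPolynomial.X ⟨b'.1, im b'.2⟩)) := by
    intro b b' hbb
    rw [map_mul, hΞ, hΞ]
    exact hB b.1 b'.1 _ _ rfl rfl b.2 b'.2 hbb
  obtain ⟨P, hP, rfl⟩ := exists_homP hΞg (hΞs hxA) hx
  obtain ⟨c, hc1, hc2⟩ := cut' (g := nestMap ops n (fun a => Pm (τ a)) (fun a => f (τ a)))
    (Θ := Ξ) (E := fun y => W.map (prj ops n (fun a => Pm (τ a)) y.1) (E (τ y.1) y.2))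
    (fun y => hΞ y.1 y.2)
    (lam := lmf (N := fun a => N (τ a)) (q : W.K) fun b : Σ a, Fin (m (τ a).1) =>
      (fun t : Σ t, Fin (m t) => α t.1 t.2) ⟨(τ b.1).1, b.2⟩)
    (fun y => by
      beta_reduce
      rw [map_nestMap, hE, (hM _).eig, map_smul]
      rfl) hxM
  rw [hc1, map_sum]
  refine Submodule.sum_mem _ fun γ hγ => ?_
  rw [map_smul]
  by_cases h0 : c γ = 0
  · rw [h0, zero_smul]
    exact Submodule.zero_mem _
  refine Submodule.smul_mem _ _ ?_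
  have hj := hom_sum hP hγ
  have h4 := bal_of_rel (T := Σ t, Fin (m t))
    (fun b : Σ a, Fin (m (τ a).1) => ⟨(τ b.1).1, b.2⟩)
    (α := fun t => α t.1 t.2) hq0 (fun t => hα t.1 t.2) hind hM1 hj (hc2 γ hγ h0)
  have h5 := GP.mono (SR.gp (Θ := Θ) (ι := ι) (s := fun y : SI N m τ => s0 y.2) Ξ)
    (fun b : Σ a, Fin (m (τ a).1) => (⟨(τ b.1).1, b.2⟩ : Σ t, Fin (m t))) (fun a => ?_)
    (fun a i => ?_) huv h4
  · rw [hj] at h5
    exact h5
  · refine Submodule.subset_span ⟨?_, MvPolynomial.X ⟨a, none⟩, Rl.X rfl, ?_⟩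
    · rw [hΞ]
      exact alg_pull _ ⟨_, (hM _).div, rfl⟩
    · rw [map_X, hΘ', hΞ]
      rfl
  · refine Submodule.subset_span ⟨?_, MvPolynomial.X ⟨a, iz i⟩, Rl.X rfl, ?_⟩
    · rw [hΞ]
      exact alg_pull _ ((hM _).z_alg i)
    · rw [map_X, hΘ', hΞ]
      rfl

end Pool.Agent.K4H28.PF
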